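import Mathlib

/-! Bessel inequality for absolutely convergent power series on a circle. -/

namespace Pool.Agent.Sorted94

open AddCircle MeasureTheory

theorem bessel {c : ℕ → ℂ} (hc : Summable fun n => ‖c n‖) {M : ℝ}
    (hM : ∀ u : ℂ, ‖u‖ = 1 → ‖∑' n, c n * u ^ n‖ ≤ M) (N : ℕ) :
    ∑ n ∈ Finset.range N, ‖c n‖ ^ 2 ≤ M ^ 2 := by
  have : Fact ((0 : ℝ) < 1) := ⟨one_pos⟩
  have hM0 : 0 ≤ M := (norm_nonneg _).trans (hM 1 norm_one)
  -- the continuous function on the circle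
  have hsum : Summable fun n : ℕ => c n • (fourier (n : ℤ) : C(AddCircle (1 : ℝ), ℂ)) := by
    refine Summable.of_norm (hc.congr (fun n => ?_))
    rw [norm_smul, fourier_norm, mul_one]
  set F : C(AddCircle (1 : ℝ), ℂ) := ∑' n : ℕ, c n • (fourier (n : ℤ)) with hF
  have hFs : HasSum (fun n : ℕ => c n • (fourier (n : ℤ) : C(AddCircle (1 : ℝ), ℂ))) F := hsum.hasSum
  have hFnorm : ‖F‖ ≤ M := by
    rw [ContinuousMap.norm_le _ hM0]
    intro x
    have h1 : HasSum (fun n : ℕ => (c n • (fourier (n : ℤ) : C(AddCircle (1 : ℝ), ℂ))) x) (F x) :=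
      ContinuousMap.hasSum_apply hFs x
    have h2 : ∀ n : ℕ, (c n • (fourier (n : ℤ) : C(AddCircle (1 : ℝ), ℂ))) x =
        c n * ((AddCircle.toCircle x : Circle) : ℂ) ^ n := by
      intro n
      rw [ContinuousMap.smul_apply, smul_eq_mul, fourier_apply, AddCircle.toCircle_zsmul]
      simp
    simp only [h2] at h1
    rw [← h1.tsum_eq]
    exact hM _ (Circle.norm_coe _)
  have hLF : HasSum (fun n : ℕ => c n • (fourierLp (T := (1 : ℝ)) 2 (n : ℤ)))
      (ContinuousMap.toLp (E := ℂ) 2 (haarAddCircle (T := (1 : ℝ))) ℂ F) := by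
    have := (ContinuousMap.toLp (E := ℂ) 2 (haarAddCircle (T := (1 : ℝ))) ℂ).hasSum hFs
    convert! this using 2 with n
  have horth := orthonormal_fourier (T := (1 : ℝ))
  have hinner : ∀ k : ℕ, inner ℂ (fourierLp (T := (1 : ℝ)) 2 (k : ℤ))
      (ContinuousMap.toLp (E := ℂ) 2 (haarAddCircle (T := (1 : ℝ))) ℂ F) = c k := by
    intro k
    have h1 := (innerSL ℂ (fourierLp (T := (1 : ℝ)) 2 (k : ℤ))).hasSum hLF
    have h2 : HasSum (fun n : ℕ => (innerSL ℂ (fourierLp (T := (1 : ℝ)) 2 (k : ℤ)))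
        (c n • (fourierLp (T := (1 : ℝ)) 2 (n : ℤ)))) (c k) := by
      have h3 : ∀ n : ℕ, (innerSL ℂ (fourierLp (T := (1 : ℝ)) 2 (k : ℤ)))
          (c n • (fourierLp (T := (1 : ℝ)) 2 (n : ℤ))) = if n = k then c k else 0 := by
        intro n
        rw [map_smul, innerSL_apply_apply, orthonormal_iff_ite.mp horth]
        by_cases h : n = k
        · subst h; simp
        · rw [if_neg h, if_neg]
          · simp
          · intro h'
            exact h (by exact_mod_cast h'.symm)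
      simp only [h3]
      exact hasSum_ite_eq k (c k)
    exact h1.unique h2
  have hnorm : ‖ContinuousMap.toLp (E := ℂ) 2 (haarAddCircle (T := (1 : ℝ))) ℂ F‖ ≤ M := by
    refine (ContinuousLinearMap.le_opNorm _ _).trans ?_
    have h1 := ContinuousMap.toLp_norm_le (α := AddCircle (1 : ℝ)) (E := ℂ) (p := 2)
      (haarAddCircle (T := (1 : ℝ))) (𝕜 := ℂ)
    have h2 : (measureUnivNNReal (haarAddCircle (T := (1 : ℝ))) : ℝ) = 1 := by
      rw [measureUnivNNReal]
      simp
    have h3 : ((measureUnivNNReal (haarAddCircle (T := (1 : ℝ))) ^ (2 : ENNReal).toReal⁻¹ : NNReal) : ℝ)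
        = 1 := by
      rw [NNReal.coe_rpow, h2, Real.one_rpow]
    have h4 : ‖(ContinuousMap.toLp (E := ℂ) 2 (haarAddCircle (T := (1 : ℝ))) ℂ)‖ ≤ 1 := by
      refine h1.trans ?_
      exact_mod_cast h3.le
    calc _ ≤ 1 * ‖F‖ := mul_le_mul_of_nonneg_right h4 (norm_nonneg _)
      _ ≤ M := by rw [one_mul]; exact hFnorm
  have hb := horth.sum_inner_products_le (s := (Finset.range N).map ⟨((↑) : ℕ → ℤ), Nat.cast_injective⟩)
    (ContinuousMap.toLp (E := ℂ) 2 (haarAddCircle (T := (1 : ℝ))) ℂ F)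
  rw [Finset.sum_map] at hb
  simp only [Function.Embedding.coeFn_mk, hinner] at hb
  exact hb.trans (pow_le_pow_left₀ (norm_nonneg _) hnorm 2)

end Pool.Agent.Sorted94
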