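import Pool.Agent.Sorted94.Circle
import Pool.Agent.Sorted94.Parseval

/-! The asymptotics of the normalised numbers. -/

namespace Pool.Agent.Sorted94

open Set Finset

/-- coefficients of the error `w - 1/(R-z)` -/
noncomputable def gco (n : ℕ) : ℝ := V 0 n - (Rad ^ (n + 1))⁻¹

theorem summable_inv {r : ℝ} (h0 : 0 ≤ r) (h : r < Rad) :
    Summable fun n : ℕ => (Rad ^ (n + 1))⁻¹ * r ^ n := by
  have hR := Rad_pos
  have hq : ‖r / Rad‖ < 1 := by
    rw [Real.norm_of_nonneg (by positivity), div_lt_one hR]; exact h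
  refine ((summable_geometric_of_norm_lt_one hq).mul_left Rad⁻¹).congr (fun n => ?_)
  rw [div_pow, pow_succ]
  field_simp

theorem summable_gco {r : ℝ} (h0 : 0 ≤ r) (h : r < Rad) : Summable fun n => |gco n| * r ^ n := by
  have hR := Rad_pos
  refine Summable.of_nonneg_of_le (fun n => mul_nonneg (abs_nonneg _) (pow_nonneg h0 n))
    (fun n => ?_) ((Sm_of_lt_Rad h0 h).2.add (summable_inv h0 h))
  rw [← add_mul]
  refine mul_le_mul_of_nonneg_right ?_ (pow_nonneg h0 n)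
  unfold gco
  refine (abs_sub _ _).trans ?_
  rw [abs_of_nonneg (V_nonneg 0 n), abs_of_nonneg (by positivity)]

theorem ps_gco {z : ℂ} (hz : ‖z‖ < Rad) :
    ps ℂ gco z = ps ℂ (V 0) z - ((Rad : ℂ) - z)⁻¹ := by
  have hR := Rad_pos
  have hRc : (Rad : ℂ) ≠ 0 := by exact_mod_cast hR.ne'
  have h1 : ps ℂ (fun n => (Rad ^ (n + 1))⁻¹) z = ((Rad : ℂ) - z)⁻¹ := by
    unfold ps
    have hq : ‖z / (Rad : ℂ)‖ < 1 := by
      rw [norm_div, Complex.norm_real, Real.norm_of_nonneg hR.le, div_lt_one hR]; exact hz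
    have h2 := tsum_geometric_of_norm_lt_one hq
    have h3 : ∀ n : ℕ, ((((Rad ^ (n + 1))⁻¹ : ℝ)) : ℂ) * z ^ n = (Rad : ℂ)⁻¹ * (z / (Rad : ℂ)) ^ n := by
      intro n
      push_cast
      rw [div_pow, pow_succ]
      field_simp
    have h4 : ∀ n : ℕ, (RCLike.ofReal ((Rad ^ (n + 1))⁻¹) : ℂ) * z ^ n =
      (Rad : ℂ)⁻¹ * (z / (Rad : ℂ)) ^ n := h3
    simp only [h4]
    rw [tsum_mul_left, h2, ← mul_inv]
    congr 1
    field_simp
  have h5 : Summable fun n : ℕ => |(Rad ^ (n + 1))⁻¹| * ‖z‖ ^ n := by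
    refine (summable_inv (norm_nonneg z) hz).congr (fun n => ?_)
    rw [abs_of_nonneg (by positivity)]
  rw [← h1, ps_sub ((Sm_of_lt_Rad (norm_nonneg z) hz).sV' 0) h5 z le_rfl]
  rfl

/-- L² bound for the coefficients -/
theorem gco_sq_le : ∃ C : ℝ, 0 < C ∧ ∀ r : ℝ, 0 ≤ r → r < Rad → ∀ N : ℕ,
    ∑ n ∈ range N, gco n ^ 2 * r ^ (2 * n) ≤ C * (Rad - r) ^ (-(1 / 2) : ℝ) := by
  obtain ⟨C, hC, hG⟩ := G_bound
  refine ⟨C ^ 2, by positivity, ?_⟩
  intro r h0 h N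
  have h1 : 0 < Rad - r := by linarith
  have hb := bessel (c := fun n => ((gco n : ℝ) : ℂ) * (r : ℂ) ^ n)
    (M := C * (Rad - r) ^ (-(1 / 4) : ℝ))
    (by
      refine (summable_gco h0 h).congr (fun n => ?_)
      rw [norm_mul, norm_pow, Complex.norm_real, Complex.norm_real, Real.norm_of_nonneg h0,
        Real.norm_eq_abs])
    (fun u hu => by
      have hru : ‖(r : ℂ) * u‖ = r := by
        rw [norm_mul, hu, mul_one, Complex.norm_real, Real.norm_of_nonneg h0]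
      have h2 := hG ((r : ℂ) * u) (by rw [hru]; exact h)
      rw [hru, ← ps_gco (by rw [hru]; exact h)] at h2
      have h3 : ps ℂ gco ((r : ℂ) * u) = ∑' n, ((gco n : ℝ) : ℂ) * (r : ℂ) ^ n * u ^ n := by
        unfold ps
        refine tsum_congr (fun n => ?_)
        rw [mul_pow, ← mul_assoc]
        rfl
      rw [h3] at h2
      exact h2) N
  have h3 : ∀ n : ℕ, ‖((gco n : ℝ) : ℂ) * (r : ℂ) ^ n‖ ^ 2 = gco n ^ 2 * r ^ (2 * n) := by
    intro n
    rw [norm_mul, norm_pow, Complex.norm_real, Complex.norm_real, Real.norm_of_nonneg h0,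
      mul_pow, Real.norm_eq_abs, sq_abs, pow_mul, ← pow_mul, ← pow_mul, mul_comm n 2]
  simp only [h3] at hb
  refine hb.trans (le_of_eq ?_)
  rw [mul_pow, ← Real.rpow_natCast ((Rad - r) ^ (-(1 / 4) : ℝ)), ← Real.rpow_mul h1.le]
  norm_num

/-- normalised coefficients, expected to converge to 1 -/
noncomputable def xx (n : ℕ) : ℝ := V 0 n * Rad ^ (n + 1)

theorem xx_nonneg (n : ℕ) : 0 ≤ xx n := mul_nonneg (V_nonneg 0 n) (pow_nonneg Rad_pos.le _)

theorem xx_sub_one (n : ℕ) : xx n - 1 = gco n * Rad ^ (n + 1) := by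
  have hR := Rad_pos
  unfold xx gco
  rw [sub_mul, inv_mul_cancel₀ (by positivity)]

/-- the point `R n/(n+1)` -/
noncomputable def rn (n : ℕ) : ℝ := Rad * ((n : ℝ) / ((n : ℝ) + 1))

theorem rn_nonneg (n : ℕ) : 0 ≤ rn n := by unfold rn; have := Rad_pos; positivity

theorem rn_lt (n : ℕ) : rn n < Rad := by
  unfold rn
  have hR := Rad_pos
  have : (n : ℝ) / ((n : ℝ) + 1) < 1 := by rw [div_lt_one (by positivity)]; linarith
  nlinarith

theorem Rad_sub_rn (n : ℕ) : Rad - rn n = Rad / ((n : ℝ) + 1) := by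
  unfold rn
  field_simp
  ring

/-- `R^i ≤ e r^i` for `i ≤ n` -/
theorem Rad_pow_le {n i : ℕ} (hi : i ≤ n) : Rad ^ i ≤ Real.exp 1 * rn n ^ i := by
  have hR := Rad_pos
  rcases Nat.eq_zero_or_pos n with h0 | hn
  · subst h0
    have : i = 0 := by omega
    subst this
    simp
  have hn' : (0 : ℝ) < n := by exact_mod_cast hn
  unfold rn
  rw [mul_pow]
  have h1 : (1 : ℝ) ≤ Real.exp 1 * ((n : ℝ) / ((n : ℝ) + 1)) ^ i := by
    have h2 : (((n : ℝ) + 1) / n) ^ i ≤ Real.exp 1 := by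
      have h3 : ((n : ℝ) + 1) / n ≤ Real.exp (1 / n) := by
        have := Real.add_one_le_exp (1 / (n : ℝ))
        have e : ((n : ℝ) + 1) / n = 1 / n + 1 := by field_simp; ring
        rw [e]; exact this
      have h4 : (1 : ℝ) ≤ ((n : ℝ) + 1) / n := by rw [le_div_iff₀ hn']; linarith
      calc (((n : ℝ) + 1) / n) ^ i ≤ (((n : ℝ) + 1) / n) ^ n := pow_le_pow_right₀ h4 hi
        _ ≤ (Real.exp (1 / n)) ^ n := pow_le_pow_left₀ (by positivity) h3 n
        _ = Real.exp 1 := by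
            rw [← Real.exp_nat_mul]
            congr 1
            field_simp
    have h5 : ((n : ℝ) / ((n : ℝ) + 1)) ^ i = ((((n : ℝ) + 1) / n) ^ i)⁻¹ := by
      rw [← inv_pow, inv_div]
    rw [h5, ← div_eq_mul_inv, one_le_div (by positivity)]
    exact h2
  have h2 : 0 < Rad ^ i := pow_pos hR i
  nlinarith

theorem T_le : ∃ C : ℝ, 0 < C ∧ ∀ n : ℕ,
    ∑ i ∈ range (n + 1), (xx i - 1) ^ 2 ≤ C * ((n : ℝ) + 1) ^ (1 / 2 : ℝ) := by
  have hR := Rad_pos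
  obtain ⟨C, hC, hg⟩ := gco_sq_le
  refine ⟨Real.exp 1 ^ 2 * Rad ^ 2 * (C * Rad ^ (-(1 / 2) : ℝ)), by positivity, ?_⟩
  intro n
  have h1 := hg (rn n) (rn_nonneg n) (rn_lt n) (n + 1)
  rw [Rad_sub_rn, Real.div_rpow hR.le (by positivity), Real.rpow_neg (show (0:ℝ) ≤ (n : ℝ) + 1 by positivity),
    div_inv_eq_mul] at h1
  calc ∑ i ∈ range (n + 1), (xx i - 1) ^ 2
      ≤ ∑ i ∈ range (n + 1), Real.exp 1 ^ 2 * Rad ^ 2 * (gco i ^ 2 * rn n ^ (2 * i)) := by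
        refine Finset.sum_le_sum (fun i hi => ?_)
        rw [Finset.mem_range] at hi
        have h2 := Rad_pow_le (n := n) (i := i) (by omega)
        rw [xx_sub_one]
        have h3 : Rad ^ i * Rad ^ i ≤ (Real.exp 1 * rn n ^ i) * (Real.exp 1 * rn n ^ i) :=
          mul_self_le_mul_self (by positivity) h2
        calc (gco i * Rad ^ (i + 1)) ^ 2 = (gco i ^ 2 * Rad ^ 2) * (Rad ^ i * Rad ^ i) := by ring
          _ ≤ (gco i ^ 2 * Rad ^ 2) * ((Real.exp 1 * rn n ^ i) * (Real.exp 1 * rn n ^ i)) :=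
              mul_le_mul_of_nonneg_left h3 (by positivity)
          _ = _ := by ring
    _ = Real.exp 1 ^ 2 * Rad ^ 2 * ∑ i ∈ range (n + 1), gco i ^ 2 * rn n ^ (2 * i) := by
        rw [Finset.mul_sum]
    _ ≤ Real.exp 1 ^ 2 * Rad ^ 2 * (C * (Rad ^ (-(1 / 2) : ℝ) * ((n : ℝ) + 1) ^ (1 / 2 : ℝ))) :=
        mul_le_mul_of_nonneg_left h1 (by positivity)
    _ = _ := by ring

/-- the scaled `D 1` coefficients -/
noncomputable def dd (n : ℕ) : ℝ := D 1 n * Rad ^ (n + 2)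

theorem dd_nonneg (n : ℕ) : 0 ≤ dd n := mul_nonneg (D_nonneg 1 n) (pow_nonneg Rad_pos.le _)

theorem xx_rec (n : ℕ) : ((n : ℝ) + 1) * xx (n + 1) =
    (∑ i ∈ range (n + 1), xx i * xx (n - i)) - dd n := by
  have h := D_rec 0 n
  rw [D_zero] at h
  unfold xx dd
  have e1 : ∑ i ∈ range (n + 1), V 0 i * Rad ^ (i + 1) * (V 0 (n - i) * Rad ^ (n - i + 1)) =
      (∑ i ∈ range (n + 1), V 0 i * V 0 (n - i)) * Rad ^ (n + 2) := by
    rw [Finset.sum_mul]
    refine Finset.sum_congr rfl (fun i hi => ?_)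
    rw [Finset.mem_range] at hi
    have : Rad ^ (n + 2) = Rad ^ (i + 1) * Rad ^ (n - i + 1) := by
      rw [← pow_add]; congr 1; omega
    rw [this]; ring
  rw [e1]
  have e2 : (∑ i ∈ range (n + 1), V 0 i * V 0 (n - i)) = ((n : ℝ) + 1) * V 0 (n + 1) + D 1 n := by
    simp only [zero_add] at h
    linarith
  rw [e2]
  ring

theorem xx_rec' (n : ℕ) : ((n : ℝ) + 1) * (xx (n + 1) - 1) + dd n =
    (∑ i ∈ range (n + 1), (xx i - 1) * (xx (n - i) - 1)) +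
      2 * ∑ i ∈ range (n + 1), (xx i - 1) := by
  have h := xx_rec n
  have h1 : ∑ i ∈ range (n + 1), xx (n - i) = ∑ i ∈ range (n + 1), xx i := by
    have := Finset.sum_range_reflect xx (n + 1)
    rw [← this]
    refine Finset.sum_congr rfl (fun i hi => ?_)
    congr 1
  have h2 : ∑ i ∈ range (n + 1), (xx i - 1) * (xx (n - i) - 1) =
      (∑ i ∈ range (n + 1), xx i * xx (n - i)) - (∑ i ∈ range (n + 1), xx i) -
        (∑ i ∈ range (n + 1), xx (n - i)) + ((n : ℝ) + 1) := by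
    rw [← Finset.sum_sub_distrib, ← Finset.sum_sub_distrib]
    have : ((n : ℝ) + 1) = ∑ i ∈ range (n + 1), (1 : ℝ) := by simp
    rw [this, ← Finset.sum_add_distrib]
    refine Finset.sum_congr rfl (fun i _ => ?_)
    ring
  rw [h2, Finset.sum_sub_distrib, h1]
  simp
  linarith

theorem sum_abs_le {C : ℝ} (hC : 0 ≤ C) (n : ℕ)
    (hT : ∑ i ∈ range (n + 1), (xx i - 1) ^ 2 ≤ C * ((n : ℝ) + 1) ^ (1 / 2 : ℝ)) :
    |∑ i ∈ range (n + 1), (xx i - 1)| ≤ C.sqrt * ((n : ℝ) + 1) ^ (3 / 4 : ℝ) := by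
  have hn : (0 : ℝ) < (n : ℝ) + 1 := by positivity
  have h1 := sq_sum_le_card_mul_sum_sq (s := range (n + 1)) (f := fun i => xx i - 1)
  rw [Finset.card_range] at h1
  apply abs_le_of_sq_le_sq _ (by positivity)
  refine h1.trans ?_
  push_cast
  rw [mul_pow, Real.sq_sqrt hC, ← Real.rpow_natCast (((n : ℝ) + 1) ^ (3 / 4 : ℝ)) 2,
    ← Real.rpow_mul hn.le]
  have e : ((n : ℝ) + 1) ^ ((3 / 4 : ℝ) * ((2 : ℕ) : ℝ)) =
      ((n : ℝ) + 1) * ((n : ℝ) + 1) ^ (1 / 2 : ℝ) := by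
    rw [show ((3 / 4 : ℝ) * ((2 : ℕ) : ℝ)) = (1 / 2) + 1 by norm_num, Real.rpow_add_one hn.ne']
    ring
  rw [e]
  calc ((n : ℝ) + 1) * ∑ i ∈ range (n + 1), (xx i - 1) ^ 2
      ≤ ((n : ℝ) + 1) * (C * ((n : ℝ) + 1) ^ (1 / 2 : ℝ)) :=
        mul_le_mul_of_nonneg_left hT hn.le
    _ = _ := by ring

theorem conv_abs_le (n : ℕ) : |∑ i ∈ range (n + 1), (xx i - 1) * (xx (n - i) - 1)| ≤
    ∑ i ∈ range (n + 1), (xx i - 1) ^ 2 := by
  refine (Finset.abs_sum_le_sum_abs _ _).trans ?_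
  have h1 : ∀ i ∈ range (n + 1), |(xx i - 1) * (xx (n - i) - 1)| ≤
      ((xx i - 1) ^ 2 + (xx (n - i) - 1) ^ 2) / 2 := by
    intro i _
    rw [abs_mul]
    have := two_mul_le_add_sq |xx i - 1| |xx (n - i) - 1|
    rw [sq_abs, sq_abs] at this
    linarith
  refine (Finset.sum_le_sum h1).trans (le_of_eq ?_)
  have h2 : ∑ i ∈ range (n + 1), (xx (n - i) - 1) ^ 2 = ∑ i ∈ range (n + 1), (xx i - 1) ^ 2 := by
    have := Finset.sum_range_reflect (fun i => (xx i - 1) ^ 2) (n + 1)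
    rw [← this]
    refine Finset.sum_congr rfl (fun i hi => ?_)
    congr 1
  rw [← Finset.sum_div, Finset.sum_add_distrib, h2]
  ring

/-- main error estimate -/
theorem main_err : ∃ C : ℝ, 0 < C ∧ ∀ n : ℕ,
    |((n : ℝ) + 1) * (xx (n + 1) - 1) + dd n| ≤ C * ((n : ℝ) + 1) ^ (3 / 4 : ℝ) := by
  obtain ⟨C, hC, hT⟩ := T_le
  refine ⟨C + 2 * C.sqrt, by positivity, ?_⟩
  intro n
  rw [xx_rec']
  have h1 := conv_abs_le n
  have h2 := sum_abs_le hC.le n (hT n)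
  have h3 := hT n
  have h4 : ((n : ℝ) + 1) ^ (1 / 2 : ℝ) ≤ ((n : ℝ) + 1) ^ (3 / 4 : ℝ) :=
    Real.rpow_le_rpow_of_exponent_le (by have : (0 : ℝ) ≤ n := by positivity
                                         linarith) (by norm_num)
  have h5 : C * ((n : ℝ) + 1) ^ (1 / 2 : ℝ) ≤ C * ((n : ℝ) + 1) ^ (3 / 4 : ℝ) :=
    mul_le_mul_of_nonneg_left h4 hC.le
  have h6 := abs_le.mp h1
  have h7 := abs_le.mp h2
  rw [abs_le]
  constructor <;> linarith [h6.1, h6.2, h7.1, h7.2]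

theorem xx_bdd : ∃ X : ℝ, 0 < X ∧ ∀ n, xx n ≤ X := by
  obtain ⟨C, hC, hm⟩ := main_err
  have hR := Rad_pos
  refine ⟨Rad + 1 + C, by positivity, ?_⟩
  intro n
  cases n with
  | zero =>
    unfold xx; rw [V_k_zero]; simp; linarith
  | succ n =>
    have h1 := (abs_le.mp (hm n)).2
    have h2 := dd_nonneg n
    have hn : (1 : ℝ) ≤ (n : ℝ) + 1 := by have : (0 : ℝ) ≤ n := by positivity
                                          linarith
    have h3 : ((n : ℝ) + 1) ^ (3 / 4 : ℝ) ≤ ((n : ℝ) + 1) ^ (1 : ℝ) :=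
      Real.rpow_le_rpow_of_exponent_le hn (by norm_num)
    rw [Real.rpow_one] at h3
    have h4 : ((n : ℝ) + 1) * (xx (n + 1) - 1) ≤ ((n : ℝ) + 1) * C := by
      have : C * ((n : ℝ) + 1) ^ (3 / 4 : ℝ) ≤ C * ((n : ℝ) + 1) := mul_le_mul_of_nonneg_left h3 hC.le
      linarith
    have h5 := le_of_mul_le_mul_left h4 (by linarith)
    linarith

theorem dd_sum_le : ∃ C : ℝ, 0 < C ∧ ∀ n : ℕ,
    ∑ i ∈ range (n + 1), dd i ≤ C * ((n : ℝ) + 1) ^ (5 / 4 : ℝ) := by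
  have hR := Rad_pos
  obtain ⟨C, hC, hd⟩ := dr_le (ε := 1 / 4) (by norm_num)
  refine ⟨Rad ^ 2 * Real.exp 1 * (C * Rad ^ (-1 - 1 / 4 : ℝ)), by positivity, ?_⟩
  intro n
  have h1 := hd (rn n) (rn_nonneg n) (rn_lt n)
  have h2 := ps_sum_le (D_nonneg 1) (rn_nonneg n) ((Sm_of_lt_Rad (rn_nonneg n) (rn_lt n)).sD 1) (n + 1)
  have hn : (0 : ℝ) < (n : ℝ) + 1 := by positivity
  rw [Rad_sub_rn, Real.div_rpow hR.le hn.le] at h1
  have e1 : ((n : ℝ) + 1) ^ (-1 - 1 / 4 : ℝ) = (((n : ℝ) + 1) ^ (5 / 4 : ℝ))⁻¹ := by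
    rw [← Real.rpow_neg hn.le]; norm_num
  rw [e1, div_inv_eq_mul] at h1
  calc ∑ i ∈ range (n + 1), dd i
      ≤ ∑ i ∈ range (n + 1), Rad ^ 2 * Real.exp 1 * (D 1 i * rn n ^ i) := by
        refine Finset.sum_le_sum (fun i hi => ?_)
        rw [Finset.mem_range] at hi
        have h3 := Rad_pow_le (n := n) (i := i) (by omega)
        unfold dd
        have h4 := D_nonneg 1 i
        calc D 1 i * Rad ^ (i + 2) = Rad ^ 2 * D 1 i * Rad ^ i := by ring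
          _ ≤ Rad ^ 2 * D 1 i * (Real.exp 1 * rn n ^ i) := mul_le_mul_of_nonneg_left h3 (by positivity)
          _ = _ := by ring
    _ = Rad ^ 2 * Real.exp 1 * ∑ i ∈ range (n + 1), D 1 i * rn n ^ i := by rw [Finset.mul_sum]
    _ ≤ Rad ^ 2 * Real.exp 1 * (C * (Rad ^ (-1 - 1 / 4 : ℝ) * ((n : ℝ) + 1) ^ (5 / 4 : ℝ))) :=
        mul_le_mul_of_nonneg_left (h2.trans h1) (by positivity)
    _ = _ := by ring

theorem dd_rec_le (n : ℕ) : ((n : ℝ) + 1) * dd (n + 1) ≤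
    ∑ i ∈ range (n + 1), xx i * (Rad * xx (n - i) + dd (n - i)) := by
  have h := D_rec 1 n
  have h2 := D_nonneg 2 n
  have hR := Rad_pos
  have h3 : ((n : ℝ) + 1) * D 1 (n + 1) ≤ ∑ i ∈ range (n + 1), V 0 i * V 1 (n - i) := by
    have : (1 + 1 : ℕ) = 2 := rfl
    rw [this] at h
    linarith
  calc ((n : ℝ) + 1) * dd (n + 1) = (((n : ℝ) + 1) * D 1 (n + 1)) * Rad ^ (n + 3) := by
        unfold dd; ring
    _ ≤ (∑ i ∈ range (n + 1), V 0 i * V 1 (n - i)) * Rad ^ (n + 3) :=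
        mul_le_mul_of_nonneg_right h3 (by positivity)
    _ = _ := by
        rw [Finset.sum_mul]
        refine Finset.sum_congr rfl (fun i hi => ?_)
        rw [Finset.mem_range] at hi
        have e : Rad ^ (n + 3) = Rad ^ (i + 1) * Rad ^ (n - i + 2) := by
          rw [← pow_add]; congr 1; omega
        rw [e, V_succ 0]
        unfold xx dd
        ring

theorem dd_le : ∃ C : ℝ, 0 < C ∧ ∀ n : ℕ, dd (n + 1) ≤ C * ((n : ℝ) + 1) ^ (1 / 4 : ℝ) := by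
  have hR := Rad_pos
  obtain ⟨X, hX, hx⟩ := xx_bdd
  obtain ⟨C, hC, hd⟩ := dd_sum_le
  refine ⟨X * (Rad * X + C), by positivity, ?_⟩
  intro n
  have hn : (0 : ℝ) < (n : ℝ) + 1 := by positivity
  have hn1 : (1 : ℝ) ≤ (n : ℝ) + 1 := by have : (0 : ℝ) ≤ n := by positivity
                                         linarith
  have h1 := dd_rec_le n
  have h2 : ∑ i ∈ range (n + 1), xx i * (Rad * xx (n - i) + dd (n - i)) ≤
      ∑ i ∈ range (n + 1), X * (Rad * X + dd (n - i)) := by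
    refine Finset.sum_le_sum (fun i _ => ?_)
    have h3 := hx i
    have h4 := hx (n - i)
    have h5 := xx_nonneg i
    have h6 := dd_nonneg (n - i)
    have h7 := xx_nonneg (n - i)
    apply mul_le_mul h3 _ (by positivity) hX.le
    have : Rad * xx (n - i) ≤ Rad * X := mul_le_mul_of_nonneg_left h4 hR.le
    linarith
  have h3 : ∑ i ∈ range (n + 1), X * (Rad * X + dd (n - i)) =
      X * (Rad * X * ((n : ℝ) + 1) + ∑ i ∈ range (n + 1), dd i) := by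
    have h4 : ∑ i ∈ range (n + 1), dd (n - i) = ∑ i ∈ range (n + 1), dd i := by
      have := Finset.sum_range_reflect dd (n + 1)
      rw [← this]
      refine Finset.sum_congr rfl (fun i hi => ?_)
      congr 1
    rw [← Finset.mul_sum, Finset.sum_add_distrib, h4, Finset.sum_const, Finset.card_range,
      nsmul_eq_mul]
    push_cast
    ring
  have h4 := hd n
  have e1 : ((n : ℝ) + 1) ^ (5 / 4 : ℝ) = ((n : ℝ) + 1) * ((n : ℝ) + 1) ^ (1 / 4 : ℝ) := by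
    rw [show (5 / 4 : ℝ) = 1 / 4 + 1 by norm_num, Real.rpow_add_one hn.ne']; ring
  rw [e1] at h4
  have h5 : (1 : ℝ) ≤ ((n : ℝ) + 1) ^ (1 / 4 : ℝ) := Real.one_le_rpow hn1 (by norm_num)
  have h6 : ((n : ℝ) + 1) * dd (n + 1) ≤
      ((n : ℝ) + 1) * (X * (Rad * X + C) * ((n : ℝ) + 1) ^ (1 / 4 : ℝ)) := by
    refine h1.trans (h2.trans ?_)
    rw [h3]
    have h7 : Rad * X * ((n : ℝ) + 1) ≤ Rad * X * ((n : ℝ) + 1) * ((n : ℝ) + 1) ^ (1 / 4 : ℝ) :=
      le_mul_of_one_le_right (by positivity) h5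
    calc X * (Rad * X * ((n : ℝ) + 1) + ∑ i ∈ range (n + 1), dd i)
        ≤ X * (Rad * X * ((n : ℝ) + 1) * ((n : ℝ) + 1) ^ (1 / 4 : ℝ) +
            C * (((n : ℝ) + 1) * ((n : ℝ) + 1) ^ (1 / 4 : ℝ))) := by
          apply mul_le_mul_of_nonneg_left _ hX.le
          linarith
      _ = _ := by ring
  exact le_of_mul_le_mul_left h6 hn

/-- quantitative convergence -/
theorem xx_rate : ∃ C : ℝ, 0 < C ∧ ∀ n : ℕ, |xx (n + 2) - 1| ≤ C * ((n : ℝ) + 1) ^ (-(1 / 4) : ℝ) := by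
  obtain ⟨C1, hC1, hm⟩ := main_err
  obtain ⟨C2, hC2, hd⟩ := dd_le
  refine ⟨2 * C1 + C2, by positivity, ?_⟩
  intro n
  have hn : (0 : ℝ) < (n : ℝ) + 1 := by positivity
  have hn1 : (1 : ℝ) ≤ (n : ℝ) + 1 := by have : (0 : ℝ) ≤ n := by positivity
                                         linarith
  have h1 := hm (n + 1)
  have h2 := hd n
  have h0 := dd_nonneg (n + 1)
  push_cast at h1
  set m : ℝ := (n : ℝ) + 1 with hm'
  have h3 : (m + 1) ^ (3 / 4 : ℝ) ≤ 2 * m ^ (3 / 4 : ℝ) := by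
    have h4 : (m + 1) ^ (3 / 4 : ℝ) ≤ (2 * m) ^ (3 / 4 : ℝ) :=
      Real.rpow_le_rpow (by positivity) (by linarith) (by norm_num)
    rw [Real.mul_rpow (by norm_num) hn.le] at h4
    have h5 : (2 : ℝ) ^ (3 / 4 : ℝ) ≤ 2 ^ (1 : ℝ) :=
      Real.rpow_le_rpow_of_exponent_le (by norm_num) (by norm_num)
    rw [Real.rpow_one] at h5
    have h6 : 0 < m ^ (3 / 4 : ℝ) := Real.rpow_pos_of_pos hn _
    nlinarith
  have e1 : m * m ^ (-(1 / 4) : ℝ) = m ^ (3 / 4 : ℝ) := by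
    rw [show (3 / 4 : ℝ) = -(1 / 4) + 1 by norm_num, Real.rpow_add_one hn.ne']; ring
  have h7 : m ^ (1 / 4 : ℝ) ≤ m ^ (3 / 4 : ℝ) := Real.rpow_le_rpow_of_exponent_le hn1 (by norm_num)
  have h8 : (m + 1) * |xx (n + 2) - 1| ≤ (2 * C1 + C2) * m ^ (3 / 4 : ℝ) := by
    have h9 : (m + 1) * |xx (n + 2) - 1| = |(m + 1) * (xx (n + 1 + 1) - 1)| := by
      rw [abs_mul, abs_of_pos (show 0 < m + 1 by linarith)]
    rw [h9]
    have h10 : (m + 1) * (xx (n + 1 + 1) - 1) =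
        ((m + 1) * (xx (n + 1 + 1) - 1) + dd (n + 1)) - dd (n + 1) := by ring
    rw [h10]
    refine (abs_sub _ _).trans ?_
    rw [abs_of_nonneg h0]
    have h11 : C1 * (m + 1) ^ (3 / 4 : ℝ) ≤ C1 * (2 * m ^ (3 / 4 : ℝ)) :=
      mul_le_mul_of_nonneg_left h3 hC1.le
    have h12 : C2 * m ^ (1 / 4 : ℝ) ≤ C2 * m ^ (3 / 4 : ℝ) := mul_le_mul_of_nonneg_left h7 hC2.le
    linarith
  have h9 : m * |xx (n + 2) - 1| ≤ m * ((2 * C1 + C2) * m ^ (-(1 / 4) : ℝ)) := by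
    have e2 : m * ((2 * C1 + C2) * m ^ (-(1 / 4) : ℝ)) = (2 * C1 + C2) * m ^ (3 / 4 : ℝ) := by
      rw [← e1]; ring
    rw [e2]
    have : 0 ≤ |xx (n + 2) - 1| := abs_nonneg _
    linarith
  exact le_of_mul_le_mul_left h9 hn

open Filter Topology in
theorem tendsto_xx : Tendsto xx atTop (𝓝 1) := by
  obtain ⟨C, hC, hx⟩ := xx_rate
  rw [← tendsto_add_atTop_iff_nat 2]
  have h1 : Tendsto (fun n : ℕ => C * ((n : ℝ) + 1) ^ (-(1 / 4) : ℝ)) atTop (𝓝 (C * 0)) := by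
    refine Tendsto.const_mul C ?_
    have h2 : Tendsto (fun n : ℕ => (n : ℝ) + 1) atTop atTop :=
      tendsto_atTop_add_const_right _ _ tendsto_natCast_atTop_atTop
    exact (tendsto_rpow_neg_atTop (by norm_num : (0 : ℝ) < 1 / 4)).comp h2
  rw [mul_zero] at h1
  have h3 : Tendsto (fun n => xx (n + 2) - 1) atTop (𝓝 0) :=
    squeeze_zero_norm (fun n => by rw [Real.norm_eq_abs]; exact hx n) h1
  have h4 := h3.add_const 1
  simpa using h4

end Pool.Agent.Sorted94
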