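import Pool.Agent.Sorted94.Super

/-! Two-sided bounds for the radius of convergence. -/

namespace Pool.Agent.Sorted94

open Finset

/-- value of `w` at `7/5` -/
noncomputable def w0 : ℝ := ps ℝ (V 0) (7 / 5)
/-- value of `d` at `7/5` -/
noncomputable def d0 : ℝ := ps ℝ (D 1) (7 / 5)
/-- value of `e` at `7/5` -/
noncomputable def e0 : ℝ := ps ℝ (D 2) (7 / 5)

theorem Sm75 : Sm (7 / 5) := Sm143.mono (by norm_num) (by norm_num)

theorem qq_pos : 0 < qq := by unfold qq; norm_num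
theorem qq_lt : qq < 1 := by unfold qq; norm_num

theorem qq_pow : qq ^ 401 ≤ 1.0801e-4 := by
  have h1 : qq ^ 50 ≤ 0.32018 := by unfold qq; norm_num
  have h2 : qq ^ 401 = (qq ^ 50) ^ 8 * qq := by ring
  have h0 := qq_pos
  rw [h2]
  calc (qq ^ 50) ^ 8 * qq ≤ 0.32018 ^ 8 * (24437 / 25000) := by
        have : qq = 24437 / 25000 := rfl
        rw [← this]
        gcongr
    _ ≤ 1.0801e-4 := by norm_num

theorem w0_ge : 33.23376 ≤ w0 :=
  sum_ll.trans (ps_sum_le (V_nonneg 0) (by norm_num) Sm75.2 401)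

theorem tail_term (n : ℕ) : V 0 (n + 401) * (7 / 5 : ℝ) ^ (n + 401) ≤
    rr * qq ^ 401 * qq ^ n := by
  have h1 := V_le_rr (n + 401) (by omega)
  calc V 0 (n + 401) * (7 / 5 : ℝ) ^ (n + 401) ≤ rr ^ (n + 401 + 1) * (7 / 5 : ℝ) ^ (n + 401) :=
        mul_le_mul_of_nonneg_right h1 (by positivity)
    _ = rr * (rr * (7 / 5)) ^ (n + 401) := by rw [mul_pow, pow_succ rr (n + 401)]; ring
    _ = rr * qq ^ 401 * qq ^ n := by rw [qq_eq, pow_add]; ring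

theorem w0_le : w0 ≤ 33.23795 := by
  have hr := rr_pos
  have h1 : w0 = P0 + ∑' n, V 0 (n + 401) * (7 / 5 : ℝ) ^ (n + 401) :=
    (Sm75.2.sum_add_tsum_nat_add 401).symm
  have hg : HasSum (fun n : ℕ => rr * qq ^ 401 * qq ^ n) (rr * qq ^ 401 * (1 - qq)⁻¹) :=
    (hasSum_geometric_of_lt_one qq_pos.le qq_lt).mul_left _
  have h2 : ∑' n, V 0 (n + 401) * (7 / 5 : ℝ) ^ (n + 401) ≤ rr * qq ^ 401 * (1 - qq)⁻¹ := by
    rw [← hg.tsum_eq]
    exact ((summable_nat_add_iff 401).mpr Sm75.2).tsum_le_tsum tail_term hg.summable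
  have h3 : rr * qq ^ 401 * (1 - qq)⁻¹ ≤ rr * 1.0801e-4 * (1 - qq)⁻¹ := by
    have := qq_pow
    have h4 : 0 < (1 - qq)⁻¹ := inv_pos.mpr (by have := qq_lt; linarith)
    gcongr
  have h4 : rr * 1.0801e-4 * (1 - qq)⁻¹ ≤ 0.00335 := by unfold rr qq; norm_num
  have h5 := sum_hh
  rw [h1]
  linarith

/-- multiplying the derivative series by `z` -/
theorem mul_ps_deriv {c : ℕ → ℝ} {z : ℝ}
    (h : Summable fun n : ℕ => (n : ℝ) * c n * z ^ n) :
    z * ps ℝ (fun n => ((n : ℝ) + 1) * c (n + 1)) z = ∑' n : ℕ, (n : ℝ) * c n * z ^ n := by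
  rw [h.tsum_eq_zero_add]
  simp only [Nat.cast_zero, zero_mul, zero_add, ps]
  rw [← tsum_mul_left]
  refine tsum_congr (fun n => ?_)
  push_cast
  rw [pow_succ]
  simp only [RCLike.ofReal_real_eq_id, id_eq]
  ring

theorem summable_nmul {c : ℕ → ℝ} {z t : ℝ} (hc : ∀ n, 0 ≤ c n) (hz : 0 < z) (hzt : z < t)
    (h : Summable fun n => c n * t ^ n) : Summable fun n : ℕ => (n : ℝ) * c n * z ^ n := by
  have ht : 0 < t := hz.trans hzt
  have hq : ‖z / t‖ < 1 := by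
    rw [Real.norm_of_nonneg (by positivity), div_lt_one ht]; exact hzt
  obtain ⟨M, hM⟩ := h.tendsto_atTop_zero.bddAbove_range
  have hM' : ∀ n, c n * t ^ n ≤ M := fun n => hM (Set.mem_range_self n)
  have hsum : Summable (fun n : ℕ => M * ((n : ℝ) ^ 1 * (z / t) ^ n)) :=
    (summable_pow_mul_geometric_of_norm_lt_one 1 hq).mul_left _
  refine Summable.of_nonneg_of_le (fun n => ?_) (fun n => ?_) hsum
  · have := hc n; positivity
  · have e : (n : ℝ) * c n * z ^ n = (c n * t ^ n) * ((n : ℝ) ^ 1 * (z / t) ^ n) := by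
      rw [div_pow]; field_simp
    rw [e]
    exact mul_le_mul_of_nonneg_right (hM' n) (by positivity)

theorem nV_summable (k : ℕ) : Summable fun n : ℕ => (n : ℝ) * V k n * (7 / 5 : ℝ) ^ n :=
  summable_nmul (V_nonneg k) (by norm_num) (by norm_num) (Sm143.sV k)

/-- the derivative of `w` at `7/5` -/
theorem w1_eq : w0 ^ 2 - d0 = ps ℝ (fun n => ((n : ℝ) + 1) * V 0 (n + 1)) (7 / 5) := by
  have hz : ‖(7 / 5 : ℝ)‖ < 143 / 100 := by norm_num
  have h1 := hasDerivAt_ps (𝕜 := ℝ) (Sm143.sV' 0) (7 / 5) hz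
  have h2 := Sm143.sys (z₀ := 7 / 5) (by norm_num)
  have h3 := h2.hw (7 / 5) le_rfl (by norm_num)
  exact h3.unique h1

theorem v1_eq : (w0 ^ 2 - d0) + (w0 ^ 2 + w0 * d0 - e0) =
    ps ℝ (fun n => ((n : ℝ) + 1) * V 1 (n + 1)) (7 / 5) := by
  have hz : ‖(7 / 5 : ℝ)‖ < 143 / 100 := by norm_num
  have h1 := hasDerivAt_ps (𝕜 := ℝ) (Sm143.sV' 1) (7 / 5) hz
  have h2 := Sm143.sys (z₀ := 7 / 5) (by norm_num)
  have h3 := (h2.hw (7 / 5) le_rfl (by norm_num)).add (h2.hd (7 / 5) le_rfl (by norm_num))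
  have h4 : (fun z => ps ℝ (V 1) z) =ᶠ[nhds (7 / 5)] (ps ℝ (V 0) + ps ℝ (D 1)) := by
    have hn : {z : ℝ | ‖z‖ < 143 / 100} ∈ nhds (7 / 5 : ℝ) :=
      (isOpen_lt continuous_norm continuous_const).mem_nhds hz
    filter_upwards [hn] with z hz'
    exact Sm143.ps_V_succ 0 z (le_of_lt hz')
  exact (h3.congr_of_eventuallyEq h4).unique h1

theorem w1_ge : 1312.03 ≤ (7 / 5) * (w0 ^ 2 - d0) := by
  rw [w1_eq, mul_ps_deriv (nV_summable 0)]
  refine sum_ill.trans ?_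
  exact (nV_summable 0).sum_le_tsum (range 401)
    (fun n _ => mul_nonneg (mul_nonneg (Nat.cast_nonneg n) (V_nonneg 0 n)) (by positivity))

theorem v1_ge : 9762.7 ≤ (7 / 5) * ((w0 ^ 2 - d0) + (w0 ^ 2 + w0 * d0 - e0)) := by
  rw [v1_eq, mul_ps_deriv (nV_summable 1)]
  refine sum_il1.trans ?_
  exact (nV_summable 1).sum_le_tsum (range 401)
    (fun n _ => mul_nonneg (mul_nonneg (Nat.cast_nonneg n) (V_nonneg 1 n)) (by positivity))

theorem w1_le : (7 / 5) * (w0 ^ 2 - d0) ≤ 1313.6083 := by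
  have hr := rr_pos
  rw [w1_eq, mul_ps_deriv (nV_summable 0)]
  have h1 : ∑' n : ℕ, (n : ℝ) * V 0 n * (7 / 5 : ℝ) ^ n =
      P1 + ∑' n : ℕ, ((n + 401 : ℕ) : ℝ) * V 0 (n + 401) * (7 / 5 : ℝ) ^ (n + 401) :=
    ((nV_summable 0).sum_add_tsum_nat_add 401).symm
  have hq : ‖qq‖ < 1 := by rw [Real.norm_of_nonneg qq_pos.le]; exact qq_lt
  have hg1 : HasSum (fun n : ℕ => rr * qq ^ 401 * ((n : ℝ) * qq ^ n))
      (rr * qq ^ 401 * (qq / (1 - qq) ^ 2)) :=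
    (hasSum_coe_mul_geometric_of_norm_lt_one hq).mul_left _
  have hg2 : HasSum (fun n : ℕ => rr * qq ^ 401 * 401 * qq ^ n)
      (rr * qq ^ 401 * 401 * (1 - qq)⁻¹) :=
    (hasSum_geometric_of_lt_one qq_pos.le qq_lt).mul_left _
  have hg := hg1.add hg2
  have hterm : ∀ n : ℕ, ((n + 401 : ℕ) : ℝ) * V 0 (n + 401) * (7 / 5 : ℝ) ^ (n + 401) ≤
      rr * qq ^ 401 * ((n : ℝ) * qq ^ n) + rr * qq ^ 401 * 401 * qq ^ n := by
    intro n
    have h2 := tail_term n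
    have h3 : ((n + 401 : ℕ) : ℝ) * V 0 (n + 401) * (7 / 5 : ℝ) ^ (n + 401) ≤
        ((n + 401 : ℕ) : ℝ) * (rr * qq ^ 401 * qq ^ n) := by
      rw [mul_assoc]
      exact mul_le_mul_of_nonneg_left h2 (Nat.cast_nonneg _)
    refine h3.trans (le_of_eq ?_)
    push_cast
    ring
  have h2 : ∑' n, ((n + 401 : ℕ) : ℝ) * V 0 (n + 401) * (7 / 5 : ℝ) ^ (n + 401) ≤
      rr * qq ^ 401 * (qq / (1 - qq) ^ 2) + rr * qq ^ 401 * 401 * (1 - qq)⁻¹ := by
    rw [← hg.tsum_eq]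
    exact Summable.tsum_le_tsum hterm ((summable_nat_add_iff 401).mpr (nV_summable 0)) hg.summable
  have h3 : rr * qq ^ 401 * (qq / (1 - qq) ^ 2) + rr * qq ^ 401 * 401 * (1 - qq)⁻¹ ≤
      rr * 1.0801e-4 * (qq / (1 - qq) ^ 2) + rr * 1.0801e-4 * 401 * (1 - qq)⁻¹ := by
    have := qq_pow
    have hq0 := qq_pos
    have h4 : 0 < (1 - qq)⁻¹ := inv_pos.mpr (by have := qq_lt; linarith)
    have h5 : 0 < 1 - qq := by have := qq_lt; linarith
    gcongr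
  have h4 : rr * 1.0801e-4 * (qq / (1 - qq) ^ 2) + rr * 1.0801e-4 * 401 * (1 - qq)⁻¹ ≤
      1.4883 := by unfold rr qq; norm_num
  have h5 := sum_ihh
  rw [h1]
  linarith

theorem J_ge : 703.0913 ≤ w0 ^ 2 - 2 * d0 - 2 * w0 := by
  have h1 := w1_ge
  have h2 := w0_le
  have h3 := w0_ge
  nlinarith

theorem Q_le : w0 ^ 2 - 2 * d0 ≤ 772.1006 := by
  have h1 := w1_le
  have h3 := w0_ge
  nlinarith

theorem Q_ge : 0 ≤ w0 ^ 2 - 2 * d0 := by
  have h1 := J_ge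
  have h3 := w0_ge
  nlinarith

/-- upper bound for every point of convergence -/
theorem Sm_le {t : ℝ} (h : Sm t) : t ≤ 1.433474 := by
  rcases le_or_gt t (7 / 5) with h1 | h1
  · exact h1.trans (by norm_num)
  · have hS := (h.sys (z₀ := 7 / 5) (by norm_num)).toSys
    have hJ := J_ge
    have hJ' : (0 : ℝ) < (ps ℝ (V 0)) (7 / 5) ^ 2 - 2 * (ps ℝ (D 1)) (7 / 5) -
        2 * (ps ℝ (V 0)) (7 / 5) := lt_of_lt_of_le (by norm_num) hJ
    have h2 := hS.time_le h1 hJ'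
    have h3 : 26.5158 ≤ Real.sqrt ((ps ℝ (V 0)) (7 / 5) ^ 2 - 2 * (ps ℝ (D 1)) (7 / 5) -
        2 * (ps ℝ (V 0)) (7 / 5)) := by
      apply Real.le_sqrt_of_sq_le
      refine le_trans ?_ hJ
      norm_num
    have h4 := w0_ge
    have h5 : (59.74956 : ℝ) ≤ ps ℝ (V 0) (7 / 5) + Real.sqrt ((ps ℝ (V 0)) (7 / 5) ^ 2 -
        2 * (ps ℝ (D 1)) (7 / 5) - 2 * (ps ℝ (V 0)) (7 / 5)) := by
      have : (33.23376 : ℝ) ≤ ps ℝ (V 0) (7 / 5) := h4
      linarith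
    have h6 : 2 / (ps ℝ (V 0) (7 / 5) + Real.sqrt ((ps ℝ (V 0)) (7 / 5) ^ 2 -
        2 * (ps ℝ (D 1)) (7 / 5) - 2 * (ps ℝ (V 0)) (7 / 5))) ≤ 2 / 59.74956 := by
      gcongr
    have h7 : (2 : ℝ) / 59.74956 ≤ 0.033474 := by norm_num
    linarith

/-- the radius of convergence -/
noncomputable def Rad : ℝ := sSup {t | Sm t}

theorem bddAbove_Sm : BddAbove {t | Sm t} := ⟨1.433474, fun _ h => Sm_le h⟩

theorem Rad_le : Rad ≤ 1.433474 := csSup_le ⟨_, Sm75⟩ (fun _ h => Sm_le h)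

theorem le_Rad {t : ℝ} (h : Sm t) : t ≤ Rad := le_csSup bddAbove_Sm h

theorem exists_Sm {z : ℝ} (h : z < Rad) : ∃ t, z < t ∧ Sm t := by
  obtain ⟨t, ht1, ht2⟩ := exists_lt_of_lt_csSup (s := {t | Sm t}) ⟨_, Sm75⟩ h
  exact ⟨t, ht2, ht1⟩

theorem Sm_of_lt_Rad {z : ℝ} (h0 : 0 ≤ z) (h : z < Rad) : Sm z := by
  obtain ⟨t, h1, h2⟩ := exists_Sm h
  exact h2.mono h0 h1.le

theorem sysR {z₀ : ℝ} (hz₀ : 0 ≤ z₀) :
    Sys2 (ps ℝ (V 0)) (ps ℝ (D 1)) (ps ℝ (D 2)) (ps ℝ (D 3)) (ps ℝ thc) z₀ Rad where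
  hw := fun z h1 h2 => by obtain ⟨t, h3, h4⟩ := exists_Sm h2; exact (h4.sys hz₀).hw z h1 h3
  hd := fun z h1 h2 => by obtain ⟨t, h3, h4⟩ := exists_Sm h2; exact (h4.sys hz₀).hd z h1 h3
  he := fun z h1 h2 => by obtain ⟨t, h3, h4⟩ := exists_Sm h2; exact (h4.sys hz₀).he z h1 h3
  hθ := fun z h1 h2 => by obtain ⟨t, h3, h4⟩ := exists_Sm h2; exact (h4.sys hz₀).hθ z h1 h3
  w_pos := fun z h1 h2 => by obtain ⟨t, h3, h4⟩ := exists_Sm h2; exact (h4.sys hz₀).w_pos z h1 h3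
  d_nn := fun z h1 h2 => by obtain ⟨t, h3, h4⟩ := exists_Sm h2; exact (h4.sys hz₀).d_nn z h1 h3
  e_nn := fun z h1 h2 => by obtain ⟨t, h3, h4⟩ := exists_Sm h2; exact (h4.sys hz₀).e_nn z h1 h3
  g_nn := fun z h1 h2 => by obtain ⟨t, h3, h4⟩ := exists_Sm h2; exact (h4.sys hz₀).g_nn z h1 h3
  de := fun z h1 h2 => by obtain ⟨t, h3, h4⟩ := exists_Sm h2; exact (h4.sys hz₀).de z h1 h3
  w_mono := fun z h1 h2 => by
    obtain ⟨t, h3, h4⟩ := exists_Sm h2; exact (h4.sys hz₀).w_mono z h1 h3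

/-- lower bound `w(z) ≥ 1/(R-z)` -/
theorem w_ge_inv {z : ℝ} (h0 : 0 ≤ z) (h : z < Rad) : 1 / (Rad - z) ≤ ps ℝ (V 0) z := by
  have hz := Sm_of_lt_Rad h0 h
  have hw := one_le_w hz h0 le_rfl
  by_contra hcon
  push Not at hcon
  have h1 : Rad < z + 1 / ps ℝ (V 0) z := by
    have h2 : 0 < Rad - z := by linarith
    rw [lt_div_iff₀ h2] at hcon
    have h3 : Rad - z < 1 / ps ℝ (V 0) z := by
      rw [lt_div_iff₀ (by linarith)]
      linarith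
    linarith
  obtain ⟨z', hz1, hz2⟩ := exists_between h1
  have h4 := hz.extend h0 le_rfl (by linarith : z ≤ z') hz2
  have h5 := le_Rad h4
  linarith

theorem Rad_ge : 1.4327735 ≤ Rad := by
  by_contra hcon
  push Not at hcon
  have h75 : (7 / 5 : ℝ) < Rad := lt_of_lt_of_le (by norm_num) (le_Rad Sm143)
  have hS := sysR (z₀ := 7 / 5) (by norm_num)
  have hw := w0_ge
  have hw' := w0_le
  have h1 := w1_le
  have h2 := w1_ge
  have h3 := v1_ge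
  have hQ := Q_le
  have hQ0 := Q_ge
  have hd1 : 165 ≤ d0 := by nlinarith
  have hd2 : d0 ≤ 168 := by nlinarith
  have he : e0 ≤ w0 ^ 2 := by nlinarith
  have hsq : Real.sqrt (w0 ^ 2 - 2 * d0) ≤ 27.7868 := by
    rw [Real.sqrt_le_left (by norm_num)]
    refine hQ.trans ?_
    norm_num
  have ht : Rad < 7 / 5 + 2 / (w0 + Real.sqrt (w0 ^ 2 - 2 * d0)) := by
    have h4 : (2 : ℝ) / 61.02475 ≤ 2 / (w0 + Real.sqrt (w0 ^ 2 - 2 * d0)) := by
      apply div_le_div_of_nonneg_left (by norm_num)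
      · have := Real.sqrt_nonneg (w0 ^ 2 - 2 * d0)
        linarith
      · linarith
    have h5 : (0.0327735 : ℝ) ≤ 2 / 61.02475 := by norm_num
    linarith
  obtain ⟨M, hM⟩ := hS.bounded (show (12 : ℝ) ≤ w0 by linarith) (show 0 < d0 by linarith)
    (show d0 ≤ 0.3 * w0 ^ 2 by nlinarith) he ht
  have hMpos : 0 < M := by
    have := hM (7 / 5) le_rfl h75
    have h6 : (33 : ℝ) ≤ ps ℝ (V 0) (7 / 5) := le_trans (by norm_num) hw
    linarith
  -- choose z close to Rad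
  set z := max (7 / 5) (Rad - 1 / (2 * M)) with hz
  have hz1 : 7 / 5 ≤ z := le_max_left _ _
  have hpos : 0 < 1 / (2 * M) := by positivity
  have hz2 : z < Rad := max_lt h75 (by linarith)
  have h7 := w_ge_inv (by linarith) hz2
  have h8 := hM z hz1 hz2
  have h9 : Rad - z ≤ 1 / (2 * M) := by
    have := le_max_right (7 / 5) (Rad - 1 / (2 * M))
    rw [← hz] at this
    linarith
  have h10 : 2 * M ≤ 1 / (Rad - z) := by
    rw [le_div_iff₀ (by linarith)]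
    calc 2 * M * (Rad - z) ≤ 2 * M * (1 / (2 * M)) := by gcongr
      _ = 1 := by field_simp
  linarith

end Pool.Agent.Sorted94
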