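import Pool.Agent.Sorted94.Machine

/-! Kernel evaluation of the interval recursion up to 400 and the resulting sums. -/

namespace Pool.Agent.Sorted94

open Finset

/-- indexed fold over a list stored newest first -/
def fold (g : ℕ → ℕ × ℕ → ℕ) (l : List (ℕ × ℕ)) : ℕ → ℕ → ℕ :=
  List.rec (motive := fun _ => ℕ → ℕ → ℕ) (fun _ acc => acc)
    (fun a _ ih idx acc => force (Nat.add acc (g idx a)) (fun s => ih (Nat.pred idx) s)) l

theorem fold_nil (g : ℕ → ℕ × ℕ → ℕ) (idx acc : ℕ) : fold g [] idx acc = acc := rfl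

theorem fold_cons (g : ℕ → ℕ × ℕ → ℕ) (a : ℕ × ℕ) (l : List (ℕ × ℕ)) (idx acc : ℕ) :
    fold g (a :: l) idx acc = fold g l (idx - 1) (acc + g idx a) := by
  have h : fold g (a :: l) idx acc =
    force (Nat.add acc (g idx a)) (fun s => fold g l (Nat.pred idx) s) := rfl
  rw [h, force_eq]
  rfl

theorem fold_eq (g : ℕ → ℕ × ℕ → ℕ) (f : ℕ → ℕ × ℕ) (n : ℕ) : ∀ acc : ℕ,
    fold g ((List.range (n + 1)).map f).reverse n acc =
      acc + ∑ i ∈ range (n + 1), g i (f i) := by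
  induction n with
  | zero =>
    intro acc
    simp [fold_cons, fold_nil]
  | succ n ih =>
    intro acc
    rw [List.range_succ, List.map_append, List.reverse_append]
    simp only [List.map_cons, List.map_nil, List.reverse_cons, List.reverse_nil, List.nil_append,
      List.singleton_append]
    rw [fold_cons, Nat.add_sub_cancel, ih, Finset.sum_range_succ _ (n + 1)]
    ring

/-- violation indicator for the bound `hi_i ≤ S z^i r^(i+1)` with `z = 7/5`, `r = 6982/10000` -/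
def gwin (i : ℕ) (a : ℕ × ℕ) : ℕ :=
  if i ≤ 150 then 0
  else if a.1 * 10 ^ (4 * i + 4) * 5 ^ i ≤ SS * 7 ^ i * 6982 ^ (i + 1) then 0 else 1

/-- rounded up value of `hi_i / (z^i r^(i+1))` for `1 ≤ i ≤ 150` -/
def gE (i : ℕ) (a : ℕ × ℕ) : ℕ :=
  if i = 0 then 0
  else if i ≤ 150 then (a.1 * 10 ^ (4 * i + 4) * 5 ^ i) / (7 ^ i * 6982 ^ (i + 1)) + 1 else 0

/-- entry -/
def g0 (_ : ℕ) (a : ℕ × ℕ) : ℕ := a.1
/-- index times entry -/
def g1 (i : ℕ) (a : ℕ × ℕ) : ℕ := i * a.1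
/-- index times level-one partial sum -/
def g2 (i : ℕ) (a : ℕ × ℕ) : ℕ := i * dg a.2 1

/-- all numerical facts about the state after 400 steps -/
def good (s : St) : Bool :=
  s.ok &&
  decide (fold gwin s.lH 400 0 = 0) &&
  decide (2 * 6982 * fold gE s.lH 400 0 + 10000 * SS ≤ 2 * 6982 * 151 * SS) &&
  decide (fold g0 s.lH 400 0 ≤ 33234600 * (SS / 1000000)) &&
  decide (33233760 * (SS / 1000000) ≤ fold g0 s.lL 400 0) &&
  decide (fold g1 s.lH 400 0 ≤ 1312120 * (SS / 1000)) &&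
  decide (1312030 * (SS / 1000) ≤ fold g1 s.lL 400 0) &&
  decide (9762700 * (SS / 1000) ≤ fold g2 s.lL 400 0)

set_option maxRecDepth 100000 in
theorem good_run : good (run 400) = true := by decide +kernel

/-- upper digit -/
def hh (i : ℕ) : ℕ := dg (run i).dH 0
/-- lower digit -/
def ll (i : ℕ) : ℕ := dg (run i).dL 0
/-- lower partial sum of level one -/
def l1 (i : ℕ) : ℕ := psum (run i).dL 1

theorem facts : (run 400).ok = true ∧
    (∑ i ∈ range 401, gwin i (fH i) = 0) ∧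
    (2 * 6982 * (∑ i ∈ range 401, gE i (fH i)) + 10000 * SS ≤ 2 * 6982 * 151 * SS) ∧
    (∑ i ∈ range 401, hh i ≤ 33234600 * (SS / 1000000)) ∧
    (33233760 * (SS / 1000000) ≤ ∑ i ∈ range 401, ll i) ∧
    (∑ i ∈ range 401, i * hh i ≤ 1312120 * (SS / 1000)) ∧
    (1312030 * (SS / 1000) ≤ ∑ i ∈ range 401, i * ll i) ∧
    (9762700 * (SS / 1000) ≤ ∑ i ∈ range 401, i * l1 i) := by
  have h := good_run
  unfold good at h
  simp only [Bool.and_eq_true, decide_eq_true_eq] at h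
  obtain ⟨⟨⟨⟨⟨⟨⟨h0, h1⟩, h2⟩, h3⟩, h4⟩, h5⟩, h6⟩, h7⟩ := h
  have hb := run_bound 400 h0
  have eH : ∀ g : ℕ → ℕ × ℕ → ℕ, fold g (run 400).lH 400 0 =
      ∑ i ∈ range 401, g i (fH i) := by
    intro g
    rw [run_lH 400, fold_eq, zero_add]
  have eL : ∀ g : ℕ → ℕ × ℕ → ℕ, fold g (run 400).lL 400 0 =
      ∑ i ∈ range 401, g i (fL i) := by
    intro g
    rw [run_lL 400, fold_eq, zero_add]
  rw [eH] at h1 h2 h3 h5
  rw [eL] at h4 h6 h7
  refine ⟨h0, h1, h2, h3, h4, h5, h6, h7.trans (le_of_eq ?_)⟩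
  refine Finset.sum_congr rfl (fun i hi => ?_)
  rw [Finset.mem_range] at hi
  have hbi := (hb i (by omega)).2
  simp only [g2, fL, l1]
  rw [dg_packf _ 11 (fun k hk => ?_) 1 (by omega)]
  refine ((psum_mono _ (by omega)).trans_lt hbi).trans ?_
  unfold BB
  norm_num

end Pool.Agent.Sorted94
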