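import Pool.Agent.Sorted94.Series

/-! Deleting the first letter of a sorted word. -/

namespace Pool.Agent.Sorted94

open T Finset

theorem tail_good (t : T) : Good t → t ≠ nil →
    ∃ x t', Good t' ∧ x ∉ lab t' ∧ lab t = insert x (lab t') ∧ post t = x :: post t' := by
  induction t with
  | nil => intro _ h; exact absurd rfl h
  | node l x r ihl ihr =>
    intro hg _
    have hg' := hg
    obtain ⟨h1, h2, h3, h4, h5, h6⟩ := hg'
    by_cases hl : l = nil
    · subst hl
      by_cases hr : r = nil
      · subst hr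
        exact ⟨x, nil, trivial, by simp, by simp, by simp⟩
      · obtain ⟨y, r', e1, e2, e3, e4⟩ := ihr h2 hr
        have hyr : y ∈ lab r := by rw [e3]; simp
        refine ⟨y, node nil x r', ⟨trivial, e1, by simp, by simp, ?_, by simp⟩, ?_, ?_, ?_⟩
        · intro c hc
          exact h5 c (by rw [e3]; exact Finset.mem_insert_of_mem hc)
        · simp only [lab_node, lab_nil, Finset.empty_union, Finset.mem_insert, not_or]
          exact ⟨(h5 y hyr).ne, e2⟩
        · simp only [lab_node, lab_nil, Finset.empty_union, e3]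
          rw [Finset.insert_comm]
        · simp [e4]
    · obtain ⟨y, l', e1, e2, e3, e4⟩ := ihl h1 hl
      have hyl : y ∈ lab l := by rw [e3]; simp
      have hsub : lab l' ⊆ lab l := by rw [e3]; exact Finset.subset_insert _ _
      obtain ⟨c, c1, c2, c3⟩ := exists_join l' r x e1 h2 (h3.mono_left hsub)
        (fun a ha => h4 a (hsub ha)) h5
      refine ⟨y, c, c1, ?_, ?_, ?_⟩
      · rw [c2]
        simp only [Finset.mem_insert, Finset.mem_union, not_or]
        exact ⟨(h4 y hyl).ne, e2, fun h => (Finset.disjoint_left.mp h3 hyl) h⟩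
      · rw [c2, lab_node, e3, Finset.insert_union, Finset.insert_comm]
      · rw [c3]; simp [e4]

theorem cnt_one_succ_le (n : ℕ) : cnt 1 (n + 1) ≤ (n + 1) * cnt 1 n := by
  classical
  have h1 : cnt 1 (n + 1) = (gF (range (n + 1))).card := card_vF_one _
  have h2 : ∀ x ∈ range (n + 1), (gF ((range (n + 1)).erase x)).card = cnt 1 n := by
    intro x hx
    rw [← card_vF_one, card_vF_cnt, Finset.card_erase_of_mem hx, Finset.card_range]
    rfl
  have key : ∀ t ∈ gF (range (n + 1)), ∃ p : (_ : ℕ) × T,
      p ∈ (range (n + 1)).sigma (fun x => gF ((range (n + 1)).erase x)) ∧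
        post t = p.1 :: post p.2 := by
    intro t ht
    rw [mem_gF] at ht
    have hne : t ≠ nil := by
      rintro rfl
      have h0 : 0 ∈ range (n + 1) := by simp
      rw [← ht.2] at h0
      simp at h0
    obtain ⟨x, t', e1, e2, e3, e4⟩ := tail_good t ht.1 hne
    refine ⟨⟨x, t'⟩, ?_, e4⟩
    rw [Finset.mem_sigma, mem_gF]
    refine ⟨?_, e1, ?_⟩
    · rw [← ht.2, e3]; simp
    · rw [← ht.2, e3, Finset.erase_insert e2]
  choose! F hF using key
  have h3 : (gF (range (n + 1))).card ≤
      ((range (n + 1)).sigma (fun x => gF ((range (n + 1)).erase x))).card := by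
    refine Finset.card_le_card_of_injOn F (fun t ht => (hF t ht).1) ?_
    intro t ht t' ht' he
    have h4 := (hF t ht).2
    have h5 := (hF t' ht').2
    rw [he, ← h5] at h4
    rw [Finset.mem_coe, mem_gF] at ht ht'
    exact post_inj ht.1 ht'.1 h4
  rw [h1]
  refine h3.trans ?_
  rw [Finset.card_sigma, Finset.sum_congr rfl h2]
  simp

theorem V_zero_succ_le (n : ℕ) : V 0 (n + 1) ≤ V 0 n := by
  have h1 := cnt_one_succ_le n
  unfold V
  rw [Nat.factorial_succ]
  have h2 : (cnt (0 + 1) (n + 1) : ℝ) ≤ ((n : ℝ) + 1) * (cnt (0 + 1) n : ℝ) := by exact_mod_cast h1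
  have h3 : (0 : ℝ) < (n.factorial : ℝ) := by positivity
  push_cast
  rw [div_le_div_iff₀ (by positivity) h3]
  nlinarith

end Pool.Agent.Sorted94
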