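import Pool.Agent.Sorted94.Near
import Pool.Agent.Sorted94.Tail

/-! Non-vanishing on the circle of convergence. -/

namespace Pool.Agent.Sorted94

open Set Finset

theorem thc_succ_le (n : ℕ) : thc (n + 2) ≤ thc (n + 1) := by
  simp only [thc]
  have h1 := V_zero_succ_le n
  have h2 := V_nonneg 0 (n + 1)
  have h3 := V_nonneg 0 n
  push_cast
  rw [div_le_div_iff₀ (by positivity) (by positivity)]
  have : (0 : ℝ) ≤ n := by positivity
  nlinarith

theorem one_lt_Rad : 1 < Rad := by have := Rad_ge; linarith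

theorem norm_one_sub_sq (u : ℂ) (hu : ‖u‖ = 1) : ‖1 - u‖ ^ 2 = 2 * (1 - u.re) := by
  have h1 : ‖1 - u‖ ^ 2 = (1 - u.re) ^ 2 + u.im ^ 2 := by
    rw [← Complex.normSq_eq_norm_sq, Complex.normSq_apply]
    simp
    ring
  have h2 : u.re ^ 2 + u.im ^ 2 = 1 := by
    have := Complex.normSq_eq_norm_sq u
    rw [Complex.normSq_apply, hu] at this
    nlinarith
  rw [h1]
  nlinarith

theorem pair_ge (u : ℂ) (hu : ‖u‖ = 1) (n : ℕ) :
    ‖1 - u‖ ^ 2 / 4 ≤ (1 - (u ^ n).re) + (1 - (u ^ (n + 1)).re) := by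
  have hn : ∀ n, ‖u ^ n‖ = 1 := fun n => by rw [norm_pow, hu, one_pow]
  have h1 := norm_one_sub_sq (u ^ n) (hn n)
  have h2 := norm_one_sub_sq (u ^ (n + 1)) (hn (n + 1))
  have h3 : ‖1 - u‖ = ‖(1 - u ^ (n + 1)) - (1 - u ^ n)‖ := by
    have : (1 - u ^ (n + 1)) - (1 - u ^ n) = u ^ n * (1 - u) := by ring
    rw [this, norm_mul, hn n, one_mul]
  have h4 := norm_sub_le (1 - u ^ (n + 1)) (1 - u ^ n)
  rw [← h3] at h4
  have h5 := norm_nonneg (1 - u)
  have h6 := norm_nonneg (1 - u ^ (n + 1))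
  have h7 := norm_nonneg (1 - u ^ n)
  nlinarith [sq_nonneg (‖1 - u ^ (n + 1)‖ - ‖1 - u ^ n‖)]

theorem re_th_le {u : ℂ} (hu : ‖u‖ = 1) {r : ℝ} (h0 : 0 ≤ r) (h : r < Rad) :
    (ps ℂ thc ((r : ℂ) * u)).re ≤
      ps ℝ thc r - (‖1 - u‖ ^ 2 / 4 / (2 * Rad)) * (ps ℝ thc r - Rad) := by
  have hR := Rad_pos
  have hR1 := one_lt_Rad
  have hS := Sm_of_lt_Rad h0 h
  have hru : ‖(r : ℂ) * u‖ = r := by
    rw [norm_mul, hu, mul_one, Complex.norm_real, Real.norm_of_nonneg h0]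
  set b : ℕ → ℝ := fun n => thc n * r ^ n with hb
  have hb0 : ∀ n, 0 ≤ b n := fun n => mul_nonneg (thc_nonneg n) (pow_nonneg h0 n)
  have hbs : Summable b := by
    refine hS.sth.congr (fun n => ?_)
    rw [abs_of_nonneg (thc_nonneg n)]
  set g : ℕ → ℝ := fun n => 1 - (u ^ n).re with hg
  have hg0 : ∀ n, 0 ≤ g n := by
    intro n
    have h1 : (u ^ n).re ≤ ‖u ^ n‖ := Complex.re_le_norm _
    rw [norm_pow, hu, one_pow] at h1
    simp only [hg]; linarith
  have hg2 : ∀ n, g n ≤ 2 := by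
    intro n
    have h1 : |(u ^ n).re| ≤ ‖u ^ n‖ := Complex.abs_re_le_norm _
    rw [norm_pow, hu, one_pow, abs_le] at h1
    simp only [hg]; linarith [h1.1]
  have hbgs : Summable fun n => b n * g n := by
    refine Summable.of_nonneg_of_le (fun n => mul_nonneg (hb0 n) (hg0 n)) (fun n => ?_)
      (hbs.mul_right 2)
    exact mul_le_mul_of_nonneg_left (hg2 n) (hb0 n)
  have hsum := summable_ps (𝕜 := ℂ) hS.sth ((r : ℂ) * u) hru.le
  have hre : (ps ℂ thc ((r : ℂ) * u)).re = ∑' n, b n * (u ^ n).re := by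
    unfold ps
    rw [Complex.re_tsum hsum]
    refine tsum_congr (fun n => ?_)
    rw [mul_pow]
    have e1 : (((thc n : ℝ) : ℂ) * ((r : ℂ) ^ n * u ^ n)) = ((b n : ℝ) : ℂ) * u ^ n := by
      rw [hb]; push_cast; ring
    rw [show ((RCLike.ofReal (thc n) : ℂ)) = ((thc n : ℝ) : ℂ) from rfl, e1, Complex.re_ofReal_mul]
  have hdiff : ps ℝ thc r - (ps ℂ thc ((r : ℂ) * u)).re = ∑' n, b n * g n := by
    have e1 : ps ℝ thc r = ∑' n, b n := rfl
    have hbr : Summable fun n => b n * (u ^ n).re := by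
      refine (hbs.sub hbgs).congr (fun n => ?_)
      simp only [hg]; ring
    rw [e1, hre, ← hbs.tsum_sub hbr]
    refine tsum_congr (fun n => ?_)
    simp only [hg]; ring
  set μ := ‖1 - u‖ ^ 2 / 4 with hμ
  have hμ0 : 0 ≤ μ := by positivity
  -- pairing
  have hpair : ∀ n, μ / Rad * b (n + 2) ≤ b (n + 1) * g (n + 1) + b (n + 2) * g (n + 2) := by
    intro n
    have h1 : b (n + 2) ≤ Rad * b (n + 1) := by
      simp only [hb]
      have h2 := thc_succ_le n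
      have h3 : r ^ (n + 2) = r * r ^ (n + 1) := by ring
      rw [h3]
      have h4 : 0 ≤ r ^ (n + 1) := pow_nonneg h0 _
      have h5 := thc_nonneg (n + 2)
      calc thc (n + 2) * (r * r ^ (n + 1)) = r * (thc (n + 2) * r ^ (n + 1)) := by ring
        _ ≤ Rad * (thc (n + 1) * r ^ (n + 1)) := by
            apply mul_le_mul h.le _ (mul_nonneg h5 h4) hR.le
            exact mul_le_mul_of_nonneg_right h2 h4
    have h2 : b (n + 2) / Rad ≤ b (n + 1) := by
      rw [div_le_iff₀ hR]; linarith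
    have h3 : b (n + 2) / Rad ≤ b (n + 2) := div_le_self (hb0 _) hR1.le
    have h4 : μ ≤ g (n + 1) + g (n + 2) := pair_ge u hu (n + 1)
    have h5 : 0 ≤ b (n + 2) / Rad := div_nonneg (hb0 _) hR.le
    calc μ / Rad * b (n + 2) = (b (n + 2) / Rad) * μ := by ring
      _ ≤ (b (n + 2) / Rad) * (g (n + 1) + g (n + 2)) := mul_le_mul_of_nonneg_left h4 h5
      _ = (b (n + 2) / Rad) * g (n + 1) + (b (n + 2) / Rad) * g (n + 2) := by ring
      _ ≤ b (n + 1) * g (n + 1) + b (n + 2) * g (n + 2) :=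
          add_le_add (mul_le_mul_of_nonneg_right h2 (hg0 _))
            (mul_le_mul_of_nonneg_right h3 (hg0 _))
  have hs1 : Summable fun n => b (n + 1) * g (n + 1) := (summable_nat_add_iff 1).mpr hbgs
  have hs2 : Summable fun n => b (n + 2) * g (n + 2) := (summable_nat_add_iff 2).mpr hbgs
  have hs3 : Summable fun n => b (n + 2) := (summable_nat_add_iff 2).mpr hbs
  have h1 : μ / Rad * ∑' n, b (n + 2) ≤ ∑' n, (b (n + 1) * g (n + 1)) +
      ∑' n, (b (n + 2) * g (n + 2)) := by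
    rw [← tsum_mul_left, ← hs1.tsum_add hs2]
    exact (hs3.mul_left _).tsum_le_tsum hpair (hs1.add hs2)
  have h2 : ∑' n, (b (n + 1) * g (n + 1)) ≤ ∑' n, b n * g n := by
    have := hbgs.sum_add_tsum_nat_add 1
    simp only [Finset.sum_range_one] at this
    have h3 := mul_nonneg (hb0 0) (hg0 0)
    linarith
  have h3 : ∑' n, (b (n + 2) * g (n + 2)) ≤ ∑' n, b n * g n := by
    have := hbgs.sum_add_tsum_nat_add 2
    have h4 : 0 ≤ ∑ i ∈ range 2, b i * g i := Finset.sum_nonneg (fun i _ => mul_nonneg (hb0 i) (hg0 i))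
    linarith
  have h4 : ps ℝ thc r - Rad ≤ ∑' n, b (n + 2) := by
    have := hbs.sum_add_tsum_nat_add 2
    have e1 : ps ℝ thc r = ∑' n, b n := rfl
    have e2 : ∑ i ∈ range 2, b i ≤ Rad := by
      rw [Finset.sum_range_succ, Finset.sum_range_one]
      simp only [hb, thc, V_k_zero]
      simp
      exact h.le
    rw [e1]
    linarith
  have h5 : μ / Rad * (ps ℝ thc r - Rad) ≤ 2 * ∑' n, b n * g n := by
    have : μ / Rad * (ps ℝ thc r - Rad) ≤ μ / Rad * ∑' n, b (n + 2) :=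
      mul_le_mul_of_nonneg_left h4 (by positivity)
    linarith
  rw [← hdiff] at h5
  have e3 : μ / (2 * Rad) * (ps ℝ thc r - Rad) = (μ / Rad * (ps ℝ thc r - Rad)) / 2 := by
    field_simp
  rw [e3]
  linarith

theorem Y_sub_le {ζ : ℂ} (hζ : ‖ζ‖ = Rad) {t : ℝ} (ht0 : 0 ≤ t) (ht1 : t ≤ 1) :
    ‖ps ℂ (uy (-1)) ζ - ps ℂ (uy (-1)) ((t : ℂ) * ζ)‖ ≤
      ps ℝ (uy 1) Rad - ps ℝ (uy 1) (t * Rad) := by
  have hR := Rad_pos
  have htR : t * Rad ≤ Rad := by nlinarith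
  have htR0 : 0 ≤ t * Rad := by positivity
  have hs1 := summable_ps (𝕜 := ℂ) summable_uy' ζ hζ.le
  have hs2 := summable_ps (𝕜 := ℂ) summable_uy' ((t : ℂ) * ζ)
    (by rw [norm_mul, hζ, Complex.norm_real, Real.norm_of_nonneg ht0]; exact htR)
  have hU1 := summable_uy
  have hU2 := summable_uy1t htR0 htR
  have eU : ps ℝ (uy 1) Rad - ps ℝ (uy 1) (t * Rad) =
      ∑' n, (uy 1 n * Rad ^ n - uy 1 n * (t * Rad) ^ n) := by
    rw [hU1.tsum_sub hU2]; rfl
  rw [eU]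
  unfold ps
  rw [← hs1.tsum_sub hs2]
  refine tsum_of_norm_bounded (hU1.sub hU2).hasSum (fun n => ?_)
  have e1 : ((uy (-1) n : ℝ) : ℂ) * ζ ^ n - ((uy (-1) n : ℝ) : ℂ) * ((t : ℂ) * ζ) ^ n =
      ((uy (-1) n : ℝ) : ℂ) * (ζ ^ n * ((1 - t ^ n : ℝ) : ℂ)) := by
    push_cast; rw [mul_pow]; ring
  have h1 : 0 ≤ 1 - t ^ n := by
    have := pow_le_one₀ (n := n) ht0 ht1
    linarith
  have e2 : uy 1 n * Rad ^ n - uy 1 n * (t * Rad) ^ n = uy 1 n * (Rad ^ n * (1 - t ^ n)) := by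
    rw [mul_pow]; ring
  have e3 : (RCLike.ofReal (uy (-1) n) : ℂ) = ((uy (-1) n : ℝ) : ℂ) := rfl
  rw [e3, e1]
  change _ ≤ uy 1 n * Rad ^ n - uy 1 n * (t * Rad) ^ n
  rw [e2, norm_mul, norm_mul, norm_pow, hζ, Complex.norm_real, Complex.norm_real,
    Real.norm_of_nonneg h1, Real.norm_eq_abs]
  exact mul_le_mul_of_nonneg_right (uy_abs_le n) (mul_nonneg (pow_nonneg hR.le n) h1)

open Filter Topology in
theorem Y_circle_ne {ζ : ℂ} (hζ : ‖ζ‖ = Rad) (hne : ζ ≠ (Rad : ℂ)) : ps ℂ (uy (-1)) ζ ≠ 0 := by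
  intro hzero
  have hR := Rad_pos
  have hR1 := one_lt_Rad
  have hq := qs_pos
  have hRc : (Rad : ℂ) ≠ 0 := by exact_mod_cast hR.ne'
  set u : ℂ := ζ / (Rad : ℂ) with hu
  have hun : ‖u‖ = 1 := by
    rw [hu, norm_div, hζ, Complex.norm_real, Real.norm_of_nonneg hR.le, div_self hR.ne']
  have hζu : ζ = (Rad : ℂ) * u := by rw [hu]; field_simp
  have hu1 : 0 < ‖1 - u‖ := by
    rw [norm_pos_iff, sub_ne_zero]
    intro h
    rw [hζu, ← h, mul_one] at hne
    exact hne rfl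
  have hu2 : ‖1 - u‖ ≤ 2 := by
    refine (norm_sub_le _ _).trans ?_
    rw [hun, norm_one]; norm_num
  set μ := ‖1 - u‖ ^ 2 / 4 with hμ
  have hμ0 : 0 < μ := by positivity
  have hμ1 : μ ≤ 1 := by rw [hμ]; nlinarith
  set c := μ / (2 * Rad) with hc
  have hc0 : 0 < c := by positivity
  have hc1 : c < 1 := by
    rw [hc, div_lt_one (by positivity)]; linarith
  obtain ⟨C, hC, hU⟩ := U_diff_le (ε := c / 2) (by positivity) (by linarith)
  have key : ∀ h : ℝ, 0 < h → h < Rad →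
      Real.exp (-(c * Rad)) * qs ^ (1 - c) ≤ C * h ^ (c / 2) := by
    intro h h0 h1
    set r := Rad - h with hr
    have hr0 : 0 ≤ r := by rw [hr]; linarith
    have hr1 : r < Rad := by rw [hr]; linarith
    have h2 := re_th_le hun hr0 hr1
    rw [← hμ, ← hc] at h2
    have hru : ‖(r : ℂ) * u‖ < Rad := by
      rw [norm_mul, hun, mul_one, Complex.norm_real, Real.norm_of_nonneg hr0]; exact hr1
    have h3 : ‖ps ℂ (uy (-1)) ((r : ℂ) * u)‖ = Real.exp (-(ps ℂ thc ((r : ℂ) * u)).re) := by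
      rw [(Y_eq_exp hru).1, Complex.norm_exp]
      simp
    have h4 : Real.exp (-(c * Rad)) * yr r ^ (1 - c) ≤ ‖ps ℂ (uy (-1)) ((r : ℂ) * u)‖ := by
      rw [h3]
      have e1 : yr r ^ (1 - c) = Real.exp (-(ps ℝ thc r) * (1 - c)) := by
        unfold yr; rw [Real.exp_mul]
      rw [e1, ← Real.exp_add]
      apply Real.exp_le_exp.mpr
      nlinarith
    have h5 : qs ^ (1 - c) * h ^ (1 - c) ≤ yr r ^ (1 - c) := by
      rw [← Real.mul_rpow hq.le h0.le]
      apply Real.rpow_le_rpow (by positivity) _ (by linarith)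
      have := yr_ge hr0 hr1
      rw [hr, sub_sub_cancel] at this
      exact this
    have h6 := Y_sub_le hζ (t := r / Rad) (by positivity) (by rw [div_le_one hR]; exact hr1.le)
    have e2 : (((r / Rad : ℝ)) : ℂ) * ζ = (r : ℂ) * u := by
      rw [hζu]; push_cast; field_simp
    have e3 : r / Rad * Rad = r := by field_simp
    rw [hzero, e2, e3, zero_sub, norm_neg] at h6
    have h7 := hU r hr0 hr1
    have e4 : Rad - r = h := by rw [hr]; ring
    rw [e4] at h7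
    have h8 : Real.exp (-(c * Rad)) * (qs ^ (1 - c) * h ^ (1 - c)) ≤ C * h ^ (1 - c / 2) :=
      (mul_le_mul_of_nonneg_left h5 (Real.exp_pos _).le).trans (h4.trans (h6.trans h7))
    have e5 : h ^ (1 - c / 2) = h ^ (c / 2) * h ^ (1 - c) := by
      rw [← Real.rpow_add h0]; congr 1; ring
    rw [e5] at h8
    have h9 : 0 < h ^ (1 - c) := Real.rpow_pos_of_pos h0 _
    have h10 : (Real.exp (-(c * Rad)) * qs ^ (1 - c)) * h ^ (1 - c) ≤
        (C * h ^ (c / 2)) * h ^ (1 - c) := by linarith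
    exact le_of_mul_le_mul_right h10 h9
  have h1 : Tendsto (fun h : ℝ => C * h ^ (c / 2)) (𝓝[>] 0) (𝓝 (C * 0)) := by
    refine Tendsto.const_mul C ?_
    have h2 := (Real.continuousAt_rpow_const 0 (c / 2) (Or.inr (by positivity))).tendsto
    rw [Real.zero_rpow (by positivity)] at h2
    exact h2.mono_left nhdsWithin_le_nhds
  have h2 : Real.exp (-(c * Rad)) * qs ^ (1 - c) ≤ C * 0 := by
    refine ge_of_tendsto h1 ?_
    filter_upwards [Ioo_mem_nhdsGT hR] with h hh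
    exact key h hh.1 hh.2
  have h3 : 0 < Real.exp (-(c * Rad)) * qs ^ (1 - c) := by positivity
  linarith

/-- global lower bound for `f` -/
theorem fc_lower : ∃ c : ℝ, 0 < c ∧ ∀ z : ℂ, ‖z‖ < Rad → c ≤ ‖fc z‖ := by
  have hR := Rad_pos
  have hq := qs_pos
  obtain ⟨δ₀, hδ₀, hnear⟩ := fc_near
  set K : Set ℂ := Metric.closedBall 0 Rad ∩ {z | δ₀ ≤ ‖(Rad : ℂ) - z‖} with hK
  have hKc : IsCompact K :=
    (isCompact_closedBall 0 Rad).inter_right (isClosed_le continuous_const (by fun_prop))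
  have hcont : ContinuousOn (fun z => ‖ps ℂ (uy (-1)) z‖) K :=
    ((continuousOn_ps (𝕜 := ℂ) summable_uy').mono inter_subset_left).norm
  have hne : ∀ z ∈ K, ps ℂ (uy (-1)) z ≠ 0 := by
    intro z hz
    have h1 : ‖z‖ ≤ Rad := by simpa using hz.1
    rcases lt_or_eq_of_le h1 with h2 | h2
    · exact Y_ne_zero h2
    · refine Y_circle_ne h2 ?_
      rintro rfl
      have := hz.2
      have h3 : δ₀ ≤ ‖(Rad : ℂ) - (Rad : ℂ)‖ := this
      rw [sub_self, norm_zero] at h3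
      linarith
  rcases K.eq_empty_or_nonempty with hemp | hnon
  · refine ⟨qs / 2, by positivity, ?_⟩
    intro z hz
    by_cases h1 : ‖(Rad : ℂ) - z‖ < δ₀
    · exact hnear z hz h1
    · exfalso
      push Not at h1
      have : z ∈ K := ⟨by simpa using hz.le, h1⟩
      rw [hemp] at this
      exact this
  · obtain ⟨z₀, hz₀, hmin⟩ := hKc.exists_isMinOn hnon hcont
    have hm : 0 < ‖ps ℂ (uy (-1)) z₀‖ := norm_pos_iff.mpr (hne z₀ hz₀)
    refine ⟨min (qs / 2) (‖ps ℂ (uy (-1)) z₀‖ / (2 * Rad)), lt_min (by positivity)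
      (by positivity), ?_⟩
    intro z hz
    by_cases h1 : ‖(Rad : ℂ) - z‖ < δ₀
    · exact (min_le_left _ _).trans (hnear z hz h1)
    · push Not at h1
      have hzK : z ∈ K := ⟨by simpa using hz.le, h1⟩
      refine (min_le_right _ _).trans ?_
      have h2 : ‖ps ℂ (uy (-1)) z₀‖ ≤ ‖ps ℂ (uy (-1)) z‖ := hmin hzK
      have h3 : 0 < ‖(Rad : ℂ) - z‖ := lt_of_lt_of_le hδ₀ h1
      have h4 : ‖(Rad : ℂ) - z‖ ≤ 2 * Rad := by
        refine (norm_sub_le _ _).trans ?_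
        rw [Complex.norm_real, Real.norm_of_nonneg hR.le]; linarith
      unfold fc
      rw [norm_div]
      exact div_le_div₀ (norm_nonneg _) h2 h3 h4

/-- the error term of `w` against the pole -/
theorem G_bound : ∃ C : ℝ, 0 < C ∧ ∀ z : ℂ, ‖z‖ < Rad →
    ‖ps ℂ (V 0) z - ((Rad : ℂ) - z)⁻¹‖ ≤ C * (Rad - ‖z‖) ^ (-(1 / 4) : ℝ) := by
  obtain ⟨c, hc, hf⟩ := fc_lower
  obtain ⟨C, hC, hN⟩ := Nc_bound
  refine ⟨C / c, by positivity, ?_⟩
  intro z hz
  have h1 := Rad_sub_ne hz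
  have h2 := Y_ne_zero hz
  have h3 : ps ℂ (V 0) z - ((Rad : ℂ) - z)⁻¹ = -(Nc z) / (fc z * ((Rad : ℂ) - z) ^ 2) := by
    unfold Nc fc qc
    field_simp
    ring
  have h4 : 0 < ‖(Rad : ℂ) - z‖ := norm_pos_iff.mpr h1
  have h5 := hf z hz
  have h6 := hN z hz
  have h7 : 0 < ‖fc z‖ := lt_of_lt_of_le hc h5
  rw [h3, norm_div, norm_neg, norm_mul, norm_pow, div_le_iff₀ (by positivity)]
  have h8 : 0 ≤ (Rad - ‖z‖) ^ (-(1 / 4) : ℝ) := by
    apply Real.rpow_nonneg; linarith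
  calc ‖Nc z‖ ≤ C * ‖(Rad : ℂ) - z‖ ^ 2 * (Rad - ‖z‖) ^ (-(1 / 4) : ℝ) := h6
    _ = C / c * (Rad - ‖z‖) ^ (-(1 / 4) : ℝ) * (c * ‖(Rad : ℂ) - z‖ ^ 2) := by field_simp
    _ ≤ _ := by gcongr

end Pool.Agent.Sorted94
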