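import Pool.Agent.Sorted94.Unique

/-! Counting nested lists of canonical trees. -/

namespace Pool.Agent.Sorted94

open T

theorem good_nodup (t : T) (h : Good t) : (post t).Nodup := by
  induction t with
  | nil => simp
  | node l x r ihl ihr =>
    obtain ⟨h1, h2, h3, h4, h5, h6⟩ := h
    rw [post_node, List.nodup_append, List.nodup_append]
    refine ⟨⟨ihl h1, ihr h2, ?_⟩, by simp, ?_⟩
    · intro a ha b hb
      rw [mem_post] at ha hb
      rintro rfl
      exact Finset.disjoint_left.mp h3 ha hb
    · intro a ha b hb
      rw [List.mem_singleton] at hb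
      subst hb
      rw [List.mem_append, mem_post, mem_post] at ha
      rcases ha with ha | ha
      · exact (h4 a ha).ne
      · exact (h5 a ha).ne

theorem post_toFinset (t : T) : (post t).toFinset = lab t := by
  ext a
  rw [List.mem_toFinset, mem_post]

theorem finite_words (A : Finset ℕ) : {l : List ℕ | l.Nodup ∧ l.toFinset = A}.Finite := by
  refine (A.toList.permutations.toFinset.finite_toSet).subset ?_
  rintro l ⟨h1, h2⟩
  simp only [List.coe_toFinset, List.mem_permutations, Set.mem_ofPred_eq]
  rw [List.perm_ext_iff_of_nodup h1 (Finset.nodup_toList A)]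
  intro a
  rw [Finset.mem_toList, ← h2, List.mem_toFinset]

theorem finite_good (A : Finset ℕ) : {t : T | Good t ∧ lab t = A}.Finite := by
  refine Set.Finite.of_finite_image (f := post) ((finite_words A).subset ?_) ?_
  · rintro _ ⟨t, ⟨h1, h2⟩, rfl⟩
    exact ⟨good_nodup t h1, by rw [post_toFinset, h2]⟩
  · rintro t ⟨h1, _⟩ t' ⟨h1', _⟩ h
    exact post_inj h1 h1' h

/-- union of label sets -/
def labs : List T → Finset ℕ
  | [] => ∅
  | b :: L => lab b ∪ labs L

@[simp] theorem labs_nil : labs [] = ∅ := rfl
@[simp] theorem labs_cons (b L) : labs (b :: L) = lab b ∪ labs L := rfl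

/-- nested lists of canonical trees: all labels of later trees lie below `mu` of a tree -/
def OkL : List T → Prop
  | [] => True
  | b :: L => Good b ∧ OkL L ∧ Disjoint (lab b) (labs L) ∧
      ∀ a ∈ labs L, ((a : ℕ) : WithTop ℕ) < mu b

/-- nested lists of length `m` with label set `A` -/
def VS (m : ℕ) (A : Finset ℕ) : Set (List T) := {L | L.length = m ∧ OkL L ∧ labs L = A}

theorem finite_VS (m : ℕ) : ∀ A : Finset ℕ, (VS m A).Finite := by
  induction m with
  | zero =>
    intro A
    refine (Set.finite_singleton ([] : List T)).subset ?_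
    rintro L ⟨h1, _⟩
    exact List.length_eq_zero_iff.mp h1
  | succ m ih =>
    intro A
    have h1 : (⋃ I ∈ (A.powerset : Finset (Finset ℕ)), {t : T | Good t ∧ lab t = I}).Finite :=
      Set.Finite.biUnion (Finset.finite_toSet _) (fun I _ => finite_good I)
    have h2 : (⋃ I ∈ (A.powerset : Finset (Finset ℕ)), VS m I).Finite :=
      Set.Finite.biUnion (Finset.finite_toSet _) (fun I _ => ih I)
    refine (Set.Finite.image2 (fun (b : T) (L : List T) => b :: L) h1 h2).subset ?_
    rintro L ⟨hL1, hL2, hL3⟩
    cases L with
    | nil => simp at hL1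
    | cons b L =>
      obtain ⟨hb, hL, _, _⟩ := hL2
      refine ⟨b, ?_, L, ?_, rfl⟩
      · simp only [Set.mem_iUnion]
        refine ⟨lab b, ?_, hb, rfl⟩
        rw [Finset.mem_powerset, ← hL3]
        exact Finset.subset_union_left
      · simp only [Set.mem_iUnion]
        refine ⟨labs L, ?_, ?_, hL, rfl⟩
        · rw [Finset.mem_powerset, ← hL3]
          exact Finset.subset_union_right
        · simpa using hL1

/-- finset version -/
noncomputable def vF (m : ℕ) (A : Finset ℕ) : Finset (List T) := (finite_VS m A).toFinset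

/-- canonical trees on a label set -/
noncomputable def gF (A : Finset ℕ) : Finset T := (finite_good A).toFinset

theorem mem_vF (m : ℕ) (A : Finset ℕ) (L : List T) :
    L ∈ vF m A ↔ L.length = m ∧ OkL L ∧ labs L = A := by
  rw [vF, Set.Finite.mem_toFinset]; rfl

theorem mem_gF (A : Finset ℕ) (t : T) : t ∈ gF A ↔ Good t ∧ lab t = A := by
  rw [gF, Set.Finite.mem_toFinset]; rfl

theorem card_vF_one (A : Finset ℕ) : (vF 1 A).card = (gF A).card := by
  symm
  refine Finset.card_bij (fun t _ => [t]) ?_ ?_ ?_
  · intro t ht
    rw [mem_gF] at ht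
    rw [mem_vF]
    refine ⟨rfl, ⟨ht.1, trivial, by simp, by simp⟩, by simp [ht.2]⟩
  · intro t _ t' _ h
    simpa using h
  · intro L hL
    rw [mem_vF] at hL
    obtain ⟨h1, h2, h3⟩ := hL
    rw [List.length_eq_one_iff] at h1
    obtain ⟨b, rfl⟩ := h1
    refine ⟨b, ?_, rfl⟩
    rw [mem_gF]
    exact ⟨h2.1, by simpa using h3⟩

theorem card_vF_zero_empty : (vF 0 ∅).card = 1 := by
  rw [Finset.card_eq_one]
  refine ⟨[], ?_⟩
  ext L
  rw [mem_vF, Finset.mem_singleton]
  constructor
  · rintro ⟨h, _⟩
    exact List.length_eq_zero_iff.mp h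
  · rintro rfl
    exact ⟨rfl, trivial, rfl⟩

theorem card_vF_zero_of_nonempty (A : Finset ℕ) (hA : A.Nonempty) : (vF 0 A).card = 0 := by
  rw [Finset.card_eq_zero, Finset.eq_empty_iff_forall_notMem]
  intro L hL
  rw [mem_vF] at hL
  obtain ⟨h1, _, h3⟩ := hL
  rw [List.length_eq_zero_iff] at h1
  subst h1
  rw [labs_nil] at h3
  rw [← h3] at hA
  exact Finset.not_nonempty_empty hA

theorem labs_eq_empty (L : List T) (h : labs L = ∅) : L = List.replicate L.length nil := by
  induction L with
  | nil => rfl
  | cons b L ih =>
    rw [labs_cons, Finset.union_eq_empty, lab_eq_empty] at h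
    rw [List.length_cons, List.replicate_succ, ← ih h.2, h.1]

theorem card_vF_empty (m : ℕ) : (vF m ∅).card = 1 := by
  rw [Finset.card_eq_one]
  refine ⟨List.replicate m nil, ?_⟩
  ext L
  rw [mem_vF, Finset.mem_singleton]
  constructor
  · rintro ⟨h, _, h3⟩
    rw [labs_eq_empty L h3, h]
  · rintro rfl
    have : ∀ m : ℕ, OkL (List.replicate m nil) ∧ labs (List.replicate m nil) = ∅ := by
      intro m
      induction m with
      | zero => exact ⟨trivial, rfl⟩
      | succ m ih =>
        rw [List.replicate_succ]
        refine ⟨⟨trivial, ih.1, by simp, by simp [ih.2]⟩, by simp [ih.2]⟩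
    exact ⟨by simp, this m⟩

/-- lists with nonempty head -/
noncomputable def hF (m : ℕ) (A : Finset ℕ) : Finset (List T) :=
  (vF (m + 1) A).filter (fun L => L.head? ≠ some nil)

/-- lists with nonempty second entry -/
noncomputable def kF (m : ℕ) (A : Finset ℕ) : Finset (List T) :=
  (vF (m + 2) A).filter (fun L => L.tail.head? ≠ some nil)

theorem card_vF_succ (m : ℕ) (A : Finset ℕ) :
    (vF (m + 1) A).card = (vF m A).card + (hF m A).card := by
  have h1 : ((vF (m + 1) A).filter (fun L => L.head? = some nil)).card = (vF m A).card := by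
    symm
    refine Finset.card_bij (fun L _ => nil :: L) ?_ ?_ ?_
    · intro L hL
      rw [mem_vF] at hL
      rw [Finset.mem_filter, mem_vF]
      refine ⟨⟨by simp [hL.1], ⟨trivial, hL.2.1, by simp, ?_⟩, by simp [hL.2.2]⟩, rfl⟩
      intro a _
      exact WithTop.coe_lt_top a
    · intro L _ L' _ h
      simpa using h
    · intro L hL
      rw [Finset.mem_filter, mem_vF] at hL
      obtain ⟨⟨h1, h2, h3⟩, h4⟩ := hL
      cases L with
      | nil => simp at h4
      | cons b L =>
        simp only [List.head?_cons, Option.some.injEq] at h4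
        subst h4
        refine ⟨L, ?_, rfl⟩
        rw [mem_vF]
        exact ⟨by simpa using h1, h2.2.1, by simpa using h3⟩
  have h2 := Finset.card_filter_add_card_filter_not (s := vF (m + 1) A)
    (p := fun L => L.head? = some nil)
  rw [← h2, h1]
  rfl

theorem card_vF_succ_succ (m : ℕ) (A : Finset ℕ) :
    (vF (m + 2) A).card = (vF (m + 1) A).card + (kF m A).card := by
  have h1 : ((vF (m + 2) A).filter (fun L => L.tail.head? = some nil)).card =
      (vF (m + 1) A).card := by
    symm
    refine Finset.card_bij (fun L _ => L.head?.getD nil :: nil :: L.tail) ?_ ?_ ?_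
    · intro L hL
      rw [mem_vF] at hL
      rw [Finset.mem_filter, mem_vF]
      cases L with
      | nil => simp at hL
      | cons b L =>
        obtain ⟨h1, h2, h3⟩ := hL
        obtain ⟨g1, g2, g3, g4⟩ := h2
        refine ⟨⟨by simpa using h1, ⟨g1, ⟨trivial, g2, by simp, ?_⟩, by simpa using g3,
          by simpa using g4⟩, by simpa using h3⟩, rfl⟩
        intro a _
        exact WithTop.coe_lt_top a
    · intro L hL L' hL' h
      rw [mem_vF] at hL hL'
      cases L with
      | nil => simp at hL
      | cons b L =>
        cases L' with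
        | nil => simp at hL'
        | cons b' L' => simpa using h
    · intro L hL
      rw [Finset.mem_filter, mem_vF] at hL
      obtain ⟨⟨h1, h2, h3⟩, h4⟩ := hL
      cases L with
      | nil => simp at h4
      | cons b L =>
        cases L with
        | nil => simp at h4
        | cons c L =>
          simp only [List.tail_cons, List.head?_cons, Option.some.injEq] at h4
          subst h4
          obtain ⟨g1, g2, g3, g4⟩ := h2
          refine ⟨b :: L, ?_, rfl⟩
          rw [mem_vF]
          refine ⟨by simpa using h1, ⟨g1, g2.2.1, by simpa using g3, by simpa using g4⟩,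
            by simpa using h3⟩
  have h2 := Finset.card_filter_add_card_filter_not (s := vF (m + 2) A)
    (p := fun L => L.tail.head? = some nil)
  rw [← h2, h1]
  rfl

/-- pairs (tree, list) with complementary label sets -/
noncomputable def pF (m : ℕ) (A : Finset ℕ) : Finset (T × List T) :=
  A.powerset.biUnion (fun I => gF I ×ˢ vF (m + 1) (A \ I))

theorem mem_pF (m : ℕ) (A : Finset ℕ) (p : T × List T) :
    p ∈ pF m A ↔ Good p.1 ∧ p.2.length = m + 1 ∧ OkL p.2 ∧ Disjoint (lab p.1) (labs p.2) ∧
      lab p.1 ∪ labs p.2 = A := by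
  rw [pF, Finset.mem_biUnion]
  constructor
  · rintro ⟨I, hI, hp⟩
    rw [Finset.mem_product, mem_gF, mem_vF] at hp
    rw [Finset.mem_powerset] at hI
    obtain ⟨⟨h1, h2⟩, h3, h4, h5⟩ := hp
    refine ⟨h1, h3, h4, ?_, ?_⟩
    · rw [h2, h5]; exact Finset.disjoint_sdiff
    · rw [h2, h5]; exact Finset.union_sdiff_of_subset hI
  · rintro ⟨h1, h2, h3, h4, h5⟩
    refine ⟨lab p.1, ?_, ?_⟩
    · rw [Finset.mem_powerset, ← h5]; exact Finset.subset_union_left
    · rw [Finset.mem_product, mem_gF, mem_vF]
      refine ⟨⟨h1, rfl⟩, h2, h3, ?_⟩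
      rw [← h5, Finset.union_sdiff_cancel_left h4]

theorem card_pF (m : ℕ) (A : Finset ℕ) :
    (pF m A).card = ∑ I ∈ A.powerset, (vF 1 I).card * (vF (m + 1) (A \ I)).card := by
  rw [pF, Finset.card_biUnion]
  · refine Finset.sum_congr rfl ?_
    intro I _
    rw [Finset.card_product, card_vF_one]
  · intro I _ J _ hIJ
    rw [Function.onFun, Finset.disjoint_left]
    rintro p hp hp'
    rw [Finset.mem_product, mem_gF] at hp hp'
    exact hIJ (hp.1.2.symm.trans hp'.1.2)

/-- the pairs that do not combine to a canonical tree with an added root -/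
def Bad (p : T × List T) : Prop :=
  ∃ a t, p.2 = a :: t ∧ a ≠ nil ∧ (root a : WithTop ℕ) < mu p.1

theorem card_pF_bad (m : ℕ) (A : Finset ℕ) [DecidablePred Bad] :
    ((pF m A).filter Bad).card = (kF m A).card := by
  refine Finset.card_bij (fun p _ => p.1 :: p.2) ?_ ?_ ?_
  · rintro ⟨C, L⟩ hp
    rw [Finset.mem_filter, mem_pF] at hp
    obtain ⟨⟨h1, h2, h3, h4, h5⟩, a, t, h6, h7, h8⟩ := hp
    simp only at h1 h2 h3 h4 h5 h6 h8
    subst h6
    rw [kF, Finset.mem_filter, mem_vF]
    refine ⟨⟨by simpa using h2, ⟨h1, h3, h4, ?_⟩, by simpa using h5⟩, by simpa using h7⟩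
    intro c hc
    obtain ⟨g1, g2, g3, g4⟩ := h3
    rw [labs_cons, Finset.mem_union] at hc
    rcases hc with hc | hc
    · refine lt_of_le_of_lt ?_ h8
      exact_mod_cast le_root a g1 c hc
    · exact ((g4 c hc).trans_le (mu_le_root a h7 g1)).trans h8
  · rintro ⟨C, L⟩ _ ⟨C', L'⟩ _ h
    simpa using h
  · intro L hL
    rw [kF, Finset.mem_filter, mem_vF] at hL
    obtain ⟨⟨h1, h2, h3⟩, h4⟩ := hL
    cases L with
    | nil => simp at h1
    | cons C L =>
      cases L with
      | nil => simp at h1
      | cons a t =>
        have ha : a ≠ nil := by simpa using h4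
        obtain ⟨g1, g2, g3, g4⟩ := h2
        refine ⟨(C, a :: t), ?_, rfl⟩
        rw [Finset.mem_filter, mem_pF]
        refine ⟨⟨g1, by simpa using h1, g2, g3, by simpa using h3⟩, a, t, rfl, ha, ?_⟩
        apply g4
        rw [labs_cons]
        exact Finset.mem_union_left _ (root_mem a ha)

/-- combine a pair into a list with a new root `x` -/
def comb (x : ℕ) (p : T × List T) : List T :=
  match p.2 with
  | [] => []
  | a :: t => node a x p.1 :: t

theorem card_pF_good (m : ℕ) (A : Finset ℕ) (x : ℕ) (hx : ∀ a ∈ A, a < x)
    [DecidablePred Bad] :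
    ((pF m A).filter (fun p => ¬ Bad p)).card = (hF m (insert x A)).card := by
  refine Finset.card_bij (fun p _ => comb x p) ?_ ?_ ?_
  · rintro ⟨C, L⟩ hp
    rw [Finset.mem_filter, mem_pF] at hp
    obtain ⟨⟨h1, h2, h3, h4, h5⟩, h6⟩ := hp
    simp only at h1 h2 h3 h4 h5
    cases L with
    | nil => simp at h2
    | cons a t =>
      obtain ⟨g1, g2, g3, g4⟩ := h3
      rw [labs_cons] at h4 h5
      rw [Finset.disjoint_union_right] at h4
      have hmu : a ≠ nil → mu C < (root a : WithTop ℕ) := by
        intro ha
        have h7 : ¬ (root a : WithTop ℕ) < mu C := fun h => h6 ⟨a, t, rfl, ha, h⟩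
        refine lt_of_le_of_ne (not_lt.mp h7) ?_
        intro h8
        by_cases hC : C = nil
        · subst hC; simp at h8
        · obtain ⟨c, hc, hc'⟩ := mu_mem C hC
          rw [hc'] at h8
          have h9 : c = root a := by exact_mod_cast h8
          have h10 := root_mem a ha
          rw [← h9] at h10
          exact Finset.disjoint_left.mp h4.1 hc h10
      have hmem : ∀ c, c ∈ lab C ∨ c ∈ lab a ∨ c ∈ labs t → c < x := by
        intro c hc
        apply hx
        rw [← h5, Finset.mem_union, Finset.mem_union]
        exact hc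
      rw [hF, Finset.mem_filter, mem_vF]
      refine ⟨⟨by simpa [comb] using h2, ⟨⟨g1, h1, h4.1.symm, fun c hc => hmem c (Or.inr (Or.inl hc)),
        fun c hc => hmem c (Or.inl hc), hmu⟩, g2, ?_, ?_⟩, ?_⟩, by simp [comb]⟩
      · rw [lab_node, Finset.disjoint_insert_left, Finset.disjoint_union_left]
        refine ⟨fun h => lt_irrefl x (hmem x (Or.inr (Or.inr h))), g3, h4.2⟩
      · intro c hc
        by_cases ha : a = nil
        · subst ha
          rw [mu_node_nil]
          exact_mod_cast hmem c (Or.inr (Or.inr hc))
        · rw [mu_node_of_ne _ _ _ ha]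
          exact g4 c hc
      · rw [← h5]
        simp only [comb, labs_cons, lab_node]
        ext c
        simp only [Finset.mem_insert, Finset.mem_union]
        tauto
  · rintro ⟨C, L⟩ hp ⟨C', L'⟩ hp' h
    rw [Finset.mem_filter, mem_pF] at hp hp'
    cases L with
    | nil => simp at hp
    | cons a t =>
      cases L' with
      | nil => simp at hp'
      | cons a' t' =>
        simp only [comb, List.cons.injEq, T.node.injEq, true_and] at h
        obtain ⟨⟨h1, h2⟩, h3⟩ := h
        rw [h1, h2, h3]
  · intro L hL
    rw [hF, Finset.mem_filter, mem_vF] at hL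
    obtain ⟨⟨h1, h2, h3⟩, h4⟩ := hL
    cases L with
    | nil => simp at h1
    | cons b t =>
      cases b with
      | nil => simp at h4
      | node a y C =>
        obtain ⟨g1, g2, g3, g4⟩ := h2
        have g1' := g1
        obtain ⟨k1, k2, k3, k4, k5, k6⟩ := g1'
        rw [labs_cons, lab_node] at h3
        -- the root is x
        have hyx : y = x := by
          have hx1 : x ∈ insert y (lab a ∪ lab C) ∪ labs t := by
            rw [h3]; exact Finset.mem_insert_self _ _
          have hy1 : y ∈ insert x A := by
            rw [← h3]; exact Finset.mem_union_left _ (Finset.mem_insert_self _ _)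
          have hxy : x ≤ y := by
            rw [Finset.mem_union, Finset.mem_insert, Finset.mem_union] at hx1
            rcases hx1 with (h | h | h) | h
            · exact h.le
            · exact (k4 x h).le
            · exact (k5 x h).le
            · have h9 := (g4 x h).trans_le (mu_le_root (node a y C) (by simp) g1)
              rw [root_node] at h9
              have h9' : x < y := by exact_mod_cast h9
              exact h9'.le
          rw [Finset.mem_insert] at hy1
          rcases hy1 with h | h
          · exact h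
          · exact absurd (hx y h) (not_lt.mpr hxy)
        subst hyx
        rw [lab_node, Finset.disjoint_insert_left, Finset.disjoint_union_left] at g3
        have hA : lab a ∪ lab C ∪ labs t = A := by
          have hyA : y ∉ A := fun h => lt_irrefl y (hx y h)
          have hy2 : y ∉ lab a ∪ lab C ∪ labs t := by
            rw [Finset.mem_union, Finset.mem_union]
            rintro ((h | h) | h)
            · exact lt_irrefl y (k4 y h)
            · exact lt_irrefl y (k5 y h)
            · exact g3.1 h
          rw [Finset.insert_union] at h3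
          have h4' := congrArg (fun s => s.erase y) h3
          simp only [Finset.erase_insert hyA, Finset.erase_insert hy2] at h4'
          exact h4'
        refine ⟨(C, a :: t), ?_, rfl⟩
        rw [Finset.mem_filter, mem_pF]
        refine ⟨⟨k2, by simpa using h1, ⟨k1, g2, g3.2.1, ?_⟩, ?_, ?_⟩, ?_⟩
        · intro c hc
          by_cases ha : a = nil
          · subst ha
            exact WithTop.coe_lt_top c
          · have := g4 c hc
            rwa [mu_node_of_ne _ _ _ ha] at this
        · simp only [labs_cons]
          rw [Finset.disjoint_union_right]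
          exact ⟨k3.symm, g3.2.2⟩
        · simp only [labs_cons]
          rw [← hA]
          ext c
          simp only [Finset.mem_union]
          tauto
        · rintro ⟨a', t', e1, e2, e3⟩
          simp only [List.cons.injEq] at e1
          obtain ⟨rfl, rfl⟩ := e1
          exact absurd (k6 e2) (not_lt.mpr e3.le)

/-- the recurrence for the cardinalities, on label sets -/
theorem card_rec (m : ℕ) (A : Finset ℕ) (x : ℕ) (hx : ∀ a ∈ A, a < x) :
    (vF (m + 1) (insert x A)).card + (vF (m + 2) A).card =
      (vF m (insert x A)).card + (vF (m + 1) A).card +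
        ∑ I ∈ A.powerset, (vF 1 I).card * (vF (m + 1) (A \ I)).card := by
  classical
  rw [← card_pF, ← Finset.card_filter_add_card_filter_not (s := pF m A) (p := Bad),
    card_pF_bad, card_pF_good m A x hx, card_vF_succ m (insert x A), card_vF_succ_succ m A]
  ring

end Pool.Agent.Sorted94
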