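import Pool.Agent.Sorted94.Majorant

/-! The function `y = exp(-θ)` on the complex disc. -/

namespace Pool.Agent.Sorted94

open Set Finset

section
variable {𝕜 : Type*} [RCLike 𝕜]

theorem ps_zero' (c : ℕ → ℝ) : ps 𝕜 c 0 = ((c 0 : ℝ) : 𝕜) := by
  unfold ps
  rw [tsum_eq_single 0]
  · simp
  · intro n hn
    simp [hn]

theorem continuousOn_ps {c : ℕ → ℝ} {t : ℝ} (hs : Summable fun n => |c n| * t ^ n) :
    ContinuousOn (ps 𝕜 c) (Metric.closedBall 0 t) := by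
  unfold ps
  refine continuousOn_tsum (fun n => by fun_prop) hs (fun n z hz => ?_)
  rw [Metric.mem_closedBall, dist_zero_right] at hz
  rw [norm_term]
  exact mul_le_mul_of_nonneg_left (pow_le_pow_left₀ (norm_nonneg _) hz n) (abs_nonneg _)

theorem norm_ps_le {c b : ℕ → ℝ} {z : 𝕜} (hcb : ∀ n, |c n| ≤ b n)
    (hs : Summable fun n => b n * ‖z‖ ^ n) : ‖ps 𝕜 c z‖ ≤ ps ℝ b ‖z‖ := by
  unfold ps
  refine tsum_of_norm_bounded hs.hasSum (fun n => ?_)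
  rw [norm_term]
  exact mul_le_mul_of_nonneg_right (hcb n) (pow_nonneg (norm_nonneg _) n)

theorem der_der_uy (s : ℝ) (n : ℕ) : der (der (uy s)) n =
    ∑ i ∈ range (n + 1), D 1 i * uy s (n - i) := by
  unfold der
  rw [← uy_rec]
  push_cast
  ring

theorem summable_uyt {t : ℝ} (h0 : 0 ≤ t) (h : t ≤ Rad) :
    Summable fun n => |uy (-1) n| * t ^ n := by
  refine Summable.of_nonneg_of_le (fun n => mul_nonneg (abs_nonneg _) (pow_nonneg h0 n))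
    (fun n => ?_) summable_uy'
  exact mul_le_mul_of_nonneg_left (pow_le_pow_left₀ h0 h n) (abs_nonneg _)

theorem summable_uy1t {t : ℝ} (h0 : 0 ≤ t) (h : t ≤ Rad) :
    Summable fun n => uy 1 n * t ^ n := by
  refine Summable.of_nonneg_of_le (fun n => mul_nonneg (uy_nonneg n) (pow_nonneg h0 n))
    (fun n => ?_) summable_uy
  exact mul_le_mul_of_nonneg_left (pow_le_pow_left₀ h0 h n) (uy_nonneg n)

/-- summability of derivative coefficients inside -/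
theorem summable_der {c : ℕ → ℝ} {t T : ℝ} (h0 : 0 ≤ t) (h : t < T)
    (hs : Summable fun n => |c n| * T ^ n) : Summable fun n => |der c n| * t ^ n := by
  have hT : 0 < T := lt_of_le_of_lt h0 h
  have hq : ‖t / T‖ < 1 := by
    rw [Real.norm_of_nonneg (by positivity), div_lt_one hT]; exact h
  obtain ⟨M, hM⟩ := hs.tendsto_atTop_zero.bddAbove_range
  have hM' : ∀ n, |c n| * T ^ n ≤ M := fun n => hM (Set.mem_range_self n)
  have hsum : Summable (fun n : ℕ => (M / T) * ((n : ℝ) ^ 1 * (t / T) ^ n) +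
      (M / T) * (t / T) ^ n) :=
    ((summable_pow_mul_geometric_of_norm_lt_one 1 hq).mul_left _).add
      ((summable_geometric_of_norm_lt_one hq).mul_left _)
  refine Summable.of_nonneg_of_le (fun n => mul_nonneg (abs_nonneg _) (pow_nonneg h0 n))
    (fun n => ?_) hsum
  have e1 : |der c n| * t ^ n = (((n : ℝ) + 1) * (t / T) ^ n / T) * (|c (n + 1)| * T ^ (n + 1)) := by
    unfold der
    rw [abs_mul, abs_of_nonneg (show (0 : ℝ) ≤ (n : ℝ) + 1 by positivity), div_pow]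
    field_simp
    ring
  rw [e1]
  calc (((n : ℝ) + 1) * (t / T) ^ n / T) * (|c (n + 1)| * T ^ (n + 1))
      ≤ (((n : ℝ) + 1) * (t / T) ^ n / T) * M :=
        mul_le_mul_of_nonneg_left (hM' (n + 1)) (by positivity)
    _ = _ := by ring

/-- the complex (or real) function `y` -/
theorem hasDerivAt_Y {z : 𝕜} (hz : ‖z‖ < Rad) :
    HasDerivAt (ps 𝕜 (uy (-1))) (ps 𝕜 (der (uy (-1))) z) z :=
  hasDerivAt_ps summable_uy' z hz

theorem hasDerivAt_Y' {z : 𝕜} (hz : ‖z‖ < Rad) :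
    HasDerivAt (ps 𝕜 (der (uy (-1)))) (ps 𝕜 (D 1) z * ps 𝕜 (uy (-1)) z) z := by
  obtain ⟨t, ht1, ht2⟩ := exists_between hz
  have ht0 : 0 ≤ t := (norm_nonneg z).trans ht1.le
  have hS := Sm_of_lt_Rad ht0 ht2
  have h1 := hasDerivAt_ps (summable_der ht0 ht2 summable_uy') z ht1
  refine h1.congr_deriv ?_
  rw [ps_mul (hS.sD' 1) (summable_uyt ht0 ht2.le) z ht1.le]
  congr 1
  funext n
  exact der_der_uy (-1) n

theorem hasDerivAt_w {z : 𝕜} (hz : ‖z‖ < Rad) :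
    HasDerivAt (ps 𝕜 (V 0)) (ps 𝕜 (V 0) z * ps 𝕜 (V 0) z - ps 𝕜 (D 1) z) z := by
  obtain ⟨t, ht1, ht2⟩ := exists_between hz
  have ht0 : 0 ≤ t := (norm_nonneg z).trans ht1.le
  exact (Sm_of_lt_Rad ht0 ht2).hasDerivAt_D 0 z ht1

theorem hasDerivAt_th {z : 𝕜} (hz : ‖z‖ < Rad) :
    HasDerivAt (ps 𝕜 thc) (ps 𝕜 (V 0) z) z := by
  obtain ⟨t, ht1, ht2⟩ := exists_between hz
  have ht0 : 0 ≤ t := (norm_nonneg z).trans ht1.le
  exact (Sm_of_lt_Rad ht0 ht2).hasDerivAt_th z ht1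

theorem ps_ofReal (c : ℕ → ℝ) (x : ℝ) : ps 𝕜 c ((x : ℝ) : 𝕜) = ((ps ℝ c x : ℝ) : 𝕜) := by
  unfold ps
  rw [RCLike.ofReal_tsum]
  refine tsum_congr (fun n => ?_)
  push_cast
  rfl

end

/-- functions with vanishing derivative on the disc are constant -/
theorem const_of_deriv {f : ℂ → ℂ} (hf : ∀ z : ℂ, ‖z‖ < Rad → HasDerivAt f 0 z) {z : ℂ}
    (hz : ‖z‖ < Rad) : f z = f 0 := by
  have hR := Rad_pos
  have h0 : (0 : ℂ) ∈ Metric.ball (0 : ℂ) Rad := Metric.mem_ball_self hR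
  have h1 : z ∈ Metric.ball (0 : ℂ) Rad := by rwa [mem_ball_zero_iff]
  have h2 := (convex_ball (0 : ℂ) Rad).norm_image_sub_le_of_norm_hasDerivWithin_le
    (f := f) (f' := fun _ => 0) (C := 0)
    (fun x hx => (hf x (by rwa [mem_ball_zero_iff] at hx)).hasDerivWithinAt)
    (fun x _ => by simp) h0 h1
  rw [zero_mul] at h2
  have h3 := norm_le_zero_iff.mp h2
  exact sub_eq_zero.mp h3

theorem Y_eq_exp {z : ℂ} (hz : ‖z‖ < Rad) :
    ps ℂ (uy (-1)) z = Complex.exp (-(ps ℂ thc z)) ∧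
      ps ℂ (der (uy (-1))) z = -(ps ℂ (V 0) z * ps ℂ (uy (-1)) z) := by
  have hE : ∀ z : ℂ, ‖z‖ < Rad → HasDerivAt (fun z => Complex.exp (-(ps ℂ thc z)))
      (-(ps ℂ (V 0) z * Complex.exp (-(ps ℂ thc z)))) z := by
    intro z hz
    refine (hasDerivAt_th hz).neg.cexp.congr_deriv ?_
    simp only [Pi.neg_apply]
    ring
  have hW : ∀ z : ℂ, ‖z‖ < Rad → HasDerivAt (fun z => ps ℂ (der (uy (-1))) z *
      Complex.exp (-(ps ℂ thc z)) + ps ℂ (uy (-1)) z * (ps ℂ (V 0) z *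
        Complex.exp (-(ps ℂ thc z)))) 0 z := by
    intro z hz
    refine (((hasDerivAt_Y' hz).mul (hE z hz)).add
      ((hasDerivAt_Y hz).mul ((hasDerivAt_w hz).mul (hE z hz)))).congr_deriv ?_
    simp only [Pi.mul_apply]
    ring
  have hth0 : ps ℂ thc 0 = 0 := by rw [ps_zero']; simp [thc]
  have hW0 : ∀ z : ℂ, ‖z‖ < Rad → ps ℂ (der (uy (-1))) z *
      Complex.exp (-(ps ℂ thc z)) + ps ℂ (uy (-1)) z * (ps ℂ (V 0) z *
        Complex.exp (-(ps ℂ thc z))) = 0 := by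
    intro z hz
    refine (const_of_deriv hW hz).trans ?_
    simp only [hth0, ps_zero', V_k_zero, uy_zero]
    simp [der, uy_one]
  have hquot : ∀ z : ℂ, ‖z‖ < Rad → HasDerivAt (fun z => ps ℂ (uy (-1)) z *
      (Complex.exp (-(ps ℂ thc z)))⁻¹) 0 z := by
    intro z hz
    have hne : Complex.exp (-(ps ℂ thc z)) ≠ 0 := Complex.exp_ne_zero _
    refine ((hasDerivAt_Y hz).mul ((hE z hz).inv hne)).congr_deriv ?_
    have h2 := hW0 z hz
    simp only [Pi.inv_apply]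
    have e1 : ps ℂ (der (uy (-1))) z * (Complex.exp (-ps ℂ thc z))⁻¹ +
        ps ℂ (uy (-1)) z * (-(-(ps ℂ (V 0) z * Complex.exp (-ps ℂ thc z))) /
          Complex.exp (-ps ℂ thc z) ^ 2) =
        (ps ℂ (der (uy (-1))) z * Complex.exp (-ps ℂ thc z) +
          ps ℂ (uy (-1)) z * (ps ℂ (V 0) z * Complex.exp (-ps ℂ thc z))) /
            Complex.exp (-ps ℂ thc z) ^ 2 := by
      field_simp
    rw [e1, h2, zero_div]
  have h3 := const_of_deriv hquot hz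
  simp only [hth0, ps_zero', uy_zero] at h3
  have hne : Complex.exp (-(ps ℂ thc z)) ≠ 0 := Complex.exp_ne_zero _
  have h4 : ps ℂ (uy (-1)) z = Complex.exp (-(ps ℂ thc z)) := by
    have h5 : ps ℂ (uy (-1)) z * (Complex.exp (-(ps ℂ thc z)))⁻¹ = 1 := by
      rw [h3]; simp
    field_simp at h5
    exact h5
  refine ⟨h4, ?_⟩
  have h6 := hW0 z hz
  have h7 : (ps ℂ (der (uy (-1))) z + ps ℂ (uy (-1)) z * ps ℂ (V 0) z) *
      Complex.exp (-(ps ℂ thc z)) = 0 := by linear_combination h6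
  have h8 := (mul_eq_zero.mp h7).resolve_right hne
  linear_combination h8

theorem Y_ne_zero {z : ℂ} (hz : ‖z‖ < Rad) : ps ℂ (uy (-1)) z ≠ 0 := by
  rw [(Y_eq_exp hz).1]; exact Complex.exp_ne_zero _

theorem Y_real {x : ℝ} (h0 : 0 ≤ x) (h : x < Rad) : ps ℝ (uy (-1)) x = yr x := by
  have h1 : ‖((x : ℝ) : ℂ)‖ < Rad := by rw [Complex.norm_real, Real.norm_of_nonneg h0]; exact h
  have h2 := (Y_eq_exp h1).1
  have h3 : ps ℂ (uy (-1)) ((x : ℝ) : ℂ) = ((ps ℝ (uy (-1)) x : ℝ) : ℂ) := ps_ofReal (𝕜 := ℂ) _ x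
  have h4 : ps ℂ thc ((x : ℝ) : ℂ) = ((ps ℝ thc x : ℝ) : ℂ) := ps_ofReal (𝕜 := ℂ) _ x
  rw [h3, h4] at h2
  have h5 : ((ps ℝ (uy (-1)) x : ℝ) : ℂ) = ((yr x : ℝ) : ℂ) := by
    rw [h2]; unfold yr; push_cast; rfl
  exact_mod_cast h5

open Filter Topology in
theorem Y_Rad : ps ℝ (uy (-1)) Rad = 0 := by
  have hR := Rad_pos
  have h1 : ContinuousWithinAt (ps ℝ (uy (-1))) (Metric.closedBall 0 Rad) Rad :=
    (continuousOn_ps (𝕜 := ℝ) summable_uy') Rad (by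
      rw [Metric.mem_closedBall, dist_zero_right, Real.norm_of_nonneg hR.le])
  have h2 : Tendsto (ps ℝ (uy (-1))) (𝓝[Ioo 0 Rad] Rad) (𝓝 (ps ℝ (uy (-1)) Rad)) := by
    refine h1.tendsto.mono_left (nhdsWithin_mono _ ?_)
    intro x hx
    rw [Metric.mem_closedBall, dist_zero_right, Real.norm_of_nonneg hx.1.le]
    exact hx.2.le
  have hne : (𝓝[Ioo 0 Rad] Rad).NeBot := by
    rw [← mem_closure_iff_nhdsWithin_neBot, closure_Ioo hR.ne]
    exact right_mem_Icc.mpr hR.le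
  have h3 : Tendsto (ps ℝ (uy (-1))) (𝓝[Ioo 0 Rad] Rad) (𝓝 0) := by
    have h4 : Tendsto (fun x : ℝ => (Rad - x) / Rad) (𝓝[Ioo 0 Rad] Rad) (𝓝 0) := by
      have : Continuous (fun x : ℝ => (Rad - x) / Rad) := by fun_prop
      have h5 := this.tendsto Rad
      simp only [sub_self, zero_div] at h5
      exact h5.mono_left nhdsWithin_le_nhds
    refine tendsto_of_tendsto_of_tendsto_of_le_of_le' tendsto_const_nhds h4 ?_ ?_
    · filter_upwards [self_mem_nhdsWithin] with x hx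
      rw [Y_real hx.1.le hx.2]
      exact (yr_pos x).le
    · filter_upwards [self_mem_nhdsWithin] with x hx
      rw [Y_real hx.1.le hx.2]
      exact yr_le hx.1.le hx.2
  exact tendsto_nhds_unique h2 h3

theorem norm_pow_sub_le (z : ℂ) (n : ℕ) (hz : ‖z‖ < Rad) :
    ‖z ^ n - (Rad : ℂ) ^ n‖ ≤ ‖(Rad : ℂ) - z‖ * ((Rad ^ n - ‖z‖ ^ n) / (Rad - ‖z‖)) := by
  have hR := Rad_pos
  have h1 : 0 < Rad - ‖z‖ := by linarith
  have h2 := (Commute.all z (Rad : ℂ)).geom_sum₂_mul n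
  have h3 := (Commute.all Rad ‖z‖).geom_sum₂_mul n
  have h4 : (Rad ^ n - ‖z‖ ^ n) / (Rad - ‖z‖) =
      ∑ i ∈ range n, Rad ^ i * ‖z‖ ^ (n - 1 - i) := by
    rw [← h3, mul_div_assoc, div_self h1.ne', mul_one]
  have h5 : ∑ i ∈ range n, Rad ^ i * ‖z‖ ^ (n - 1 - i) =
      ∑ i ∈ range n, ‖z‖ ^ i * Rad ^ (n - 1 - i) := by
    rw [← Finset.sum_range_reflect]
    refine Finset.sum_congr rfl (fun i hi => ?_)
    rw [Finset.mem_range] at hi
    rw [show n - 1 - (n - 1 - i) = i by omega, mul_comm]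
  rw [← h2, norm_mul, h4, h5, mul_comm]
  have h6 : ‖z - (Rad : ℂ)‖ = ‖(Rad : ℂ) - z‖ := norm_sub_rev _ _
  rw [h6]
  refine mul_le_mul_of_nonneg_left ?_ (norm_nonneg _)
  refine (norm_sum_le _ _).trans (Finset.sum_le_sum (fun i _ => ?_))
  rw [norm_mul, norm_pow, norm_pow, Complex.norm_real, Real.norm_of_nonneg hR.le]

theorem Y_norm_le {z : ℂ} (hz : ‖z‖ < Rad) : ‖ps ℂ (uy (-1)) z‖ ≤
    ‖(Rad : ℂ) - z‖ * ((ps ℝ (uy 1) Rad - ps ℝ (uy 1) ‖z‖) / (Rad - ‖z‖)) := by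
  have hR := Rad_pos
  have h1 : 0 < Rad - ‖z‖ := by linarith
  have hs1 := summable_ps (𝕜 := ℂ) summable_uy' z hz.le
  have hs2 := summable_ps (𝕜 := ℂ) summable_uy' (Rad : ℂ)
    (by rw [Complex.norm_real, Real.norm_of_nonneg hR.le])
  have h0 : ps ℂ (uy (-1)) (Rad : ℂ) = 0 := by
    have := ps_ofReal (𝕜 := ℂ) (uy (-1)) Rad
    rw [Y_Rad] at this
    simpa using this
  have e1 : ps ℂ (uy (-1)) z = ∑' n, ((uy (-1) n : ℝ) : ℂ) * (z ^ n - (Rad : ℂ) ^ n) := by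
    have : ps ℂ (uy (-1)) z = ps ℂ (uy (-1)) z - ps ℂ (uy (-1)) (Rad : ℂ) := by rw [h0, sub_zero]
    rw [this]
    unfold ps
    rw [← hs1.tsum_sub hs2]
    refine tsum_congr (fun n => ?_)
    rw [mul_sub]
    rfl
  have hU1 := summable_uy
  have hU2 := summable_uy1t (norm_nonneg z) hz.le
  have e2 : ‖(Rad : ℂ) - z‖ * ((ps ℝ (uy 1) Rad - ps ℝ (uy 1) ‖z‖) / (Rad - ‖z‖)) =
      ∑' n, ‖(Rad : ℂ) - z‖ * ((uy 1 n * Rad ^ n - uy 1 n * ‖z‖ ^ n) / (Rad - ‖z‖)) := by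
    rw [tsum_mul_left, tsum_div_const, hU1.tsum_sub hU2]
    rfl
  rw [e1, e2]
  have hs3 : Summable fun n => ‖(Rad : ℂ) - z‖ *
      ((uy 1 n * Rad ^ n - uy 1 n * ‖z‖ ^ n) / (Rad - ‖z‖)) :=
    ((hU1.sub hU2).div_const _).mul_left _
  refine tsum_of_norm_bounded hs3.hasSum (fun n => ?_)
  have hn := norm_pow_sub_le z n hz
  rw [norm_mul, Complex.norm_real, Real.norm_eq_abs]
  have h2 : 0 ≤ ‖(Rad : ℂ) - z‖ * ((Rad ^ n - ‖z‖ ^ n) / (Rad - ‖z‖)) :=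
    (norm_nonneg _).trans hn
  calc |uy (-1) n| * ‖z ^ n - (Rad : ℂ) ^ n‖
      ≤ uy 1 n * (‖(Rad : ℂ) - z‖ * ((Rad ^ n - ‖z‖ ^ n) / (Rad - ‖z‖))) :=
        mul_le_mul (uy_abs_le n) hn (norm_nonneg _) (uy_nonneg n)
    _ = _ := by ring

end Pool.Agent.Sorted94
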