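import Pool.Agent.Sorted94.Series

/-! A fixed point interval recursion for the normalised numbers, executable in the kernel. -/

namespace Pool.Agent.Sorted94

open Finset

/-- evaluate the first argument before continuing -/
def force {α : Type} (n : ℕ) (k : ℕ → α) : α :=
  Nat.rec (motive := fun _ => α) (k 0) (fun m _ => k (Nat.succ m)) n

theorem force_eq {α : Type} (n : ℕ) (k : ℕ → α) : force n k = k n := by
  cases n <;> rfl

/-- radix -/
def BB : ℕ := 2 ^ 160
/-- scale -/
def SS : ℕ := 10 ^ 18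

/-- digit -/
def dg (x k : ℕ) : ℕ := (x / BB ^ k) % BB

/-- packed vector -/
def packf (c : ℕ → ℕ) (m : ℕ) : ℕ :=
  Nat.rec (motive := fun _ => ℕ) 0 (fun k ih => Nat.add ih (Nat.mul (c k) (BB ^ k))) m

theorem packf_eq (c : ℕ → ℕ) (m : ℕ) : packf c m = ∑ k ∈ range m, c k * BB ^ k := by
  induction m with
  | zero => rfl
  | succ m ih => rw [Finset.sum_range_succ, ← ih]; rfl

/-- partial digit sums -/
def psum (x k : ℕ) : ℕ :=
  Nat.rec (motive := fun _ => ℕ) (dg x 0) (fun k ih => Nat.add ih (dg x (Nat.succ k))) k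

theorem psum_eq (x k : ℕ) : psum x k = ∑ j ∈ range (k + 1), dg x j := by
  induction k with
  | zero => simp [psum]
  | succ k ih => rw [Finset.sum_range_succ, ← ih]; rfl

/-- dot product of first and second components -/
def dot (l1 l2 : List (ℕ × ℕ)) : ℕ → ℕ :=
  List.rec (motive := fun _ => List (ℕ × ℕ) → ℕ → ℕ) (fun _ acc => acc)
    (fun a _ ih l' acc => List.casesOn (motive := fun _ => ℕ) l' acc
      (fun b t => force (Nat.add acc (Nat.mul a.1 b.2)) (fun s => ih t s))) l1 l2

theorem dot_eq (l1 : List (ℕ × ℕ)) : ∀ (l2 : List (ℕ × ℕ)) (acc : ℕ),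
    dot l1 l2 acc = acc + (List.zipWith (fun a b => a.1 * b.2) l1 l2).sum := by
  induction l1 with
  | nil => intro l2 acc; simp [dot]
  | cons a t ih =>
    intro l2 acc
    cases l2 with
    | nil => simp [dot]
    | cons b s =>
      have h1 : dot (a :: t) (b :: s) acc =
        force (Nat.add acc (Nat.mul a.1 b.2)) (fun x => dot t s x) := rfl
      rw [h1, force_eq, ih]
      simp only [List.zipWith_cons_cons, List.sum_cons, Nat.add_eq, Nat.mul_eq]
      ring

theorem sum_map_range (g : ℕ → ℕ) (n : ℕ) :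
    ((List.range n).map g).sum = ∑ i ∈ range n, g i := by
  induction n with
  | zero => simp
  | succ n ih => rw [List.range_succ, List.map_append, List.sum_append, ih,
      Finset.sum_range_succ]; simp

theorem range_reverse (n : ℕ) :
    (List.range (n + 1)).reverse = (List.range (n + 1)).map (fun i => n - i) := by
  refine List.ext_getElem (by simp) ?_
  intro i h1 h2
  simp

theorem dot_reverse (f : ℕ → ℕ × ℕ) (n : ℕ) :
    dot ((List.range (n + 1)).map f) ((List.range (n + 1)).map f).reverse 0 =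
      ∑ i ∈ range (n + 1), (f i).1 * (f (n - i)).2 := by
  rw [dot_eq, zero_add, ← List.map_reverse, range_reverse, List.map_map, List.zipWith_map_left,
    List.zipWith_map_right, List.zipWith_self, sum_map_range]
  rfl

theorem BB_pos : 0 < BB := by unfold BB; positivity

theorem packf_lt (c : ℕ → ℕ) (m : ℕ) (h : ∀ k < m, c k < BB) : packf c m < BB ^ m := by
  induction m with
  | zero => simp [packf]
  | succ m ih =>
    rw [packf_eq, Finset.sum_range_succ, ← packf_eq]
    have h1 := ih (fun k hk => h k (by omega))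
    have h2 := h m (by omega)
    have h3 : (c m + 1) * BB ^ m ≤ BB * BB ^ m := Nat.mul_le_mul_right _ h2
    rw [pow_succ]
    nlinarith

theorem dg_packf (c : ℕ → ℕ) (m : ℕ) (h : ∀ k < m, c k < BB) :
    ∀ k < m, dg (packf c m) k = c k := by
  induction m with
  | zero => intro k hk; omega
  | succ m ih =>
    intro k hk
    have hlt := packf_lt c m (fun k hk => h k (by omega))
    have hB : 0 < BB ^ m := pow_pos BB_pos m
    rw [packf_eq, Finset.sum_range_succ, ← packf_eq, dg]
    rcases Nat.lt_succ_iff_lt_or_eq.mp hk with hk' | rfl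
    · have h1 := ih (fun k hk => h k (by omega)) k hk'
      have h2 : c m * BB ^ m = BB ^ k * (c m * BB ^ (m - k - 1) * BB) := by
        have : BB ^ m = BB ^ k * (BB ^ (m - k - 1) * BB) := by
          rw [← pow_succ, ← pow_add]
          congr 1
          omega
        rw [this]; ring
      rw [h2, Nat.add_mul_div_left _ _ (pow_pos BB_pos k), Nat.add_mul_mod_self_right]
      exact h1
    · rw [Nat.add_mul_div_right _ _ hB, Nat.div_eq_of_lt hlt, zero_add]
      exact Nat.mod_eq_of_lt (h k (by omega))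

/-- top level -/
def KK : ℕ := 10

/-- upper entry -/
def newH (n CH DL k : ℕ) : ℕ :=
  (7 * (dg CH k - SS * dg DL (min (k + 1) 10))) / (5 * SS * (n + 1)) + 1
/-- lower entry -/
def newL (n CL DH k : ℕ) : ℕ := (7 * (dg CL k - SS * dg DH (k + 1))) / (5 * SS * (n + 1))

/-- packed upper entries -/
def newHP (n CH DL : ℕ) : ℕ := packf (newH n CH DL) 11
/-- packed lower entries: the top level copies the level below -/
def newLP (n CL DH : ℕ) : ℕ := packf (fun k => newL n CL DH (min k 9)) 11

/-- machine state -/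
structure St where
  n : ℕ
  lH : List (ℕ × ℕ)
  lL : List (ℕ × ℕ)
  dH : ℕ
  dL : ℕ
  ok : Bool

/-- one step -/
def step (s : St) : St :=
  force (dot s.lH.reverse s.lH 0) fun CH =>
  force (dot s.lL.reverse s.lL 0) fun CL =>
  force (newHP s.n CH s.dL) fun DH =>
  force (newLP s.n CL s.dH) fun DL =>
  force (packf (psum DH) 11) fun VH =>
  force (packf (psum DL) 11) fun VL =>
  { n := s.n + 1
    lH := (dg DH 0, VH) :: s.lH
    lL := (dg DL 0, VL) :: s.lL
    dH := DH
    dL := DL
    ok := s.ok && decide (psum DH 10 < 2 ^ 75) && decide (psum DL 10 < 2 ^ 75) }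

/-- initial state -/
def st0 : St :=
  { n := 0
    lH := [(dg SS 0, packf (psum SS) 11)]
    lL := [(dg SS 0, packf (psum SS) 11)]
    dH := SS
    dL := SS
    ok := true }

/-- the state after `N` steps -/
def run (N : ℕ) : St := Nat.rec (motive := fun _ => St) st0 (fun _ s => step s) N

theorem run_zero : run 0 = st0 := rfl
theorem run_succ (n : ℕ) : run (n + 1) = step (run n) := rfl

/-- pairs stored at time `n` -/
def fH (i : ℕ) : ℕ × ℕ := (dg (run i).dH 0, packf (psum (run i).dH) 11)
/-- pairs stored at time `n` -/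
def fL (i : ℕ) : ℕ × ℕ := (dg (run i).dL 0, packf (psum (run i).dL) 11)

theorem step_eq (s : St) : step s =
    (let CH := dot s.lH.reverse s.lH 0
     let CL := dot s.lL.reverse s.lL 0
     let DH := newHP s.n CH s.dL
     let DL := newLP s.n CL s.dH
     { n := s.n + 1
       lH := (dg DH 0, packf (psum DH) 11) :: s.lH
       lL := (dg DL 0, packf (psum DL) 11) :: s.lL
       dH := DH
       dL := DL
       ok := s.ok && decide (psum DH 10 < 2 ^ 75) && decide (psum DL 10 < 2 ^ 75) }) := by
  simp only [step, force_eq]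

theorem run_n (n : ℕ) : (run n).n = n := by
  induction n with
  | zero => rfl
  | succ n ih => rw [run_succ, step_eq]; simp [ih]

theorem run_lH (n : ℕ) : (run n).lH = ((List.range (n + 1)).map fH).reverse := by
  induction n with
  | zero => rfl
  | succ n ih =>
    rw [List.range_succ, List.map_append, List.reverse_append, ← ih]
    have : fH (n + 1) = (dg (run (n + 1)).dH 0, packf (psum (run (n + 1)).dH) 11) := rfl
    simp only [List.map_cons, List.map_nil, List.reverse_cons, List.reverse_nil, List.nil_append,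
      List.singleton_append]
    rw [this, run_succ, step_eq]

theorem run_lL (n : ℕ) : (run n).lL = ((List.range (n + 1)).map fL).reverse := by
  induction n with
  | zero => rfl
  | succ n ih =>
    rw [List.range_succ, List.map_append, List.reverse_append, ← ih]
    have : fL (n + 1) = (dg (run (n + 1)).dL 0, packf (psum (run (n + 1)).dL) 11) := rfl
    simp only [List.map_cons, List.map_nil, List.reverse_cons, List.reverse_nil, List.nil_append,
      List.singleton_append]
    rw [this, run_succ, step_eq]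

/-- upper convolution -/
def CHn (n : ℕ) : ℕ := ∑ i ∈ range (n + 1), (fH i).1 * (fH (n - i)).2
/-- lower convolution -/
def CLn (n : ℕ) : ℕ := ∑ i ∈ range (n + 1), (fL i).1 * (fL (n - i)).2

theorem run_dH (n : ℕ) : (run (n + 1)).dH = newHP n (CHn n) (run n).dL := by
  rw [run_succ, step_eq]
  simp only
  rw [run_lH, List.reverse_reverse, dot_reverse, run_n]
  rfl

theorem run_dL (n : ℕ) : (run (n + 1)).dL = newLP n (CLn n) (run n).dH := by
  rw [run_succ, step_eq]
  simp only
  rw [run_lL, List.reverse_reverse, dot_reverse, run_n]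
  rfl

theorem run_ok_succ (n : ℕ) (h : (run (n + 1)).ok = true) : (run n).ok = true ∧
    psum (run (n + 1)).dH 10 < 2 ^ 75 ∧ psum (run (n + 1)).dL 10 < 2 ^ 75 := by
  rw [run_succ, step_eq] at h ⊢
  simp only [Bool.and_eq_true, decide_eq_true_eq] at h
  exact ⟨h.1.1, h.1.2, h.2⟩

theorem dg_SS_zero : dg SS 0 = SS := by decide +kernel
theorem dg_SS_pos : ∀ k < 11, 1 ≤ k → dg SS k = 0 := by decide +kernel
theorem psum_SS_ten : psum SS 10 < 2 ^ 75 := by decide +kernel

theorem run_bound (N : ℕ) (h : (run N).ok = true) :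
    ∀ n ≤ N, psum (run n).dH 10 < 2 ^ 75 ∧ psum (run n).dL 10 < 2 ^ 75 := by
  induction N with
  | zero =>
    intro n hn
    obtain rfl : n = 0 := by omega
    exact ⟨psum_SS_ten, psum_SS_ten⟩
  | succ N ih =>
    intro n hn
    obtain ⟨h1, h2, h3⟩ := run_ok_succ N h
    rcases Nat.lt_or_ge n (N + 1) with h4 | h4
    · exact ih h1 n (by omega)
    · obtain rfl : n = N + 1 := by omega
      exact ⟨h2, h3⟩

theorem psum_mono (x : ℕ) {j k : ℕ} (h : j ≤ k) : psum x j ≤ psum x k := by
  rw [psum_eq, psum_eq]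
  exact Finset.sum_le_sum_of_subset (by
    intro i hi
    rw [Finset.mem_range] at hi ⊢
    omega)

/-- digits of a convolution -/
theorem dg_conv (e : ℕ → ℕ) (n : ℕ) (hn : n ≤ 500) (hb : ∀ i ≤ n, psum (e i) 10 < 2 ^ 75) :
    ∀ k < 11, dg (∑ i ∈ range (n + 1), dg (e i) 0 * packf (psum (e (n - i))) 11) k =
      ∑ i ∈ range (n + 1), dg (e i) 0 * psum (e (n - i)) k := by
  intro k hk
  have h1 : (∑ i ∈ range (n + 1), dg (e i) 0 * packf (psum (e (n - i))) 11) =
      packf (fun k => ∑ i ∈ range (n + 1), dg (e i) 0 * psum (e (n - i)) k) 11 := by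
    rw [packf_eq]
    simp only [Finset.sum_mul]
    rw [Finset.sum_comm]
    refine Finset.sum_congr rfl ?_
    intro i _
    rw [packf_eq, Finset.mul_sum]
    refine Finset.sum_congr rfl ?_
    intro j _
    ring
  rw [h1]
  refine dg_packf _ 11 ?_ k hk
  intro j hj
  have h2 : ∀ i ∈ range (n + 1), dg (e i) 0 * psum (e (n - i)) j ≤ 2 ^ 75 * 2 ^ 75 := by
    intro i hi
    rw [Finset.mem_range] at hi
    refine Nat.mul_le_mul ?_ ?_
    · have h3 : dg (e i) 0 = psum (e i) 0 := by rw [psum_eq]; simp
      rw [h3]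
      exact ((psum_mono (e i) (by omega)).trans_lt (hb i (by omega))).le
    · exact ((psum_mono (e (n - i)) (by omega)).trans_lt (hb (n - i) (by omega))).le
  have h4 := Finset.sum_le_sum h2
  rw [Finset.sum_const, Finset.card_range, smul_eq_mul] at h4
  refine lt_of_le_of_lt h4 ?_
  unfold BB
  calc (n + 1) * (2 ^ 75 * 2 ^ 75) ≤ 501 * (2 ^ 75 * 2 ^ 75) := Nat.mul_le_mul_right _ (by omega)
    _ < 2 ^ 160 := by norm_num

theorem newH_lt (n C E k : ℕ) : newH n C E k < BB := by
  have h1 : dg C k < BB := Nat.mod_lt _ BB_pos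
  have h2 : (7 * (dg C k - SS * dg E (min (k + 1) 10))) / (5 * SS * (n + 1)) ≤
      (7 * BB) / (5 * SS) := by
    refine (Nat.div_le_div_right (Nat.mul_le_mul_left 7 ((Nat.sub_le _ _).trans h1.le))).trans ?_
    refine Nat.div_le_div_left (Nat.le_mul_of_pos_right _ (by omega)) (by unfold SS; positivity)
  have h3 : (7 * BB) / (5 * SS) + 1 < BB := by decide +kernel
  unfold newH
  omega

theorem newL_lt (n C E k : ℕ) : newL n C E k < BB := by
  have h1 : dg C k < BB := Nat.mod_lt _ BB_pos
  have h2 : (7 * (dg C k - SS * dg E (k + 1))) / (5 * SS * (n + 1)) ≤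
      (7 * BB) / (5 * SS) := by
    refine (Nat.div_le_div_right (Nat.mul_le_mul_left 7 ((Nat.sub_le _ _).trans h1.le))).trans ?_
    refine Nat.div_le_div_left (Nat.le_mul_of_pos_right _ (by omega)) (by unfold SS; positivity)
  have h3 : (7 * BB) / (5 * SS) + 1 < BB := by decide +kernel
  unfold newL
  omega

/-- scaled values -/
noncomputable def Ds (k n : ℕ) : ℝ := (SS : ℝ) * (D k n * (7 / 5 : ℝ) ^ n)
/-- scaled values -/
noncomputable def Vs (k n : ℕ) : ℝ := (SS : ℝ) * (V k n * (7 / 5 : ℝ) ^ n)

theorem SS_pos : (0 : ℝ) < SS := by unfold SS; norm_num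

theorem Ds_nonneg (k n : ℕ) : 0 ≤ Ds k n := by
  unfold Ds
  have := D_nonneg k n
  have := SS_pos
  positivity

theorem Vs_nonneg (k n : ℕ) : 0 ≤ Vs k n := by
  unfold Vs
  have := V_nonneg k n
  have := SS_pos
  positivity

theorem Vs_eq_sum (k n : ℕ) : Vs k n = ∑ j ∈ range (k + 1), Ds j n := by
  unfold Vs Ds
  rw [V_eq_sum, Finset.sum_mul, Finset.mul_sum]

theorem Ds_rec (k n : ℕ) : ((n : ℝ) + 1) * Ds k (n + 1) =
    (7 / 5 : ℝ) * ((∑ i ∈ range (n + 1), Vs 0 i * Vs k (n - i)) / SS - Ds (k + 1) n) := by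
  have h := D_rec k n
  have hS := SS_pos
  have h1 : (∑ i ∈ range (n + 1), Vs 0 i * Vs k (n - i)) / (SS : ℝ) =
      SS * (7 / 5 : ℝ) ^ n * (∑ i ∈ range (n + 1), V 0 i * V k (n - i)) := by
    rw [Finset.sum_div, Finset.mul_sum]
    refine Finset.sum_congr rfl ?_
    intro i hi
    rw [Finset.mem_range] at hi
    have : (7 / 5 : ℝ) ^ n = (7 / 5 : ℝ) ^ i * (7 / 5 : ℝ) ^ (n - i) := by
      rw [← pow_add]; congr 1; omega
    rw [this]
    unfold Vs
    field_simp
  rw [h1]
  unfold Ds
  rw [pow_succ]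
  have h2 : ((n : ℝ) + 1) * (SS * (D k (n + 1) * ((7 / 5 : ℝ) ^ n * (7 / 5)))) =
      SS * (7 / 5 : ℝ) ^ n * (7 / 5) * (((n : ℝ) + 1) * D k (n + 1)) := by ring
  rw [h2, h]
  ring

/-- validity of the bounds at time `n` -/
def Valid (n : ℕ) : Prop :=
  ∀ k < 11, Ds k n ≤ (dg (run n).dH k : ℝ) ∧ (dg (run n).dL k : ℝ) ≤ Ds k n

theorem valid_V (n : ℕ) (h : Valid n) : ∀ k < 11, Vs k n ≤ (psum (run n).dH k : ℝ) ∧
    (psum (run n).dL k : ℝ) ≤ Vs k n := by
  intro k hk
  rw [Vs_eq_sum, psum_eq, psum_eq]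
  push_cast
  constructor
  · refine Finset.sum_le_sum ?_
    intro j hj
    rw [Finset.mem_range] at hj
    exact (h j (by omega)).1
  · refine Finset.sum_le_sum ?_
    intro j hj
    rw [Finset.mem_range] at hj
    exact (h j (by omega)).2

theorem valid_zero : Valid 0 := by
  intro k hk
  have h0 : (run 0).dH = SS := rfl
  have h0' : (run 0).dL = SS := rfl
  rw [h0, h0']
  cases k with
  | zero =>
    rw [dg_SS_zero]
    unfold Ds
    rw [D_zero_zero]
    simp
  | succ k =>
    rw [dg_SS_pos (k + 1) hk (by omega)]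
    unfold Ds
    rw [D_k_zero]
    simp

theorem valid_succ (n : ℕ) (hn : n ≤ 500)
    (hb : ∀ i ≤ n, psum (run i).dH 10 < 2 ^ 75 ∧ psum (run i).dL 10 < 2 ^ 75)
    (hv : ∀ i ≤ n, Valid i) : Valid (n + 1) := by
  have hS := SS_pos
  have hcH : ∀ k < 11, dg (CHn n) k =
      ∑ i ∈ range (n + 1), dg (run i).dH 0 * psum (run (n - i)).dH k :=
    dg_conv (fun i => (run i).dH) n hn (fun i hi => (hb i hi).1)
  have hcL : ∀ k < 11, dg (CLn n) k =
      ∑ i ∈ range (n + 1), dg (run i).dL 0 * psum (run (n - i)).dL k :=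
    dg_conv (fun i => (run i).dL) n hn (fun i hi => (hb i hi).2)
  have hsH : ∀ k < 11, (∑ i ∈ range (n + 1), Vs 0 i * Vs k (n - i)) ≤ (dg (CHn n) k : ℝ) := by
    intro k hk
    rw [hcH k hk]
    push_cast
    refine Finset.sum_le_sum ?_
    intro i hi
    rw [Finset.mem_range] at hi
    have h1 := (valid_V i (hv i (by omega)) 0 (by omega)).1
    have h2 := (valid_V (n - i) (hv (n - i) (by omega)) k hk).1
    have h3 : psum (run i).dH 0 = dg (run i).dH 0 := rfl
    rw [h3] at h1
    exact mul_le_mul h1 h2 (Vs_nonneg _ _) (by positivity)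
  have hsL : ∀ k < 11, (dg (CLn n) k : ℝ) ≤ (∑ i ∈ range (n + 1), Vs 0 i * Vs k (n - i)) := by
    intro k hk
    rw [hcL k hk]
    push_cast
    refine Finset.sum_le_sum ?_
    intro i hi
    rw [Finset.mem_range] at hi
    have h1 := (valid_V i (hv i (by omega)) 0 (by omega)).2
    have h2 := (valid_V (n - i) (hv (n - i) (by omega)) k hk).2
    have h3 : psum (run i).dL 0 = dg (run i).dL 0 := rfl
    rw [h3] at h1
    exact mul_le_mul h1 h2 (by positivity) (Vs_nonneg _ _)
  have hn1 : (0 : ℝ) < (n : ℝ) + 1 := by positivity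
  -- upper entries
  have hup : ∀ k < 11, Ds k (n + 1) ≤ (newH n (CHn n) (run n).dL k : ℝ) := by
    intro k hk
    have hlow : (dg (run n).dL (min (k + 1) 10) : ℝ) ≤ Ds (k + 1) n := by
      rcases Nat.lt_or_ge k 10 with h | h
      · rw [min_eq_left (by omega)]
        exact (hv n le_rfl (k + 1) (by omega)).2
      · obtain rfl : k = 10 := by omega
        refine ((hv n le_rfl 10 (by omega)).2).trans ?_
        unfold Ds
        have := D_mono 9 n
        have h7 : (0 : ℝ) ≤ (7 / 5 : ℝ) ^ n := by positivity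
        exact mul_le_mul_of_nonneg_left (mul_le_mul_of_nonneg_right this h7) hS.le
    have hrec := Ds_rec k n
    have hX := hsH k hk
    have hnn := Ds_nonneg k (n + 1)
    -- real inequality with truncated subtraction
    have hsub : (∑ i ∈ range (n + 1), Vs 0 i * Vs k (n - i)) - SS * Ds (k + 1) n ≤
        ((dg (CHn n) k - SS * dg (run n).dL (min (k + 1) 10) : ℕ) : ℝ) := by
      rcases le_total (SS * dg (run n).dL (min (k + 1) 10)) (dg (CHn n) k) with h | h
      · rw [Nat.cast_sub h]
        push_cast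
        have := mul_le_mul_of_nonneg_left hlow hS.le
        linarith
      · rw [Nat.sub_eq_zero_of_le h]
        have h' : ((dg (CHn n) k : ℕ) : ℝ) ≤ SS * (dg (run n).dL (min (k + 1) 10) : ℝ) := by
          exact_mod_cast h
        have := mul_le_mul_of_nonneg_left hlow hS.le
        push_cast
        linarith
    have hfl : ((7 * (dg (CHn n) k - SS * dg (run n).dL (min (k + 1) 10)) : ℕ) : ℝ) ≤
        (newH n (CHn n) (run n).dL k : ℝ) * (5 * SS * (n + 1)) := by
      have h1 := Nat.lt_succ_iff.mp (Nat.lt_succ_of_lt (Nat.lt_mul_div_succ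
        (7 * (dg (CHn n) k - SS * dg (run n).dL (min (k + 1) 10)))
        (show 0 < 5 * SS * (n + 1) by unfold SS; positivity)))
      unfold newH
      have h2 : 7 * (dg (CHn n) k - SS * dg (run n).dL (min (k + 1) 10)) ≤
        ((7 * (dg (CHn n) k - SS * dg (run n).dL (min (k + 1) 10))) / (5 * SS * (n + 1)) + 1) *
          (5 * SS * (n + 1)) := by
        rw [mul_comm (_ + 1)]; exact h1
      exact_mod_cast h2
    push_cast at hfl
    have e1 : ((n : ℝ) + 1) * Ds k (n + 1) * (5 * SS) =
        7 * ((∑ i ∈ range (n + 1), Vs 0 i * Vs k (n - i)) - SS * Ds (k + 1) n) := by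
      rw [hrec]
      field_simp
    have e2 : Ds k (n + 1) * (5 * SS * (n + 1)) ≤
        (newH n (CHn n) (run n).dL k : ℝ) * (5 * SS * (n + 1)) := by
      refine le_trans ?_ hfl
      have : Ds k (n + 1) * (5 * SS * (n + 1)) = ((n : ℝ) + 1) * Ds k (n + 1) * (5 * SS) := by ring
      rw [this, e1]
      exact mul_le_mul_of_nonneg_left hsub (by norm_num)
    exact le_of_mul_le_mul_right e2 (by positivity)
  -- lower entries
  have hlo : ∀ k < 10, (newL n (CLn n) (run n).dH k : ℝ) ≤ Ds k (n + 1) := by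
    intro k hk
    have hhigh : Ds (k + 1) n ≤ (dg (run n).dH (k + 1) : ℝ) := (hv n le_rfl (k + 1) (by omega)).1
    have hrec := Ds_rec k n
    have hX := hsL k (by omega)
    have hnn := Ds_nonneg k (n + 1)
    rcases le_total (dg (CLn n) k) (SS * dg (run n).dH (k + 1)) with h | h
    · have : newL n (CLn n) (run n).dH k = 0 := by
        unfold newL
        rw [Nat.sub_eq_zero_of_le h]
        simp
      rw [this]
      simpa using hnn
    · have hfl : (newL n (CLn n) (run n).dH k : ℝ) * (5 * SS * (n + 1)) ≤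
        ((7 * (dg (CLn n) k - SS * dg (run n).dH (k + 1)) : ℕ) : ℝ) := by
        have h1 := Nat.div_mul_le_self (7 * (dg (CLn n) k - SS * dg (run n).dH (k + 1)))
          (5 * SS * (n + 1))
        unfold newL
        exact_mod_cast h1
      rw [Nat.cast_mul, Nat.cast_sub h] at hfl
      push_cast at hfl
      have e1 : ((n : ℝ) + 1) * Ds k (n + 1) * (5 * SS) =
          7 * ((∑ i ∈ range (n + 1), Vs 0 i * Vs k (n - i)) - SS * Ds (k + 1) n) := by
        rw [hrec]
        field_simp
      have e2 : (newL n (CLn n) (run n).dH k : ℝ) * (5 * SS * (n + 1)) ≤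
          Ds k (n + 1) * (5 * SS * (n + 1)) := by
        refine hfl.trans ?_
        have : Ds k (n + 1) * (5 * SS * (n + 1)) = ((n : ℝ) + 1) * Ds k (n + 1) * (5 * SS) := by
          ring
        rw [this, e1]
        have := mul_le_mul_of_nonneg_left hhigh hS.le
        linarith
      exact le_of_mul_le_mul_right e2 (by positivity)
  intro k hk
  rw [run_dH, run_dL, newHP, newLP]
  rw [dg_packf _ 11 (fun j _ => newH_lt _ _ _ j) k hk,
    dg_packf _ 11 (fun j _ => newL_lt _ _ _ _) k hk]
  refine ⟨hup k hk, ?_⟩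
  rcases Nat.lt_or_ge k 10 with h | h
  · rw [min_eq_left (by omega)]
    exact hlo k h
  · obtain rfl : k = 10 := by omega
    rw [min_eq_right (by omega)]
    refine (hlo 9 (by omega)).trans ?_
    unfold Ds
    have := D_mono 8 (n + 1)
    have h7 : (0 : ℝ) ≤ (7 / 5 : ℝ) ^ (n + 1) := by positivity
    exact mul_le_mul_of_nonneg_left (mul_le_mul_of_nonneg_right this h7) hS.le

theorem valid_all (N : ℕ) (hN : N ≤ 501) (h : (run N).ok = true) : ∀ n ≤ N, Valid n := by
  have hb := run_bound N h
  intro n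
  induction n using Nat.strong_induction_on with
  | _ n ih =>
    intro hn
    cases n with
    | zero => exact valid_zero
    | succ n =>
      exact valid_succ n (by omega) (fun i hi => hb i (by omega))
        (fun i hi => ih i (by omega) (by omega))

end Pool.Agent.Sorted94
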