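import Pool.Agent.Sorted94.RealFacts

/-! The majorant series. -/

namespace Pool.Agent.Sorted94

open Set Finset

/-- coefficients of the solution of `Y'' = d Y`, `Y(0) = 1`, `Y'(0) = s` -/
noncomputable def uy (s : ℝ) : ℕ → ℝ
  | 0 => 1
  | 1 => s
  | (n + 2) => (∑ i : Fin (n + 1), D 1 i * uy s (n - i)) / (((n : ℝ) + 1) * ((n : ℝ) + 2))
termination_by n => n
decreasing_by omega

theorem uy_zero (s : ℝ) : uy s 0 = 1 := by rw [uy]
theorem uy_one (s : ℝ) : uy s 1 = s := by rw [uy]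

theorem uy_rec (s : ℝ) (n : ℕ) : ((n : ℝ) + 1) * ((n : ℝ) + 2) * uy s (n + 2) =
    ∑ i ∈ range (n + 1), D 1 i * uy s (n - i) := by
  rw [uy, Fin.sum_univ_eq_sum_range (fun i => D 1 i * uy s (n - i)) (n + 1)]
  have h1 : (n : ℝ) + 1 ≠ 0 := by positivity
  have h2 : (n : ℝ) + 2 ≠ 0 := by positivity
  field_simp

theorem uy_abs_le (n : ℕ) : |uy (-1) n| ≤ uy 1 n := by
  induction n using Nat.strong_induction_on with
  | _ n ih =>
    match n with
    | 0 => simp [uy_zero]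
    | 1 => simp [uy_one]
    | n + 2 =>
      have h1 := uy_rec (-1) n
      have h2 := uy_rec 1 n
      have hpos : (0 : ℝ) < ((n : ℝ) + 1) * ((n : ℝ) + 2) := by positivity
      have h3 : |((n : ℝ) + 1) * ((n : ℝ) + 2) * uy (-1) (n + 2)| ≤
          ((n : ℝ) + 1) * ((n : ℝ) + 2) * uy 1 (n + 2) := by
        rw [h1, h2]
        refine (Finset.abs_sum_le_sum_abs _ _).trans (Finset.sum_le_sum (fun i hi => ?_))
        rw [abs_mul, abs_of_nonneg (D_nonneg 1 i)]
        exact mul_le_mul_of_nonneg_left (ih (n - i) (by omega)) (D_nonneg 1 i)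
      rw [abs_mul, abs_of_pos hpos] at h3
      exact le_of_mul_le_mul_left h3 hpos

theorem uy_nonneg (n : ℕ) : 0 ≤ uy 1 n := (abs_nonneg _).trans (uy_abs_le n)

/-- truncated coefficients -/
noncomputable def tr (N n : ℕ) : ℝ := if n < N then uy 1 n else 0

theorem tr_nonneg (N n : ℕ) : 0 ≤ tr N n := by
  unfold tr; split_ifs
  · exact uy_nonneg n
  · exact le_rfl

/-- shifted derivative coefficients -/
noncomputable def der (c : ℕ → ℝ) (n : ℕ) : ℝ := ((n : ℝ) + 1) * c (n + 1)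

theorem der_nonneg {c : ℕ → ℝ} (hc : ∀ n, 0 ≤ c n) (n : ℕ) : 0 ≤ der c n :=
  mul_nonneg (by positivity) (hc _)

theorem summable_fin {c : ℕ → ℝ} (N : ℕ) (hc : ∀ n, N ≤ n → c n = 0) (T : ℝ) :
    Summable fun n => |c n| * T ^ n := by
  refine summable_of_ne_finset_zero (s := range N) (fun n hn => ?_)
  rw [Finset.mem_range, not_lt] at hn
  rw [hc n hn]; simp

theorem tr_fin (N n : ℕ) (h : N ≤ n) : tr N n = 0 := by
  unfold tr; rw [if_neg (by omega)]

theorem der_fin {c : ℕ → ℝ} {N : ℕ} (hc : ∀ n, N ≤ n → c n = 0) (n : ℕ) (h : N ≤ n) :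
    der c n = 0 := by
  unfold der; rw [hc _ (by omega), mul_zero]

theorem hasDerivAt_fin {𝕜 : Type*} [RCLike 𝕜] {c : ℕ → ℝ} {N : ℕ} (hc : ∀ n, N ≤ n → c n = 0)
    (z : 𝕜) : HasDerivAt (ps 𝕜 c) (ps 𝕜 (der c) z) z :=
  hasDerivAt_ps (summable_fin N hc (‖z‖ + 1)) z (by linarith)

theorem tr_conv (N n : ℕ) : der (der (tr N)) n ≤ ∑ i ∈ range (n + 1), D 1 i * tr N (n - i) := by
  unfold der
  by_cases h : n + 1 + 1 < N
  · have e1 : tr N (n + 1 + 1) = uy 1 (n + 2) := by unfold tr; rw [if_pos h]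
    have e2 : ∑ i ∈ range (n + 1), D 1 i * tr N (n - i) =
        ∑ i ∈ range (n + 1), D 1 i * uy 1 (n - i) := by
      refine Finset.sum_congr rfl (fun i hi => ?_)
      unfold tr; rw [if_pos (by omega)]
    rw [e1, e2, ← uy_rec]
    push_cast
    apply le_of_eq
    ring
  · have e1 : tr N (n + 1 + 1) = 0 := by unfold tr; rw [if_neg h]
    rw [e1]
    simp only [mul_zero]
    exact Finset.sum_nonneg (fun i _ => mul_nonneg (D_nonneg 1 i) (tr_nonneg _ _))

/-- the bound for the majorant -/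
noncomputable def CU : ℝ := 1 + 2 / (Rad * qs ^ 2)

theorem CU_pos : 0 < CU := by
  unfold CU; have := qs_pos; have := Rad_pos; positivity

theorem second_le (N : ℕ) {t : ℝ} (h0 : 0 ≤ t) (h : t < Rad) :
    ps ℝ (der (der (tr N))) t ≤ ps ℝ (D 1) t * ps ℝ (tr N) t := by
  have hS := Sm_of_lt_Rad h0 h
  rw [ps_mul (hS.sD' 1) (summable_fin N (tr_fin N) t) t (by rw [Real.norm_of_nonneg h0])]
  refine ps_real_le h0 (tr_conv N) ?_ ?_
  · have := summable_fin N (der_fin (der_fin (tr_fin N))) t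
    refine this.congr (fun n => ?_)
    rw [abs_of_nonneg (der_nonneg (der_nonneg (tr_nonneg N)) n)]
  · refine summable_conv (hS.sD 1) ?_
    refine (summable_fin N (tr_fin N) t).congr (fun n => ?_)
    rw [abs_of_nonneg (tr_nonneg N n)]

theorem tr_zero {N : ℕ} (hN : 2 ≤ N) : tr N 0 = 1 := by
  unfold tr; rw [if_pos (by omega), uy_zero]

theorem der_tr_zero {N : ℕ} (hN : 2 ≤ N) : der (tr N) 0 = 1 := by
  unfold der tr; rw [if_pos (by omega), zero_add, uy_one]; simp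

theorem wronsk_le {N : ℕ} (hN : 2 ≤ N) {t : ℝ} (h0 : 0 ≤ t) (h : t < Rad) :
    ps ℝ (der (tr N)) t * yr t + ps ℝ (tr N) t * (ps ℝ (V 0) t * yr t) ≤ 2 := by
  have h1 := anti_of_hasDerivAt
    (f := fun t => ps ℝ (der (tr N)) t * yr t + ps ℝ (tr N) t * (ps ℝ (V 0) t * yr t))
    (f' := fun t => (ps ℝ (der (der (tr N))) t * yr t +
      ps ℝ (der (tr N)) t * (-(ps ℝ (V 0) t * yr t))) +
      (ps ℝ (der (tr N)) t * (ps ℝ (V 0) t * yr t) +
        ps ℝ (tr N) t * (-(ps ℝ (D 1) t * yr t)))) h0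
    (fun u hu => by
      have hu2 := lt_of_le_of_lt hu.2 h
      exact ((hasDerivAt_fin (der_fin (tr_fin N)) u).mul (hasDerivAt_yr hu.1 hu2)).add
        ((hasDerivAt_fin (tr_fin N) u).mul (hasDerivAt_q hu.1 hu2)))
    (fun u hu => by
      have hu2 := lt_of_le_of_lt hu.2 h
      have h2 := second_le N hu.1 hu2
      have h3 := yr_pos u
      nlinarith)
  simp only [ps_zero, yr_zero, tr_zero hN, der_tr_zero hN, V_k_zero] at h1
  linarith

theorem trunc_le {N : ℕ} (hN : 2 ≤ N) {t : ℝ} (h0 : 0 ≤ t) (h : t < Rad) :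
    ps ℝ (tr N) t ≤ CU := by
  have hq := qs_pos
  have hR := Rad_pos
  have h1 := anti_of_hasDerivAt
    (f := fun t => ps ℝ (tr N) t / yr t - (2 / qs ^ 2) * (Rad - t)⁻¹)
    (f' := fun t => (ps ℝ (der (tr N)) t * yr t -
      ps ℝ (tr N) t * (-(ps ℝ (V 0) t * yr t))) / yr t ^ 2
      - (2 / qs ^ 2) * (-(-1) / (Rad - t) ^ 2)) h0
    (fun u hu => by
      have hu2 := lt_of_le_of_lt hu.2 h
      have hne : Rad - u ≠ 0 := by
        have : 0 < Rad - u := by linarith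
        exact this.ne'
      exact ((hasDerivAt_fin (tr_fin N) u).div (hasDerivAt_yr hu.1 hu2) (yr_pos u).ne').sub
        ((((hasDerivAt_id u).const_sub Rad).inv hne).const_mul (2 / qs ^ 2)))
    (fun u hu => by
      have hu2 := lt_of_le_of_lt hu.2 h
      have h3 : 0 < Rad - u := by linarith
      have h2 := wronsk_le hN hu.1 hu2
      have h4 := yr_ge hu.1 hu2
      have h5 := yr_pos u
      have h6 : (ps ℝ (der (tr N)) u * yr u -
          ps ℝ (tr N) u * (-(ps ℝ (V 0) u * yr u))) / yr u ^ 2 ≤ 2 / yr u ^ 2 := by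
        apply div_le_div_of_nonneg_right _ (by positivity)
        linarith
      have h7 : 2 / yr u ^ 2 ≤ 2 / (qs * (Rad - u)) ^ 2 := by
        apply div_le_div_of_nonneg_left (by norm_num) (by positivity)
        exact pow_le_pow_left₀ (by positivity) h4 2
      have h8 : 2 / (qs * (Rad - u)) ^ 2 = (2 / qs ^ 2) * (-(-1) / (Rad - u) ^ 2) := by
        field_simp
      linarith)
  simp only [ps_zero, yr_zero, tr_zero hN, sub_zero] at h1
  have h3 : 0 < Rad - t := by linarith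
  have h5 := yr_pos t
  have h6 := yr_le h0 h
  have h7 : ps ℝ (tr N) t / yr t ≤ 1 + (2 / qs ^ 2) * (Rad - t)⁻¹ := by
    have : 0 ≤ 2 / qs ^ 2 * Rad⁻¹ := by positivity
    linarith
  rw [div_le_iff₀ h5] at h7
  have h8 : 0 ≤ 1 + (2 / qs ^ 2) * (Rad - t)⁻¹ := by positivity
  calc ps ℝ (tr N) t ≤ (1 + (2 / qs ^ 2) * (Rad - t)⁻¹) * yr t := h7
    _ ≤ (1 + (2 / qs ^ 2) * (Rad - t)⁻¹) * ((Rad - t) / Rad) :=
        mul_le_mul_of_nonneg_left h6 h8
    _ = (Rad - t) / Rad + 2 / (Rad * qs ^ 2) := by field_simp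
    _ ≤ 1 + 2 / (Rad * qs ^ 2) := by
        have : (Rad - t) / Rad ≤ 1 := by rw [div_le_one hR]; linarith
        linarith
    _ = CU := rfl

theorem ps_fin_eq {c : ℕ → ℝ} {N : ℕ} (hc : ∀ n, N ≤ n → c n = 0) (t : ℝ) :
    ps ℝ c t = ∑ n ∈ range N, c n * t ^ n := by
  unfold ps
  rw [tsum_eq_sum (s := range N)]
  · rfl
  · intro n hn
    rw [Finset.mem_range, not_lt] at hn
    rw [hc n hn]; simp

theorem continuous_fin {c : ℕ → ℝ} {N : ℕ} (hc : ∀ n, N ≤ n → c n = 0) :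
    Continuous (ps ℝ c) := by
  rw [show ps ℝ c = fun t => ∑ n ∈ range N, c n * t ^ n from funext (ps_fin_eq hc)]
  fun_prop

theorem ps_tr (N : ℕ) (t : ℝ) : ps ℝ (tr N) t = ∑ n ∈ range N, uy 1 n * t ^ n := by
  rw [ps_fin_eq (tr_fin N)]
  refine Finset.sum_congr rfl (fun n hn => ?_)
  rw [Finset.mem_range] at hn
  unfold tr; rw [if_pos hn]

open Filter Topology in
theorem le_at_Rad {f : ℝ → ℝ} (hf : Continuous f) {C : ℝ} {a : ℝ} (ha : a < Rad)
    (h : ∀ t, a ≤ t → t < Rad → f t ≤ C) : f Rad ≤ C := by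
  have h1 : Tendsto f (𝓝[<] Rad) (𝓝 (f Rad)) := hf.continuousWithinAt
  refine le_of_tendsto h1 ?_
  filter_upwards [Ioo_mem_nhdsLT ha] with t ht
  exact h t ht.1.le ht.2

theorem trunc_le' {N : ℕ} (hN : 2 ≤ N) {t : ℝ} (h0 : 0 ≤ t) (h : t ≤ Rad) :
    ps ℝ (tr N) t ≤ CU := by
  rcases lt_or_eq_of_le h with h1 | h1
  · exact trunc_le hN h0 h1
  · rw [h1]
    exact le_at_Rad (continuous_fin (tr_fin N)) Rad_pos (fun t ht1 ht2 => trunc_le hN ht1 ht2)

theorem summable_uy : Summable fun n => uy 1 n * Rad ^ n := by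
  refine summable_of_sum_range_le (c := CU)
    (fun n => mul_nonneg (uy_nonneg n) (pow_nonneg Rad_pos.le n)) ?_
  intro N
  have h1 : ∑ n ∈ range N, uy 1 n * Rad ^ n ≤ ∑ n ∈ range (N + 2), uy 1 n * Rad ^ n :=
    Finset.sum_le_sum_of_subset_of_nonneg (Finset.range_subset_range.mpr (by omega))
      (fun n _ _ => mul_nonneg (uy_nonneg n) (pow_nonneg Rad_pos.le n))
  rw [← ps_tr (N + 2)] at h1
  exact h1.trans (trunc_le' (by omega) Rad_pos.le le_rfl)

theorem summable_uy' : Summable fun n => |uy (-1) n| * Rad ^ n := by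
  refine Summable.of_nonneg_of_le
    (fun n => mul_nonneg (abs_nonneg _) (pow_nonneg Rad_pos.le n)) (fun n => ?_) summable_uy
  exact mul_le_mul_of_nonneg_right (uy_abs_le n) (pow_nonneg Rad_pos.le n)

/-- derivative bound for the truncations -/
theorem trunc_deriv_le {ε : ℝ} (hε : 0 < ε) : ∃ C : ℝ, 0 < C ∧ ∀ N, 2 ≤ N → ∀ t, 0 ≤ t → t < Rad →
    ps ℝ (der (tr N)) t ≤ C * (Rad - t) ^ (-ε) := by
  obtain ⟨C, hC, hd⟩ := dr_le hε
  have hR := Rad_pos
  refine ⟨Rad ^ ε + CU * C / ε, by have := CU_pos; positivity, ?_⟩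
  intro N hN t h0 h
  have h1 := anti_of_hasDerivAt
    (f := fun t => ps ℝ (der (tr N)) t - (CU * C / ε) * (Rad - t) ^ (-ε))
    (f' := fun t => ps ℝ (der (der (tr N))) t -
      (CU * C / ε) * ((-1) * (-ε) * (Rad - t) ^ (-ε - 1))) h0
    (fun u hu => by
      have hu2 := lt_of_le_of_lt hu.2 h
      have hne : 0 < Rad - u := by linarith
      exact (hasDerivAt_fin (der_fin (tr_fin N)) u).sub
        ((((hasDerivAt_id u).const_sub Rad).rpow_const (Or.inl hne.ne')).const_mul _))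
    (fun u hu => by
      have hu2 := lt_of_le_of_lt hu.2 h
      have h2 := second_le N hu.1 hu2
      have h3 := trunc_le hN hu.1 hu2
      have h4 := hd u hu.1 hu2
      have h5 : 0 ≤ ps ℝ (D 1) u := ps_real_nonneg (D_nonneg 1) hu.1
      have h6 : 0 ≤ ps ℝ (tr N) u := ps_real_nonneg (tr_nonneg N) hu.1
      have hne : 0 < Rad - u := by linarith
      have h7 : 0 ≤ C * (Rad - u) ^ (-1 - ε) := by positivity
      have h8 : ps ℝ (der (der (tr N))) u ≤ (C * (Rad - u) ^ (-1 - ε)) * CU :=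
        h2.trans (mul_le_mul h4 h3 h6 h7)
      have e1 : (CU * C / ε) * ((-1) * (-ε) * (Rad - u) ^ (-ε - 1)) =
          (C * (Rad - u) ^ (-1 - ε)) * CU := by
        rw [show -ε - 1 = -1 - ε by ring]
        field_simp
      linarith)
  simp only [ps_zero, der_tr_zero hN, sub_zero] at h1
  have h3 : 0 < Rad - t := by linarith
  have h4 : 0 ≤ (CU * C / ε) * Rad ^ (-ε) := by have := CU_pos; positivity
  have h5 : (1 : ℝ) ≤ Rad ^ ε * (Rad - t) ^ (-ε) := by
    have h6 : (Rad - t) ^ (-ε) = ((Rad - t) ^ ε)⁻¹ := Real.rpow_neg h3.le ε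
    rw [h6, ← div_eq_mul_inv, one_le_div (by positivity)]
    exact Real.rpow_le_rpow h3.le (by linarith) hε.le
  nlinarith

theorem trunc_diff_le {ε : ℝ} (hε : 0 < ε) (hε1 : ε < 1) : ∃ C : ℝ, 0 < C ∧ ∀ N, 2 ≤ N →
    ∀ t s, 0 ≤ t → t ≤ s → s ≤ Rad → t < Rad →
    ps ℝ (tr N) s - ps ℝ (tr N) t ≤ C * (Rad - t) ^ (1 - ε) := by
  obtain ⟨C, hC, hd⟩ := trunc_deriv_le hε
  have h1ε : 0 < 1 - ε := by linarith
  refine ⟨C / (1 - ε), by positivity, ?_⟩
  intro N hN t s h0 hts hs htR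
  have key : ∀ s, t ≤ s → s < Rad → ps ℝ (tr N) s - ps ℝ (tr N) t ≤
      C / (1 - ε) * (Rad - t) ^ (1 - ε) := by
    intro s hts hsR
    have h1 := anti_of_hasDerivAt
      (f := fun t => ps ℝ (tr N) t + (C / (1 - ε)) * (Rad - t) ^ (1 - ε))
      (f' := fun t => ps ℝ (der (tr N)) t +
        (C / (1 - ε)) * ((-1) * (1 - ε) * (Rad - t) ^ (1 - ε - 1))) hts
      (fun u hu => by
        have hu2 := lt_of_le_of_lt hu.2 hsR
        have hne : 0 < Rad - u := by linarith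
        exact (hasDerivAt_fin (tr_fin N) u).add
          ((((hasDerivAt_id u).const_sub Rad).rpow_const (Or.inl hne.ne')).const_mul _))
      (fun u hu => by
        have hu2 := lt_of_le_of_lt hu.2 hsR
        have h2 := hd N hN u (h0.trans hu.1) hu2
        have e1 : (C / (1 - ε)) * ((-1) * (1 - ε) * (Rad - u) ^ (1 - ε - 1)) =
            -(C * (Rad - u) ^ (-ε)) := by
          rw [show 1 - ε - 1 = -ε by ring]
          field_simp
        linarith)
    have h3 : 0 < Rad - s := by linarith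
    have h4 : 0 ≤ C / (1 - ε) * (Rad - s) ^ (1 - ε) := by positivity
    linarith
  rcases lt_or_eq_of_le hs with h2 | h2
  · exact key s hts h2
  · rw [h2]
    exact le_at_Rad (f := fun s => ps ℝ (tr N) s - ps ℝ (tr N) t)
      ((continuous_fin (tr_fin N)).sub continuous_const) htR (fun x hx1 hx2 => key x hx1 hx2)

theorem tendsto_trunc {t : ℝ} (h0 : 0 ≤ t) (h : t ≤ Rad) :
    Filter.Tendsto (fun N => ps ℝ (tr N) t) Filter.atTop (nhds (ps ℝ (uy 1) t)) := by
  have hs : Summable fun n => uy 1 n * t ^ n := by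
    refine Summable.of_nonneg_of_le (fun n => mul_nonneg (uy_nonneg n) (pow_nonneg h0 n))
      (fun n => ?_) summable_uy
    exact mul_le_mul_of_nonneg_left (pow_le_pow_left₀ h0 h n) (uy_nonneg n)
  simp only [ps_tr]
  exact hs.hasSum.tendsto_sum_nat

/-- Hölder bound for the majorant at the end point -/
theorem U_diff_le {ε : ℝ} (hε : 0 < ε) (hε1 : ε < 1) : ∃ C : ℝ, 0 < C ∧
    ∀ t, 0 ≤ t → t < Rad → ps ℝ (uy 1) Rad - ps ℝ (uy 1) t ≤ C * (Rad - t) ^ (1 - ε) := by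
  obtain ⟨C, hC, hd⟩ := trunc_diff_le hε hε1
  refine ⟨C, hC, ?_⟩
  intro t h0 h
  refine le_of_tendsto ((tendsto_trunc Rad_pos.le le_rfl).sub (tendsto_trunc h0 h.le)) ?_
  filter_upwards [Filter.eventually_ge_atTop 2] with N hN
  exact hd N hN t Rad h0 h.le le_rfl h

/-- derivative bound for the majorant -/
theorem U_deriv_le {ε : ℝ} (hε : 0 < ε) : ∃ C : ℝ, 0 < C ∧
    ∀ t, 0 ≤ t → t < Rad → ps ℝ (der (uy 1)) t ≤ C * (Rad - t) ^ (-ε) := by
  obtain ⟨C, hC, hd⟩ := trunc_deriv_le hε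
  refine ⟨C, hC, ?_⟩
  intro t h0 h
  have h1R : 0 < Rad - t := by linarith
  unfold ps
  refine Real.tsum_le_of_sum_range_le (fun n => ?_) (fun N => ?_)
  · exact mul_nonneg (der_nonneg uy_nonneg n) (pow_nonneg h0 n)
  · have h1 := hd (N + 2) (by omega) t h0 h
    refine le_trans ?_ h1
    rw [ps_fin_eq (der_fin (tr_fin (N + 2)))]
    have h2 : ∑ n ∈ range N, der (uy 1) n * t ^ n =
        ∑ n ∈ range N, der (tr (N + 2)) n * t ^ n := by
      refine Finset.sum_congr rfl (fun n hn => ?_)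
      rw [Finset.mem_range] at hn
      unfold der tr
      rw [if_pos (by omega)]
    refine (le_of_eq h2).trans ?_
    exact Finset.sum_le_sum_of_subset_of_nonneg (Finset.range_subset_range.mpr (by omega))
      (fun n _ _ => mul_nonneg (der_nonneg (tr_nonneg _) n) (pow_nonneg h0 n))

end Pool.Agent.Sorted94
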