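import Pool.Agent.Sorted94.Path

/-! Estimates for `y`, `q` and `N = y - (R - z) q` on the disc. -/

namespace Pool.Agent.Sorted94

open Set

/-- complex `q` -/
noncomputable def qc (z : ℂ) : ℂ := ps ℂ (V 0) z * ps ℂ (uy (-1)) z
/-- complex `κ` -/
noncomputable def kc (z : ℂ) : ℂ := ps ℂ (D 1) z * ps ℂ (uy (-1)) z
/-- the error function -/
noncomputable def Nc (z : ℂ) : ℂ := ps ℂ (uy (-1)) z - ((Rad : ℂ) - z) * qc z
/-- `y/(R-z)` -/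
noncomputable def fc (z : ℂ) : ℂ := ps ℂ (uy (-1)) z / ((Rad : ℂ) - z)

theorem hasDerivAt_Yq {z : ℂ} (hz : ‖z‖ < Rad) : HasDerivAt (ps ℂ (uy (-1))) (-(qc z)) z :=
  (hasDerivAt_Y hz).congr_deriv (Y_eq_exp hz).2

theorem hasDerivAt_qc {z : ℂ} (hz : ‖z‖ < Rad) : HasDerivAt qc (-(kc z)) z := by
  refine ((hasDerivAt_w hz).mul (hasDerivAt_Yq hz)).congr_deriv ?_
  unfold qc kc
  ring

theorem hasDerivAt_Nc {z : ℂ} (hz : ‖z‖ < Rad) :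
    HasDerivAt Nc (((Rad : ℂ) - z) * kc z) z := by
  refine ((hasDerivAt_Yq hz).sub (((hasDerivAt_id z).const_sub (Rad : ℂ)).mul
    (hasDerivAt_qc hz))).congr_deriv ?_
  simp only [id]
  ring

theorem Rad_sub_ne {z : ℂ} (hz : ‖z‖ < Rad) : (Rad : ℂ) - z ≠ 0 := by
  rw [sub_ne_zero]
  intro h
  rw [← h, Complex.norm_real, Real.norm_of_nonneg Rad_pos.le] at hz
  exact lt_irrefl _ hz

theorem hasDerivAt_fc {z : ℂ} (hz : ‖z‖ < Rad) :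
    HasDerivAt fc (Nc z / ((Rad : ℂ) - z) ^ 2) z := by
  refine ((hasDerivAt_Yq hz).div ((hasDerivAt_id z).const_sub (Rad : ℂ))
    (Rad_sub_ne hz)).congr_deriv ?_
  unfold Nc
  simp only [id]
  ring

theorem h_le_delta (z : ℂ) : Rad - ‖z‖ ≤ ‖(Rad : ℂ) - z‖ := by
  have h1 : ‖(Rad : ℂ)‖ ≤ ‖(Rad : ℂ) - z‖ + ‖z‖ := by
    have := norm_add_le ((Rad : ℂ) - z) z
    simpa using this
  rw [Complex.norm_real, Real.norm_of_nonneg Rad_pos.le] at h1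
  linarith

theorem Y_bound {ε : ℝ} (hε : 0 < ε) (hε1 : ε < 1) : ∃ C : ℝ, 0 < C ∧ ∀ z : ℂ, ‖z‖ < Rad →
    ‖ps ℂ (uy (-1)) z‖ ≤ C * ‖(Rad : ℂ) - z‖ * (Rad - ‖z‖) ^ (-ε) := by
  obtain ⟨C, hC, hU⟩ := U_diff_le hε hε1
  refine ⟨C, hC, ?_⟩
  intro z hz
  have h1 : 0 < Rad - ‖z‖ := by linarith
  refine (Y_norm_le hz).trans ?_
  have h2 := hU ‖z‖ (norm_nonneg z) hz
  have h3 : (ps ℝ (uy 1) Rad - ps ℝ (uy 1) ‖z‖) / (Rad - ‖z‖) ≤ C * (Rad - ‖z‖) ^ (-ε) := by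
    rw [div_le_iff₀ h1]
    refine h2.trans (le_of_eq ?_)
    rw [show (1 - ε) = (-ε) + 1 by ring, Real.rpow_add_one h1.ne']
    ring
  calc ‖(Rad : ℂ) - z‖ * ((ps ℝ (uy 1) Rad - ps ℝ (uy 1) ‖z‖) / (Rad - ‖z‖))
      ≤ ‖(Rad : ℂ) - z‖ * (C * (Rad - ‖z‖) ^ (-ε)) :=
        mul_le_mul_of_nonneg_left h3 (norm_nonneg _)
    _ = _ := by ring

theorem q_bound {ε : ℝ} (hε : 0 < ε) : ∃ C : ℝ, 0 < C ∧ ∀ z : ℂ, ‖z‖ < Rad →
    ‖qc z‖ ≤ C * (Rad - ‖z‖) ^ (-ε) := by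
  obtain ⟨C, hC, hU⟩ := U_deriv_le hε
  refine ⟨C, hC, ?_⟩
  intro z hz
  have h1 : qc z = -(ps ℂ (der (uy (-1))) z) := by
    rw [(Y_eq_exp hz).2, neg_neg]; rfl
  rw [h1, norm_neg]
  obtain ⟨t, ht1, ht2⟩ := exists_between hz
  have ht0 : 0 ≤ t := (norm_nonneg z).trans ht1.le
  refine (norm_ps_le (b := der (uy 1)) (fun n => ?_) ?_).trans (hU ‖z‖ (norm_nonneg z) hz)
  · unfold der
    rw [abs_mul, abs_of_nonneg (show (0 : ℝ) ≤ (n : ℝ) + 1 by positivity)]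
    exact mul_le_mul_of_nonneg_left (uy_abs_le _) (by positivity)
  · have h2 : Summable fun n => |uy 1 n| * Rad ^ n :=
      summable_uy.congr (fun n => by rw [abs_of_nonneg (uy_nonneg n)])
    refine (summable_der (norm_nonneg z) hz h2).congr (fun n => ?_)
    rw [abs_of_nonneg (der_nonneg uy_nonneg n)]

theorem d_bound {ε : ℝ} (hε : 0 < ε) : ∃ C : ℝ, 0 < C ∧ ∀ z : ℂ, ‖z‖ < Rad →
    ‖ps ℂ (D 1) z‖ ≤ C * (Rad - ‖z‖) ^ (-1 - ε) := by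
  obtain ⟨C, hC, hd⟩ := dr_le hε
  refine ⟨C, hC, ?_⟩
  intro z hz
  refine (norm_ps_le (b := D 1) (fun n => ?_) ?_).trans (hd ‖z‖ (norm_nonneg z) hz)
  · rw [abs_of_nonneg (D_nonneg 1 n)]
  · exact (Sm_of_lt_Rad (norm_nonneg z) hz).sD 1

theorem kc_bound : ∃ C : ℝ, 0 < C ∧ ∀ z : ℂ, ‖z‖ < Rad →
    ‖kc z‖ ≤ C * ‖(Rad : ℂ) - z‖ * (Rad - ‖z‖) ^ (-(5 / 4) : ℝ) := by
  obtain ⟨C1, hC1, h1⟩ := Y_bound (ε := 1 / 8) (by norm_num) (by norm_num)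
  obtain ⟨C2, hC2, h2⟩ := d_bound (ε := 1 / 8) (by norm_num)
  refine ⟨C1 * C2, by positivity, ?_⟩
  intro z hz
  have hh : 0 < Rad - ‖z‖ := by linarith
  unfold kc
  rw [norm_mul]
  have h3 := h1 z hz
  have h4 := h2 z hz
  have e1 : (Rad - ‖z‖) ^ (-(5 / 4) : ℝ) =
      (Rad - ‖z‖) ^ (-1 - 1 / 8 : ℝ) * (Rad - ‖z‖) ^ (-(1 / 8) : ℝ) := by
    rw [← Real.rpow_add hh]; norm_num
  calc ‖ps ℂ (D 1) z‖ * ‖ps ℂ (uy (-1)) z‖
      ≤ (C2 * (Rad - ‖z‖) ^ (-1 - 1 / 8 : ℝ)) *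
          (C1 * ‖(Rad : ℂ) - z‖ * (Rad - ‖z‖) ^ (-(1 / 8) : ℝ)) :=
        mul_le_mul h4 h3 (norm_nonneg _) (by positivity)
    _ = _ := by rw [e1]; ring

/-- on the real axis -/
theorem Nr_bound : ∃ C : ℝ, 0 < C ∧ ∀ x : ℝ, 0 ≤ x → x < Rad →
    |yr x - (Rad - x) * (ps ℝ (V 0) x * yr x)| ≤ C * (Rad - x) ^ (7 / 4 : ℝ) := by
  have hR := Rad_pos
  have hq := qs_pos
  set C : ℝ := qs ^ (-(1 / 4) : ℝ) / (1 / 4) with hC
  have hCpos : 0 < C := by positivity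
  have hk : ∀ x, 0 ≤ x → x < Rad → ps ℝ (D 1) x * yr x ≤ C * (Rad - x) ^ (-(1 / 4) : ℝ) := by
    intro x h0 h
    have h1 : 0 < Rad - x := by linarith
    refine (kap_le h0 h).trans ((th_le (ε := 1 / 4) (by norm_num) h0 h).trans (le_of_eq ?_))
    rw [Real.mul_rpow hq.le h1.le, hC]
    ring
  have hder : ∀ x, 0 ≤ x → x < Rad → HasDerivAt
      (fun x => yr x - (Rad - x) * (ps ℝ (V 0) x * yr x))
      ((Rad - x) * (ps ℝ (D 1) x * yr x)) x := by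
    intro x h0 h
    refine ((hasDerivAt_yr h0 h).sub (((hasDerivAt_id x).const_sub Rad).mul
      (hasDerivAt_q h0 h))).congr_deriv ?_
    simp only [id]
    ring
  have hsmall : ∀ x, 0 ≤ x → x < Rad →
      |yr x - (Rad - x) * (ps ℝ (V 0) x * yr x)| ≤ (Rad - x) * (1 / Rad + 1) := by
    intro x h0 h
    have h1 := yr_le h0 h
    have h2 := yr_pos x
    have h3 := q_le_one h0 h
    have h4 := qs_le h0 h
    have h5 : 0 < Rad - x := by linarith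
    have h6 : (Rad - x) / Rad = (Rad - x) * (1 / Rad) := by ring
    rw [abs_le]
    constructor <;> nlinarith
  -- monotone
  refine ⟨C, hCpos, ?_⟩
  intro x h0 h
  have hx : 0 < Rad - x := by linarith
  have hup : yr x - (Rad - x) * (ps ℝ (V 0) x * yr x) ≤ 0 := by
    by_contra hcon
    push Not at hcon
    set η := yr x - (Rad - x) * (ps ℝ (V 0) x * yr x) with hη
    have h1 : ∀ s, x ≤ s → s < Rad → η ≤ (Rad - s) * (1 / Rad + 1) := by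
      intro s hs1 hs2
      have h2 := mono_of_hasDerivAt
        (f := fun x => yr x - (Rad - x) * (ps ℝ (V 0) x * yr x))
        (f' := fun x => (Rad - x) * (ps ℝ (D 1) x * yr x)) hs1
        (fun u hu => hder u (h0.trans hu.1) (lt_of_le_of_lt hu.2 hs2))
        (fun u hu => by
          have hu2 := lt_of_le_of_lt hu.2 hs2
          have h3 : 0 < Rad - u := by linarith
          have h4 : 0 ≤ ps ℝ (D 1) u := ps_real_nonneg (D_nonneg 1) (h0.trans hu.1)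
          have h5 := yr_pos u
          positivity)
      have h3 := hsmall s (h0.trans hs1) hs2
      exact h2.trans ((le_abs_self _).trans h3)
    have h2 := le_at_Rad (f := fun s => η - (Rad - s) * (1 / Rad + 1)) (C := 0) (by fun_prop) h
      (fun s hs1 hs2 => by have := h1 s hs1 hs2; linarith)
    simp only [sub_self, zero_mul, sub_zero] at h2
    linarith
  have hlow : -(C * (Rad - x) ^ (7 / 4 : ℝ)) ≤ yr x - (Rad - x) * (ps ℝ (V 0) x * yr x) := by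
    have h1 : ∀ s, x ≤ s → s < Rad → -((Rad - s) * (1 / Rad + 1)) ≤
        (yr x - (Rad - x) * (ps ℝ (V 0) x * yr x)) + C * (Rad - x) ^ (7 / 4 : ℝ) := by
      intro s hs1 hs2
      have h2 := anti_of_hasDerivAt
        (f := fun x => (yr x - (Rad - x) * (ps ℝ (V 0) x * yr x)) + C * (Rad - x) ^ (7 / 4 : ℝ))
        (f' := fun x => (Rad - x) * (ps ℝ (D 1) x * yr x) +
          C * ((-1) * (7 / 4 : ℝ) * (Rad - x) ^ ((7 / 4 : ℝ) - 1))) hs1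
        (fun u hu => by
          have hu2 := lt_of_le_of_lt hu.2 hs2
          have hne : 0 < Rad - u := by linarith
          exact (hder u (h0.trans hu.1) hu2).add
            ((((hasDerivAt_id u).const_sub Rad).rpow_const (Or.inl hne.ne')).const_mul _))
        (fun u hu => by
          have hu2 := lt_of_le_of_lt hu.2 hs2
          have hne : 0 < Rad - u := by linarith
          have h3 := hk u (h0.trans hu.1) hu2
          have e1 : (Rad - u) ^ ((7 / 4 : ℝ) - 1) = (Rad - u) * (Rad - u) ^ (-(1 / 4) : ℝ) := by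
            rw [show (7 / 4 : ℝ) - 1 = -(1 / 4) + 1 by norm_num, Real.rpow_add_one hne.ne']
            ring
          rw [e1]
          have h4 : 0 < (Rad - u) ^ (-(1 / 4) : ℝ) := Real.rpow_pos_of_pos hne _
          have h5 : (Rad - u) * (ps ℝ (D 1) u * yr u) ≤
              (Rad - u) * (C * (Rad - u) ^ (-(1 / 4) : ℝ)) :=
            mul_le_mul_of_nonneg_left h3 hne.le
          have h6 : 0 < C * ((Rad - u) * (Rad - u) ^ (-(1 / 4) : ℝ)) := by positivity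
          nlinarith)
      have h3 := hsmall s (h0.trans hs1) hs2
      have h4 : 0 < Rad - s := by linarith
      have h5 : 0 ≤ C * (Rad - s) ^ (7 / 4 : ℝ) := by positivity
      have h6 := (abs_le.mp h3).1
      linarith
    have h2 := le_at_Rad (f := fun s => -((Rad - s) * (1 / Rad + 1)))
      (C := (yr x - (Rad - x) * (ps ℝ (V 0) x * yr x)) + C * (Rad - x) ^ (7 / 4 : ℝ))
      (by fun_prop) h h1
    simp only [sub_self, zero_mul, neg_zero] at h2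
    linarith
  rw [abs_le]
  exact ⟨hlow, hup.trans (by positivity)⟩

theorem Nc_real {x : ℝ} (h0 : 0 ≤ x) (h : x < Rad) :
    Nc ((x : ℝ) : ℂ) = ((yr x - (Rad - x) * (ps ℝ (V 0) x * yr x) : ℝ) : ℂ) := by
  unfold Nc qc
  have h3 : ps ℂ (uy (-1)) ((x : ℝ) : ℂ) = ((ps ℝ (uy (-1)) x : ℝ) : ℂ) := ps_ofReal (𝕜 := ℂ) _ x
  have h4 : ps ℂ (V 0) ((x : ℝ) : ℂ) = ((ps ℝ (V 0) x : ℝ) : ℂ) := ps_ofReal (𝕜 := ℂ) _ x
  rw [h3, h4, Y_real h0 h]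
  push_cast
  ring

theorem fc_real {x : ℝ} (h0 : 0 ≤ x) (h : x < Rad) : qs ≤ ‖fc ((x : ℝ) : ℂ)‖ := by
  unfold fc
  have h3 : ps ℂ (uy (-1)) ((x : ℝ) : ℂ) = ((ps ℝ (uy (-1)) x : ℝ) : ℂ) := ps_ofReal (𝕜 := ℂ) _ x
  have h5 : 0 < Rad - x := by linarith
  rw [h3, Y_real h0 h, norm_div, Complex.norm_real, ← Complex.ofReal_sub, Complex.norm_real,
    Real.norm_of_nonneg (yr_pos x).le, Real.norm_of_nonneg h5.le, le_div_iff₀ h5]
  exact yr_ge h0 h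

theorem rpow_anti {a b c : ℝ} (ha : 0 < a) (hab : a ≤ b) (hc : 0 ≤ c) : b ^ (-c) ≤ a ^ (-c) := by
  rw [Real.rpow_neg (ha.le.trans hab), Real.rpow_neg ha.le]
  exact inv_anti₀ (Real.rpow_pos_of_pos ha c) (Real.rpow_le_rpow ha.le hab hc)

/-- the key bound -/
theorem Nc_bound : ∃ C : ℝ, 0 < C ∧ ∀ z : ℂ, ‖z‖ < Rad →
    ‖Nc z‖ ≤ C * ‖(Rad : ℂ) - z‖ ^ 2 * (Rad - ‖z‖) ^ (-(1 / 4) : ℝ) := by
  have hR := Rad_pos
  obtain ⟨C1, hC1, hk⟩ := kc_bound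
  obtain ⟨C2, hC2, hN⟩ := Nr_bound
  obtain ⟨C3, hC3, hY⟩ := Y_bound (ε := 1 / 4) (by norm_num) (by norm_num)
  obtain ⟨C4, hC4, hq⟩ := q_bound (ε := 1 / 4) (by norm_num)
  refine ⟨28 * C1 + C2 + (C3 + C4) / Rad, by positivity, ?_⟩
  intro z hz
  have hh : 0 < Rad - ‖z‖ := by linarith
  set δ := ‖(Rad : ℂ) - z‖ with hδ
  have hδ0 : 0 < δ := by rw [hδ]; exact norm_pos_iff.mpr (Rad_sub_ne hz)
  have hhδ : Rad - ‖z‖ ≤ δ := h_le_delta z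
  have hp : 0 < (Rad - ‖z‖) ^ (-(1 / 4) : ℝ) := Real.rpow_pos_of_pos hh _
  rcases lt_or_ge δ Rad with hlt | hge
  · -- path
    have h1 := path_bound (F := Nc) (F' := fun p => ((Rad : ℂ) - p) * kc p)
      (B := fun s => 16 * C1 * δ ^ 2 * (Rad - s) ^ (-(1 / 4) : ℝ))
      (b := fun s => 4 * C1 * δ ^ 2 * (Rad - s) ^ (-(5 / 4) : ℝ))
      (fun p hp => hasDerivAt_Nc hp) hz hδ.symm hlt
      (fun p s hps hs1 hs2 hp2 => by
        have hp3 : ‖p‖ < Rad := lt_of_le_of_lt hps hs2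
        have h3 := hk p hp3
        have h4 : 0 < Rad - s := by linarith
        rw [norm_mul]
        have h5 : (Rad - ‖p‖) ^ (-(5 / 4) : ℝ) ≤ (Rad - s) ^ (-(5 / 4) : ℝ) :=
          rpow_anti h4 (by linarith) (by norm_num)
        have h6 : 0 ≤ (Rad - ‖p‖) ^ (-(5 / 4) : ℝ) := by
          apply Real.rpow_nonneg; linarith
        calc ‖(Rad : ℂ) - p‖ * ‖kc p‖
            ≤ ‖(Rad : ℂ) - p‖ * (C1 * ‖(Rad : ℂ) - p‖ * (Rad - ‖p‖) ^ (-(5 / 4) : ℝ)) :=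
              mul_le_mul_of_nonneg_left h3 (norm_nonneg _)
          _ = C1 * (‖(Rad : ℂ) - p‖ ^ 2 * (Rad - ‖p‖) ^ (-(5 / 4) : ℝ)) := by ring
          _ ≤ C1 * ((2 * δ) ^ 2 * (Rad - s) ^ (-(5 / 4) : ℝ)) := by
              gcongr
          _ = _ := by ring)
      (fun s hs1 hs2 => by
        have h4 : 0 < Rad - s := by linarith
        refine ((((hasDerivAt_id s).const_sub Rad).rpow_const
          (p := (-(1 / 4) : ℝ)) (Or.inl h4.ne')).const_mul _).congr_deriv ?_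
        rw [show (-(1 / 4) : ℝ) - 1 = -(5 / 4) by norm_num]
        simp only [id]
        ring)
    have h2 : ‖Nc (((Rad - δ : ℝ)) : ℂ)‖ ≤ C2 * δ ^ (7 / 4 : ℝ) := by
      rw [Nc_real (by linarith) (by linarith), Complex.norm_real, Real.norm_eq_abs]
      have := hN (Rad - δ) (by linarith) (by linarith)
      rw [sub_sub_cancel] at this ⊢
      exact this
    have h3 : ‖Nc z‖ ≤ ‖Nc z - Nc (((Rad - δ : ℝ)) : ℂ)‖ + ‖Nc (((Rad - δ : ℝ)) : ℂ)‖ := by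
      have := norm_add_le (Nc z - Nc (((Rad - δ : ℝ)) : ℂ)) (Nc (((Rad - δ : ℝ)) : ℂ))
      simpa using this
    simp only [sub_sub_cancel] at h1
    have e1 : δ ^ (7 / 4 : ℝ) = δ ^ 2 * δ ^ (-(1 / 4) : ℝ) := by
      rw [← Real.rpow_natCast, ← Real.rpow_add hδ0]; norm_num
    have e2 : δ * δ ^ (-(5 / 4) : ℝ) = δ ^ (-(1 / 4) : ℝ) := by
      rw [show (-(1 / 4) : ℝ) = -(5 / 4) + 1 by norm_num, Real.rpow_add_one hδ0.ne']
      ring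
    have h4 : δ ^ (-(1 / 4) : ℝ) ≤ (Rad - ‖z‖) ^ (-(1 / 4) : ℝ) :=
      rpow_anti hh hhδ (by norm_num)
    have h5 : 0 ≤ δ ^ (-(1 / 4) : ℝ) := by positivity
    have h6 : 3 * δ * (4 * C1 * δ ^ 2 * δ ^ (-(5 / 4) : ℝ)) = 12 * C1 * δ ^ 2 * δ ^ (-(1 / 4) : ℝ) := by
      rw [← e2]; ring
    rw [h6] at h1
    rw [e1] at h2
    have h7 : 12 * C1 * δ ^ 2 * δ ^ (-(1 / 4) : ℝ) ≤ 12 * C1 * δ ^ 2 * (Rad - ‖z‖) ^ (-(1 / 4) : ℝ) :=
      mul_le_mul_of_nonneg_left h4 (by positivity)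
    have h8 : C2 * (δ ^ 2 * δ ^ (-(1 / 4) : ℝ)) ≤ C2 * (δ ^ 2 * (Rad - ‖z‖) ^ (-(1 / 4) : ℝ)) := by
      gcongr
    have h9 : 0 ≤ 16 * C1 * δ ^ 2 * δ ^ (-(1 / 4) : ℝ) := by positivity
    have h10 : 0 ≤ (C3 + C4) / Rad * δ ^ 2 * (Rad - ‖z‖) ^ (-(1 / 4) : ℝ) := by positivity
    calc ‖Nc z‖ ≤ 12 * C1 * δ ^ 2 * (Rad - ‖z‖) ^ (-(1 / 4) : ℝ) +
          16 * C1 * δ ^ 2 * (Rad - ‖z‖) ^ (-(1 / 4) : ℝ) +
          C2 * (δ ^ 2 * (Rad - ‖z‖) ^ (-(1 / 4) : ℝ)) := by linarith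
      _ ≤ _ := by nlinarith
  · have h1 := hY z hz
    have h2 := hq z hz
    have h3 : ‖Nc z‖ ≤ ‖ps ℂ (uy (-1)) z‖ + δ * ‖qc z‖ := by
      unfold Nc
      refine (norm_sub_le _ _).trans ?_
      rw [norm_mul]
    have h4 : δ * ‖qc z‖ ≤ δ * (C4 * (Rad - ‖z‖) ^ (-(1 / 4) : ℝ)) :=
      mul_le_mul_of_nonneg_left h2 hδ0.le
    have h5 : δ ≤ δ ^ 2 / Rad := by
      rw [le_div_iff₀ hR]; nlinarith
    have h6 : 0 ≤ (28 * C1 + C2) * δ ^ 2 * (Rad - ‖z‖) ^ (-(1 / 4) : ℝ) := by positivity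
    calc ‖Nc z‖ ≤ (C3 + C4) * δ * (Rad - ‖z‖) ^ (-(1 / 4) : ℝ) := by linarith
      _ ≤ (C3 + C4) * (δ ^ 2 / Rad) * (Rad - ‖z‖) ^ (-(1 / 4) : ℝ) := by gcongr
      _ ≤ _ := by
        have e : (C3 + C4) * (δ ^ 2 / Rad) * (Rad - ‖z‖) ^ (-(1 / 4) : ℝ) =
          (C3 + C4) / Rad * δ ^ 2 * (Rad - ‖z‖) ^ (-(1 / 4) : ℝ) := by ring
        rw [e]; linarith

/-- near the singularity `f` is bounded below -/
theorem fc_near : ∃ δ₀ : ℝ, 0 < δ₀ ∧ ∀ z : ℂ, ‖z‖ < Rad → ‖(Rad : ℂ) - z‖ < δ₀ →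
    qs / 2 ≤ ‖fc z‖ := by
  have hR := Rad_pos
  have hq := qs_pos
  obtain ⟨C, hC, hN⟩ := Nc_bound
  set δ₀ : ℝ := min Rad ((qs / (10 * C)) ^ (4 / 3 : ℝ)) with hδ₀
  refine ⟨δ₀, lt_min hR (by positivity), ?_⟩
  intro z hz hzδ
  have hh : 0 < Rad - ‖z‖ := by linarith
  set δ := ‖(Rad : ℂ) - z‖ with hδ
  have hδ0 : 0 < δ := by rw [hδ]; exact norm_pos_iff.mpr (Rad_sub_ne hz)
  have hlt : δ < Rad := lt_of_lt_of_le hzδ (min_le_left _ _)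
  have hf' : ∀ p : ℂ, ‖p‖ < Rad → ‖Nc p / ((Rad : ℂ) - p) ^ 2‖ ≤
      C * (Rad - ‖p‖) ^ (-(1 / 4) : ℝ) := by
    intro p hp
    have h1 : 0 < ‖(Rad : ℂ) - p‖ := norm_pos_iff.mpr (Rad_sub_ne hp)
    rw [norm_div, norm_pow, div_le_iff₀ (by positivity)]
    refine (hN p hp).trans (le_of_eq ?_)
    ring
  have h1 := path_bound (F := fc) (F' := fun p => Nc p / ((Rad : ℂ) - p) ^ 2)
    (B := fun s => -(4 / 3) * C * (Rad - s) ^ (3 / 4 : ℝ))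
    (b := fun s => C * (Rad - s) ^ (-(1 / 4) : ℝ))
    (fun p hp => hasDerivAt_fc hp) hz hδ.symm hlt
    (fun p s hps hs1 hs2 hp2 => by
      have hp3 : ‖p‖ < Rad := lt_of_le_of_lt hps hs2
      have h4 : 0 < Rad - s := by linarith
      refine (hf' p hp3).trans ?_
      have h5 : (Rad - ‖p‖) ^ (-(1 / 4) : ℝ) ≤ (Rad - s) ^ (-(1 / 4) : ℝ) :=
        rpow_anti h4 (by linarith) (by norm_num)
      exact mul_le_mul_of_nonneg_left h5 hC.le)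
    (fun s hs1 hs2 => by
      have h4 : 0 < Rad - s := by linarith
      refine ((((hasDerivAt_id s).const_sub Rad).rpow_const
        (p := (3 / 4 : ℝ)) (Or.inl h4.ne')).const_mul _).congr_deriv ?_
      rw [show (3 / 4 : ℝ) - 1 = -(1 / 4) by norm_num]
      simp only [id]
      ring)
  simp only [sub_sub_cancel] at h1
  have e2 : δ * δ ^ (-(1 / 4) : ℝ) = δ ^ (3 / 4 : ℝ) := by
    rw [show (3 / 4 : ℝ) = -(1 / 4) + 1 by norm_num, Real.rpow_add_one hδ0.ne']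
    ring
  have h2 : 3 * δ * (C * δ ^ (-(1 / 4) : ℝ)) = 3 * C * δ ^ (3 / 4 : ℝ) := by
    rw [← e2]; ring
  rw [h2] at h1
  have h3 : 0 ≤ C * (Rad - ‖z‖) ^ (3 / 4 : ℝ) := by positivity
  have h4 : ‖fc z - fc (((Rad - δ : ℝ)) : ℂ)‖ ≤ 5 * C * δ ^ (3 / 4 : ℝ) := by
    have h5 : 0 ≤ C * δ ^ (3 / 4 : ℝ) := by positivity
    linarith
  have h5 : δ ^ (3 / 4 : ℝ) ≤ qs / (10 * C) := by
    have h6 : δ ≤ (qs / (10 * C)) ^ (4 / 3 : ℝ) := hzδ.le.trans (min_le_right _ _)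
    have h7 := Real.rpow_le_rpow hδ0.le h6 (show (0 : ℝ) ≤ 3 / 4 by norm_num)
    rw [← Real.rpow_mul (by positivity)] at h7
    norm_num at h7
    exact h7
  have h6 : 5 * C * δ ^ (3 / 4 : ℝ) ≤ qs / 2 := by
    calc 5 * C * δ ^ (3 / 4 : ℝ) ≤ 5 * C * (qs / (10 * C)) := by gcongr
      _ = qs / 2 := by field_simp; norm_num
  have h7 := fc_real (x := Rad - δ) (by linarith) (by linarith)
  have h8 : ‖fc (((Rad - δ : ℝ)) : ℂ)‖ ≤ ‖fc z‖ + ‖fc z - fc (((Rad - δ : ℝ)) : ℂ)‖ := by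
    have := norm_sub_le (fc z) (fc z - fc (((Rad - δ : ℝ)) : ℂ))
    simpa using this
  linarith

end Pool.Agent.Sorted94
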