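import Pool.Agent.Sorted94.Count

/-! The numbers of nested lists and the numbers of sorted permutations. -/

namespace Pool.Agent.Sorted94

open T

/-- number of nested lists of length `m` on `n` labels -/
noncomputable def cnt (m n : ℕ) : ℕ := (vF m (Finset.range n)).card

theorem sum_powerset_split (A : Finset ℕ) (f g : ℕ → ℕ) :
    ∑ I ∈ A.powerset, f I.card * g (A \ I).card =
      ∑ i ∈ Finset.range (A.card + 1), (A.card.choose i) * (f i * g (A.card - i)) := by
  have h1 := Finset.sum_powerset_apply_card (x := A) (fun i => f i * g (A.card - i))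
  simp only [smul_eq_mul] at h1
  rw [← h1]
  refine Finset.sum_congr rfl ?_
  intro I hI
  rw [Finset.mem_powerset] at hI
  rw [Finset.card_sdiff_of_subset hI]

theorem card_vF_eq : ∀ (n m : ℕ) (A B : Finset ℕ), A.card = n → B.card = n →
    (vF m A).card = (vF m B).card := by
  intro n
  induction n using Nat.strong_induction_on with
  | _ n ih =>
    intro m
    induction m with
    | zero =>
      intro A B hA hB
      by_cases hn : n = 0
      · subst hn
        rw [Finset.card_eq_zero] at hA hB
        rw [hA, hB]
      · rw [card_vF_zero_of_nonempty A (Finset.card_pos.mp (by omega)),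
          card_vF_zero_of_nonempty B (Finset.card_pos.mp (by omega))]
    | succ m ihm =>
      intro A B hA hB
      by_cases hn : n = 0
      · subst hn
        rw [Finset.card_eq_zero] at hA hB
        rw [hA, hB]
      · have key : ∀ A : Finset ℕ, A.card = n → ∃ A' : Finset ℕ, A'.card = n - 1 ∧
            (vF (m + 1) A).card + (vF (m + 2) A').card =
              (vF m A).card + (vF (m + 1) A').card +
              ∑ I ∈ A'.powerset, (vF 1 I).card * (vF (m + 1) (A' \ I)).card := by
          intro A hA
          have hne : A.Nonempty := Finset.card_pos.mp (by omega)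
          obtain ⟨x, hxA, hmax⟩ := A.exists_max_image id hne
          refine ⟨A.erase x, by rw [Finset.card_erase_of_mem hxA, hA], ?_⟩
          have := card_rec m (A.erase x) x (by
            intro a ha
            rw [Finset.mem_erase] at ha
            exact lt_of_le_of_ne (hmax a ha.2) ha.1)
          rwa [Finset.insert_erase hxA] at this
        obtain ⟨A', hA', eA⟩ := key A hA
        obtain ⟨B', hB', eB⟩ := key B hB
        have h1 := ih (n - 1) (by omega) (m + 2) A' B' hA' hB'
        have h2 := ih (n - 1) (by omega) (m + 1) A' B' hA' hB'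
        have h3 := ihm A B hA hB
        have h4 : ∀ C : Finset ℕ, C.card = n - 1 →
            ∑ I ∈ C.powerset, (vF 1 I).card * (vF (m + 1) (C \ I)).card =
            ∑ I ∈ C.powerset, (fun i => cnt 1 i) I.card * (fun i => cnt (m + 1) i) (C \ I).card := by
          intro C hC
          refine Finset.sum_congr rfl ?_
          intro I hI
          rw [Finset.mem_powerset] at hI
          have e1 : I.card ≤ n - 1 := by rw [← hC]; exact Finset.card_le_card hI
          have e2 : (C \ I).card ≤ n - 1 := by
            rw [← hC]; exact Finset.card_le_card Finset.sdiff_subset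
          have e3 := ih I.card (by omega) 1 I (Finset.range I.card) rfl (by simp)
          have e4 := ih (C \ I).card (by omega) (m + 1) (C \ I) (Finset.range (C \ I).card) rfl
            (by simp)
          simp only [cnt]
          rw [e3, e4]
        rw [h4 A' hA', sum_powerset_split] at eA
        rw [h4 B' hB', sum_powerset_split] at eB
        rw [hA'] at eA
        rw [hB'] at eB
        omega

theorem card_vF_cnt (m : ℕ) (A : Finset ℕ) : (vF m A).card = cnt m A.card :=
  card_vF_eq A.card m A (Finset.range A.card) rfl (by simp)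

theorem cnt_zero_zero : cnt 0 0 = 1 := by
  rw [cnt, Finset.range_zero]; exact card_vF_zero_empty

theorem cnt_zero_succ (n : ℕ) : cnt 0 (n + 1) = 0 := by
  rw [cnt]; exact card_vF_zero_of_nonempty _ (by simp)

theorem cnt_m_zero (m : ℕ) : cnt m 0 = 1 := by
  rw [cnt, Finset.range_zero]; exact card_vF_empty m

/-- the fundamental recurrence -/
theorem cnt_rec (m n : ℕ) :
    cnt (m + 1) (n + 1) + cnt (m + 2) n = cnt m (n + 1) + cnt (m + 1) n +
      ∑ i ∈ Finset.range (n + 1), n.choose i * (cnt 1 i * cnt (m + 1) (n - i)) := by
  have h := card_rec m (Finset.range n) n (by simp)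
  have h1 : insert n (Finset.range n) = Finset.range (n + 1) := by
    rw [Finset.range_add_one]
  rw [h1] at h
  have h2 : ∑ I ∈ (Finset.range n).powerset,
      (vF 1 I).card * (vF (m + 1) ((Finset.range n) \ I)).card =
      ∑ I ∈ (Finset.range n).powerset,
        (fun i => cnt 1 i) I.card * (fun i => cnt (m + 1) i) ((Finset.range n) \ I).card := by
    refine Finset.sum_congr rfl ?_
    intro I _
    rw [card_vF_cnt, card_vF_cnt]
  rw [h2, sum_powerset_split, Finset.card_range] at h
  exact h

theorem cnt_mono (m n : ℕ) : cnt (m + 1) n ≤ cnt (m + 2) n := by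
  rw [cnt, cnt, card_vF_succ_succ]; exact Nat.le_add_right _ _

theorem cnt_mono' (m n : ℕ) : cnt m n ≤ cnt (m + 1) n := by
  rw [cnt, cnt, card_vF_succ]; exact Nat.le_add_right _ _

/-- sorted words on the letters `1, …, n` -/
def sortedWords (n : ℕ) : Set (List ℕ) :=
  {σ | ∃ π : List ℕ, π.Perm (List.range' 1 n) ∧ stackSort π = σ}

/-- the number of sorted permutations -/
noncomputable def a (n : ℕ) : ℕ := (sortedWords n).ncard

theorem a_eq_cnt (n : ℕ) : a n = cnt 1 n := by
  have h1 : sortedWords n = post '' {t | Good t ∧ lab t = Finset.Icc 1 n} := by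
    ext σ
    constructor
    · rintro ⟨π, h1, h2⟩
      have hnd : π.Nodup := h1.nodup_iff.mpr (List.nodup_range' (s := 1) (n := n))
      obtain ⟨t, ht1, ht2, ht3⟩ := exists_good_of_word π.length π rfl hnd
      refine ⟨t, ⟨ht1, ?_⟩, by rw [ht3, h2]⟩
      rw [ht2]
      ext x
      rw [List.mem_toFinset, h1.mem_iff, List.mem_range'_1, Finset.mem_Icc]
      omega
    · rintro ⟨t, ⟨ht1, ht2⟩, rfl⟩
      obtain ⟨l, hl1, hl2, hl3⟩ := exists_word_of_good t ht1
      refine ⟨l, ?_, hl3⟩
      rw [List.perm_ext_iff_of_nodup hl1 (List.nodup_range' (s := 1) (n := n))]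
      intro x
      rw [← List.mem_toFinset, hl2, ht2, List.mem_range'_1, Finset.mem_Icc]
      omega
  rw [a, h1, Set.InjOn.ncard_image]
  · have h2 : {t | Good t ∧ lab t = Finset.Icc 1 n} = ((gF (Finset.Icc 1 n) : Finset T) : Set T) := by
      ext t
      rw [Finset.mem_coe, mem_gF]
      rfl
    rw [h2, Set.ncard_coe_finset, ← card_vF_one, card_vF_cnt]
    congr 1
    simp
  · rintro t ⟨ht, _⟩ t' ⟨ht', _⟩ h
    exact post_inj ht ht' h

end Pool.Agent.Sorted94
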