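import Mathlib

/-! Comparison arguments for the differential system of the generating functions. -/

namespace Pool.Agent.Sorted94

open Set

theorem mono_of_hasDerivAt {f f' : ℝ → ℝ} {a b : ℝ} (hab : a ≤ b)
    (h : ∀ x ∈ Icc a b, HasDerivAt f (f' x) x) (h' : ∀ x ∈ Icc a b, 0 ≤ f' x) : f a ≤ f b := by
  have hc : ContinuousOn f (Icc a b) := fun x hx => (h x hx).continuousAt.continuousWithinAt
  have hm : MonotoneOn f (Icc a b) := by
    refine monotoneOn_of_deriv_nonneg (convex_Icc a b) hc ?_ ?_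
    · intro x hx
      rw [interior_Icc] at hx
      exact (h x ⟨hx.1.le, hx.2.le⟩).differentiableAt.differentiableWithinAt
    · intro x hx
      rw [interior_Icc] at hx
      rw [(h x ⟨hx.1.le, hx.2.le⟩).deriv]
      exact h' x ⟨hx.1.le, hx.2.le⟩
  exact hm (left_mem_Icc.mpr hab) (right_mem_Icc.mpr hab) hab

theorem anti_of_hasDerivAt {f f' : ℝ → ℝ} {a b : ℝ} (hab : a ≤ b)
    (h : ∀ x ∈ Icc a b, HasDerivAt f (f' x) x) (h' : ∀ x ∈ Icc a b, f' x ≤ 0) : f b ≤ f a := by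
  have := mono_of_hasDerivAt (f := fun x => - f x) (f' := fun x => - f' x) hab
    (fun x hx => (h x hx).neg) (fun x hx => by have := h' x hx; linarith)
  linarith

/-- the differential system on `[z₀, t)` -/
structure Sys (w d e θ : ℝ → ℝ) (z₀ t : ℝ) : Prop where
  hw : ∀ z, z₀ ≤ z → z < t → HasDerivAt w (w z ^ 2 - d z) z
  hd : ∀ z, z₀ ≤ z → z < t → HasDerivAt d (w z ^ 2 + w z * d z - e z) z
  hθ : ∀ z, z₀ ≤ z → z < t → HasDerivAt θ (w z) z
  w_pos : ∀ z, z₀ ≤ z → z < t → 0 < w z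
  d_nn : ∀ z, z₀ ≤ z → z < t → 0 ≤ d z
  e_nn : ∀ z, z₀ ≤ z → z < t → 0 ≤ e z
  de : ∀ z, z₀ ≤ z → z < t → d z ≤ e z

variable {w d e θ : ℝ → ℝ} {z₀ t : ℝ}

/-- normalised `y` -/
noncomputable def yy (θ : ℝ → ℝ) (z₀ z : ℝ) : ℝ := Real.exp (-(θ z - θ z₀))

theorem yy_pos (z : ℝ) : 0 < yy θ z₀ z := Real.exp_pos _

theorem yy_self : yy θ z₀ z₀ = 1 := by simp [yy]

theorem Sys.hy (S : Sys w d e θ z₀ t) (z : ℝ) (h1 : z₀ ≤ z) (h2 : z < t) :
    HasDerivAt (yy θ z₀) (-(w z * yy θ z₀ z)) z := by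
  have h := ((S.hθ z h1 h2).sub_const (θ z₀)).neg.exp
  exact h.congr_deriv (by simp only [yy, Pi.neg_apply]; ring)

theorem Sys.hq (S : Sys w d e θ z₀ t) (z : ℝ) (h1 : z₀ ≤ z) (h2 : z < t) :
    HasDerivAt (fun z => w z * yy θ z₀ z) (-(d z * yy θ z₀ z)) z := by
  have h := (S.hw z h1 h2).mul (S.hy z h1 h2)
  exact h.congr_deriv (by ring)

theorem Sys.hk (S : Sys w d e θ z₀ t) (z : ℝ) (h1 : z₀ ≤ z) (h2 : z < t) :
    HasDerivAt (fun z => d z * yy θ z₀ z) ((w z ^ 2 - e z) * yy θ z₀ z) z := by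
  have h := (S.hd z h1 h2).mul (S.hy z h1 h2)
  exact h.congr_deriv (by ring)

theorem Sys.q_le (S : Sys w d e θ z₀ t) (z : ℝ) (h1 : z₀ ≤ z) (h2 : z < t) :
    w z * yy θ z₀ z ≤ w z₀ := by
  have h := anti_of_hasDerivAt (f := fun z => w z * yy θ z₀ z)
    (f' := fun z => -(d z * yy θ z₀ z)) h1
    (fun x hx => S.hq x hx.1 (lt_of_le_of_lt hx.2 h2))
    (fun x hx => by
      have := S.d_nn x hx.1 (lt_of_le_of_lt hx.2 h2)
      have := yy_pos (θ := θ) (z₀ := z₀) x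
      have : 0 ≤ d x * yy θ z₀ x := by positivity
      linarith)
  simpa [yy_self] using h

theorem Sys.θ_mono (S : Sys w d e θ z₀ t) (z : ℝ) (h1 : z₀ ≤ z) (h2 : z < t) : θ z₀ ≤ θ z :=
  mono_of_hasDerivAt h1 (fun x hx => S.hθ x hx.1 (lt_of_le_of_lt hx.2 h2))
    (fun x hx => (S.w_pos x hx.1 (lt_of_le_of_lt hx.2 h2)).le)

theorem Sys.k_le (S : Sys w d e θ z₀ t) (z : ℝ) (h1 : z₀ ≤ z) (h2 : z < t) :
    d z * yy θ z₀ z ≤ d z₀ + w z₀ * (θ z - θ z₀) := by
  have h := anti_of_hasDerivAt (f := fun z => d z * yy θ z₀ z - w z₀ * (θ z - θ z₀))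
    (f' := fun z => (w z ^ 2 - e z) * yy θ z₀ z - w z₀ * w z) h1
    (fun x hx => (S.hk x hx.1 (lt_of_le_of_lt hx.2 h2)).sub
      (((S.hθ x hx.1 (lt_of_le_of_lt hx.2 h2)).sub_const (θ z₀)).const_mul (w z₀)))
    (fun x hx => by
      have hx2 := lt_of_le_of_lt hx.2 h2
      have h3 := S.q_le x hx.1 hx2
      have h4 := S.w_pos x hx.1 hx2
      have h5 := S.e_nn x hx.1 hx2
      have h6 := yy_pos (θ := θ) (z₀ := z₀) x
      nlinarith [mul_nonneg h5 h6.le, mul_le_mul_of_nonneg_left h3 h4.le])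
  simp only [yy_self, sub_self, mul_zero, mul_one, sub_zero] at h
  linarith

/-- lower bound for `q²` -/
theorem Sys.q_sq_ge (S : Sys w d e θ z₀ t) (z : ℝ) (h1 : z₀ ≤ z) (h2 : z < t) :
    (w z₀ ^ 2 - 2 * d z₀ - 2 * w z₀) + 2 * (d z₀ + w z₀) * yy θ z₀ z ≤
      (w z * yy θ z₀ z) ^ 2 := by
  have h := mono_of_hasDerivAt
    (f := fun z => (w z * yy θ z₀ z) ^ 2 - 2 * d z₀ * yy θ z₀ z -
      2 * w z₀ * (yy θ z₀ z * (θ z - θ z₀) + yy θ z₀ z))
    (f' := fun z => 2 * (w z * yy θ z₀ z) * (d z₀ + w z₀ * (θ z - θ z₀) - d z * yy θ z₀ z)) h1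
    (fun x hx => by
      have hx2 := lt_of_le_of_lt hx.2 h2
      have e1 := (S.hq x hx.1 hx2).pow 2
      have e2 := (S.hy x hx.1 hx2).const_mul (2 * d z₀)
      have e3 := (((S.hy x hx.1 hx2).mul ((S.hθ x hx.1 hx2).sub_const (θ z₀))).add
        (S.hy x hx.1 hx2)).const_mul (2 * w z₀)
      refine ((e1.sub e2).sub e3).congr_deriv ?_
      simp only [Nat.cast_ofNat, Nat.add_one_sub_one, pow_one]
      ring)
    (fun x hx => by
      have hx2 := lt_of_le_of_lt hx.2 h2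
      have h3 := S.k_le x hx.1 hx2
      have h4 := S.w_pos x hx.1 hx2
      have h6 := yy_pos (θ := θ) (z₀ := z₀) x
      have : 0 ≤ d z₀ + w z₀ * (θ x - θ z₀) - d x * yy θ z₀ x := by linarith
      positivity)
  simp only [yy_self, sub_self, mul_zero, mul_one, zero_add] at h
  have h7 := S.θ_mono z h1 h2
  have h8 := yy_pos (θ := θ) (z₀ := z₀) z
  by_cases hlt : z₀ < t
  · have h9 := S.w_pos z₀ le_rfl hlt
    have h10 : 0 ≤ w z₀ * (yy θ z₀ z * (θ z - θ z₀)) := by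
      have : 0 ≤ θ z - θ z₀ := by linarith
      positivity
    nlinarith
  · exact absurd (h1.trans_lt h2) hlt

/-- the blow-up time is at most `z₀ + 2/(w₀+√J₀)` -/
theorem Sys.time_le (S : Sys w d e θ z₀ t) (hz : z₀ < t)
    (hJ : 0 < w z₀ ^ 2 - 2 * d z₀ - 2 * w z₀) :
    t ≤ z₀ + 2 / (w z₀ + Real.sqrt (w z₀ ^ 2 - 2 * d z₀ - 2 * w z₀)) := by
  set J := w z₀ ^ 2 - 2 * d z₀ - 2 * w z₀ with hJdef
  set b := d z₀ + w z₀ with hb
  have hw0 := S.w_pos z₀ le_rfl hz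
  have hd0 := S.d_nn z₀ le_rfl hz
  have hbpos : 0 < b := by rw [hb]; linarith
  have key : ∀ z, z₀ ≤ z → z < t → z ≤ z₀ + 2 / (w z₀ + Real.sqrt J) := by
    intro z h1 h2
    have h := anti_of_hasDerivAt
      (f := fun z => Real.sqrt (J + 2 * b * yy θ z₀ z) + b * (z - z₀))
      (f' := fun z => (2 * b * (-(w z * yy θ z₀ z))) / (2 * Real.sqrt (J + 2 * b * yy θ z₀ z))
        + b * 1) h1
      (fun x hx => by
        have hx2 := lt_of_le_of_lt hx.2 h2
        have h6 := yy_pos (θ := θ) (z₀ := z₀) x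
        have e1 := ((S.hy x hx.1 hx2).const_mul (2 * b)).const_add J
        have e2 := e1.sqrt (by positivity)
        exact e2.add (((hasDerivAt_id x).sub_const z₀).const_mul b))
      (fun x hx => by
        have hx2 := lt_of_le_of_lt hx.2 h2
        have h6 := yy_pos (θ := θ) (z₀ := z₀) x
        have h4 := S.w_pos x hx.1 hx2
        have h7 := S.q_sq_ge x hx.1 hx2
        have h8 : Real.sqrt (J + 2 * b * yy θ z₀ x) ≤ w x * yy θ z₀ x := by
          rw [Real.sqrt_le_left (by positivity)]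
          exact h7
        have h9 : 0 < Real.sqrt (J + 2 * b * yy θ z₀ x) := Real.sqrt_pos.mpr (by positivity)
        have h10 : (2 * b * (-(w x * yy θ z₀ x))) / (2 * Real.sqrt (J + 2 * b * yy θ z₀ x))
            ≤ -b := by
          rw [div_le_iff₀ (by positivity)]
          nlinarith
        linarith)
    simp only [yy_self, sub_self, mul_zero, mul_one, add_zero] at h
    have e0 : J + 2 * b = w z₀ ^ 2 := by rw [hJdef, hb]; ring
    rw [e0, Real.sqrt_sq hw0.le] at h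
    have h6 := yy_pos (θ := θ) (z₀ := z₀) z
    have h11 : Real.sqrt J ≤ Real.sqrt (J + 2 * b * yy θ z₀ z) :=
      Real.sqrt_le_sqrt (by nlinarith [mul_pos hbpos h6])
    have h12 : b * (z - z₀) ≤ w z₀ - Real.sqrt J := by linarith
    have hsJ : 0 ≤ Real.sqrt J := Real.sqrt_nonneg _
    have e3 : (w z₀ - Real.sqrt J) * (w z₀ + Real.sqrt J) = 2 * b := by
      have := Real.sq_sqrt hJ.le
      nlinarith
    have hsum : 0 < w z₀ + Real.sqrt J := by linarith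
    have h13 : (z - z₀) * (w z₀ + Real.sqrt J) ≤ 2 := by
      have h14 : b * ((z - z₀) * (w z₀ + Real.sqrt J)) ≤ b * 2 := by
        calc b * ((z - z₀) * (w z₀ + Real.sqrt J)) = b * (z - z₀) * (w z₀ + Real.sqrt J) := by ring
          _ ≤ (w z₀ - Real.sqrt J) * (w z₀ + Real.sqrt J) :=
            mul_le_mul_of_nonneg_right h12 hsum.le
          _ = b * 2 := by rw [e3]; ring
      exact le_of_mul_le_mul_left h14 hbpos
    have : z - z₀ ≤ 2 / (w z₀ + Real.sqrt J) := by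
      rw [le_div_iff₀ hsum]; exact h13
    linarith
  by_contra hcon
  push Not at hcon
  have hnn : 0 ≤ 2 / (w z₀ + Real.sqrt J) := by positivity
  obtain ⟨z, hz1, hz2⟩ := exists_between hcon
  have := key z (by linarith) hz2
  linarith

/-- the extended system -/
structure Sys2 (w d e g θ : ℝ → ℝ) (z₀ t : ℝ) : Prop extends Sys w d e θ z₀ t where
  he : ∀ z, z₀ ≤ z → z < t → HasDerivAt e (w z * (w z + d z + e z) - g z) z
  g_nn : ∀ z, z₀ ≤ z → z < t → 0 ≤ g z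
  w_mono : ∀ z, z₀ ≤ z → z < t → w z₀ ≤ w z

variable {g : ℝ → ℝ}

theorem Sys2.d_le (S : Sys2 w d e g θ z₀ t) (hw0 : 12 ≤ w z₀) (hc0 : d z₀ ≤ 0.3 * w z₀ ^ 2)
    (z : ℝ) (h1 : z₀ ≤ z) (h2 : z < t) : d z ≤ 0.3 * w z ^ 2 := by
  have h := mono_of_hasDerivAt
    (f := fun z => (0.3 * w z ^ 2 - d z) * Real.exp (-(1.6 * θ z)))
    (f' := fun z => (0.3 * (2 * w z * (w z ^ 2 - d z)) - (w z ^ 2 + w z * d z - e z)
      - 1.6 * w z * (0.3 * w z ^ 2 - d z)) * Real.exp (-(1.6 * θ z))) h1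
    (fun x hx => by
      have hx2 := lt_of_le_of_lt hx.2 h2
      have e1 := (((S.hw x hx.1 hx2).pow 2).const_mul 0.3).sub (S.hd x hx.1 hx2)
      have e2 := ((S.hθ x hx.1 hx2).const_mul 1.6).neg.exp
      refine (e1.mul e2).congr_deriv ?_
      simp only [Nat.cast_ofNat, Nat.add_one_sub_one, pow_one, Pi.neg_apply, Pi.sub_apply,
        Pi.pow_apply]
      ring)
    (fun x hx => by
      have hx2 := lt_of_le_of_lt hx.2 h2
      have h3 := S.de x hx.1 hx2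
      have h4 := S.w_mono x hx.1 hx2
      have h5 := S.d_nn x hx.1 hx2
      refine mul_nonneg ?_ (Real.exp_pos _).le
      have h6 : 12 ≤ w x := hw0.trans h4
      have h7 : 0 ≤ w x ^ 2 * (0.12 * w x - 1) := by
        apply mul_nonneg (sq_nonneg _); linarith
      nlinarith)
  have h8 : 0 ≤ (0.3 * w z₀ ^ 2 - d z₀) * Real.exp (-(1.6 * θ z₀)) :=
    mul_nonneg (by linarith) (Real.exp_pos _).le
  have h9 : 0 ≤ (0.3 * w z ^ 2 - d z) * Real.exp (-(1.6 * θ z)) := h8.trans h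
  have h10 := Real.exp_pos (-(1.6 * θ z))
  by_contra hcon
  push Not at hcon
  have : (0.3 * w z ^ 2 - d z) * Real.exp (-(1.6 * θ z)) < 0 :=
    mul_neg_of_neg_of_pos (by linarith) h10
  linarith

theorem Sys2.k_ge (S : Sys2 w d e g θ z₀ t) (hw0 : 12 ≤ w z₀) (hc0 : d z₀ ≤ 0.3 * w z₀ ^ 2)
    (he0 : e z₀ ≤ w z₀ ^ 2) (z : ℝ) (h1 : z₀ ≤ z) (h2 : z < t) :
    d z₀ ≤ d z * yy θ z₀ z := by
  have hstep : ∀ x, z₀ ≤ x → x < t → 0 ≤ (w x ^ 2 - e x) * yy θ z₀ x := by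
    intro x hx1 hx2
    have h := mono_of_hasDerivAt
      (f := fun z => (w z ^ 2 - e z) * yy θ z₀ z)
      (f' := fun z => (w z * (w z ^ 2 - 3 * d z - w z) + g z) * yy θ z₀ z) hx1
      (fun x hx => by
        have hx2 := lt_of_le_of_lt hx.2 hx2
        have e1 := ((S.hw x hx.1 hx2).pow 2).sub (S.he x hx.1 hx2)
        refine (e1.mul (S.hy x hx.1 hx2)).congr_deriv ?_
        simp only [Nat.cast_ofNat, Nat.add_one_sub_one, pow_one, Pi.sub_apply, Pi.pow_apply]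
        ring)
      (fun x hx => by
        have hx2 := lt_of_le_of_lt hx.2 hx2
        have h3 := S.d_le hw0 hc0 x hx.1 hx2
        have h4 := S.w_mono x hx.1 hx2
        have h5 := S.g_nn x hx.1 hx2
        have h6 : 12 ≤ w x := hw0.trans h4
        refine mul_nonneg ?_ (yy_pos _).le
        have h7 : 0 ≤ w x ^ 2 - 3 * d x - w x := by nlinarith
        have h8 : 0 ≤ w x * (w x ^ 2 - 3 * d x - w x) := mul_nonneg (by linarith) h7
        linarith)
    simp only [yy_self, mul_one] at h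
    linarith
  have h := mono_of_hasDerivAt (f := fun z => d z * yy θ z₀ z)
    (f' := fun z => (w z ^ 2 - e z) * yy θ z₀ z) h1
    (fun x hx => S.hk x hx.1 (lt_of_le_of_lt hx.2 h2))
    (fun x hx => hstep x hx.1 (lt_of_le_of_lt hx.2 h2))
  simpa only [yy_self, mul_one] using h

/-- before time `z₀ + 2/(w₀+√(w₀²-2d₀))` the function `w` stays bounded -/
theorem Sys2.bounded (S : Sys2 w d e g θ z₀ t) (hw0 : 12 ≤ w z₀)
    (hd0 : 0 < d z₀) (hc0 : d z₀ ≤ 0.3 * w z₀ ^ 2) (he0 : e z₀ ≤ w z₀ ^ 2)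
    (ht : t < z₀ + 2 / (w z₀ + Real.sqrt (w z₀ ^ 2 - 2 * d z₀))) :
    ∃ M, ∀ z, z₀ ≤ z → z < t → w z ≤ M := by
  set Q := w z₀ ^ 2 - 2 * d z₀ with hQ
  have hQpos : 0 < Q := by rw [hQ]; nlinarith
  have hwpos : 0 < w z₀ := by linarith
  have hsQ : 0 < Real.sqrt Q := Real.sqrt_pos.mpr hQpos
  set s := w z₀ - d z₀ * (t - z₀) with hs
  have hsum : 0 < w z₀ + Real.sqrt Q := by linarith
  have hs1 : Real.sqrt Q < s := by
    have h1 : (t - z₀) * (w z₀ + Real.sqrt Q) < 2 := by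
      rw [← lt_div_iff₀ hsum]; linarith
    have e3 : (w z₀ - Real.sqrt Q) * (w z₀ + Real.sqrt Q) = 2 * d z₀ := by
      have := Real.sq_sqrt hQpos.le
      nlinarith
    have h2 : d z₀ * (t - z₀) * (w z₀ + Real.sqrt Q) <
        (w z₀ - Real.sqrt Q) * (w z₀ + Real.sqrt Q) := by
      rw [e3]
      nlinarith
    have h3 := lt_of_mul_lt_mul_right h2 hsum.le
    rw [hs]; linarith
  have hη : 0 < (s ^ 2 - Q) / (2 * d z₀) := by
    apply div_pos _ (by positivity)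
    have := Real.sq_sqrt hQpos.le
    nlinarith
  refine ⟨w z₀ / ((s ^ 2 - Q) / (2 * d z₀)), ?_⟩
  intro z h1 h2
  -- q² ≤ Q + 2 d₀ y
  have hq : ∀ x, z₀ ≤ x → x < t → (w x * yy θ z₀ x) ^ 2 ≤ Q + 2 * d z₀ * yy θ z₀ x := by
    intro x hx1 hx2
    have h := anti_of_hasDerivAt
      (f := fun z => (w z * yy θ z₀ z) ^ 2 - 2 * d z₀ * yy θ z₀ z)
      (f' := fun z => 2 * (w z * yy θ z₀ z) * (d z₀ - d z * yy θ z₀ z)) hx1
      (fun x hx => by
        have hx2 := lt_of_le_of_lt hx.2 hx2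
        refine (((S.hq x hx.1 hx2).pow 2).sub
          ((S.hy x hx.1 hx2).const_mul (2 * d z₀))).congr_deriv ?_
        simp only [Nat.cast_ofNat, Nat.add_one_sub_one, pow_one]
        ring)
      (fun x hx => by
        have hx2 := lt_of_le_of_lt hx.2 hx2
        have h3 := S.k_ge hw0 hc0 he0 x hx.1 hx2
        have h4 := S.w_pos x hx.1 hx2
        have h6 := yy_pos (θ := θ) (z₀ := z₀) x
        have h7 : 0 ≤ 2 * (w x * yy θ z₀ x) := by positivity
        nlinarith)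
    simp only [yy_self, mul_one] at h
    linarith
  have h := mono_of_hasDerivAt
    (f := fun z => Real.sqrt (Q + 2 * d z₀ * yy θ z₀ z) + d z₀ * (z - z₀))
    (f' := fun z => (2 * d z₀ * (-(w z * yy θ z₀ z))) /
      (2 * Real.sqrt (Q + 2 * d z₀ * yy θ z₀ z)) + d z₀ * 1) h1
    (fun x hx => by
      have hx2 := lt_of_le_of_lt hx.2 h2
      have h6 := yy_pos (θ := θ) (z₀ := z₀) x
      have e1 := ((S.hy x hx.1 hx2).const_mul (2 * d z₀)).const_add Q
      have e2 := e1.sqrt (by positivity)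
      exact e2.add (((hasDerivAt_id x).sub_const z₀).const_mul (d z₀)))
    (fun x hx => by
      have hx2 := lt_of_le_of_lt hx.2 h2
      have h6 := yy_pos (θ := θ) (z₀ := z₀) x
      have h4 := S.w_pos x hx.1 hx2
      have h7 := hq x hx.1 hx2
      have h8 : w x * yy θ z₀ x ≤ Real.sqrt (Q + 2 * d z₀ * yy θ z₀ x) :=
        Real.le_sqrt_of_sq_le h7
      have h9 : 0 < Real.sqrt (Q + 2 * d z₀ * yy θ z₀ x) := Real.sqrt_pos.mpr (by positivity)
      have h10 : -(d z₀) ≤ (2 * d z₀ * (-(w x * yy θ z₀ x))) /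
          (2 * Real.sqrt (Q + 2 * d z₀ * yy θ z₀ x)) := by
        rw [le_div_iff₀ (by positivity)]
        nlinarith
      linarith)
  simp only [yy_self, sub_self, mul_zero, mul_one, add_zero] at h
  have e0 : Q + 2 * d z₀ = w z₀ ^ 2 := by rw [hQ]; ring
  rw [e0, Real.sqrt_sq hwpos.le] at h
  have h6 := yy_pos (θ := θ) (z₀ := z₀) z
  have h11 : s ≤ Real.sqrt (Q + 2 * d z₀ * yy θ z₀ z) := by
    rw [hs]
    nlinarith
  have hspos : 0 < s := hsQ.trans hs1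
  have h12 : s ^ 2 ≤ Q + 2 * d z₀ * yy θ z₀ z := by
    have h13 : 0 ≤ Q + 2 * d z₀ * yy θ z₀ z := by positivity
    have := Real.sq_sqrt h13
    nlinarith [Real.sqrt_nonneg (Q + 2 * d z₀ * yy θ z₀ z)]
  have h13 : (s ^ 2 - Q) / (2 * d z₀) ≤ yy θ z₀ z := by
    rw [div_le_iff₀ (by positivity)]; linarith
  rw [le_div_iff₀ hη]
  have h14 := S.q_le z h1 h2
  have h15 := S.w_pos z h1 h2
  nlinarith

end Pool.Agent.Sorted94
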