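import Mathlib

/-! Power series with real coefficients: derivatives and products. -/

namespace Pool.Agent.Sorted94

open Finset

variable {𝕜 : Type*} [RCLike 𝕜]

/-- the function `z ↦ ∑ c n z^n` -/
noncomputable def ps (𝕜 : Type*) [RCLike 𝕜] (c : ℕ → ℝ) (z : 𝕜) : 𝕜 := ∑' n, ((c n : ℝ) : 𝕜) * z ^ n

theorem norm_term (c : ℕ → ℝ) (z : 𝕜) (n : ℕ) :
    ‖((c n : ℝ) : 𝕜) * z ^ n‖ = |c n| * ‖z‖ ^ n := by
  rw [norm_mul, norm_pow, RCLike.norm_ofReal]

theorem summable_norm_ps {c : ℕ → ℝ} {t : ℝ} (hs : Summable fun n => |c n| * t ^ n) (z : 𝕜)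
    (hz : ‖z‖ ≤ t) : Summable (fun n => ‖((c n : ℝ) : 𝕜) * z ^ n‖) := by
  refine Summable.of_nonneg_of_le (fun n => norm_nonneg _) (fun n => ?_) hs
  rw [norm_term]
  have h1 : ‖z‖ ^ n ≤ t ^ n := pow_le_pow_left₀ (norm_nonneg _) hz n
  exact mul_le_mul_of_nonneg_left h1 (abs_nonneg _)

theorem summable_ps {c : ℕ → ℝ} {t : ℝ} (hs : Summable fun n => |c n| * t ^ n) (z : 𝕜)
    (hz : ‖z‖ ≤ t) : Summable (fun n => ((c n : ℝ) : 𝕜) * z ^ n) :=
  (summable_norm_ps hs z hz).of_norm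

/-- derivative of a power series -/
theorem hasDerivAt_ps {c : ℕ → ℝ} {t : ℝ} (hs : Summable fun n => |c n| * t ^ n) (z : 𝕜)
    (hz : ‖z‖ < t) :
    HasDerivAt (ps 𝕜 c) (ps 𝕜 (fun n => ((n : ℝ) + 1) * c (n + 1)) z) z := by
  obtain ⟨t', ht1, ht2⟩ := exists_between hz
  have ht'0 : 0 < t' := lt_of_le_of_lt (norm_nonneg _) ht1
  have ht0 : 0 < t := ht'0.trans ht2
  have hq : ‖t' / t‖ < 1 := by
    rw [Real.norm_of_nonneg (by positivity), div_lt_one ht0]; exact ht2
  obtain ⟨M, hM⟩ := hs.tendsto_atTop_zero.bddAbove_range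
  have hM' : ∀ n, |c n| * t ^ n ≤ M := fun n => hM (Set.mem_range_self n)
  have hsum : Summable (fun n : ℕ => M / t' * ((n : ℝ) ^ 1 * (t' / t) ^ n)) :=
    (summable_pow_mul_geometric_of_norm_lt_one 1 hq).mul_left _
  have key : ∀ n : ℕ, |c n| * (n * t' ^ (n - 1)) ≤ M / t' * ((n : ℝ) ^ 1 * (t' / t) ^ n) := by
    intro n
    cases n with
    | zero => simp
    | succ n =>
      have e1 : |c (n + 1)| * (((n + 1 : ℕ) : ℝ) * t' ^ (n + 1 - 1)) =
          (|c (n + 1)| * t ^ (n + 1)) / t' * (((n + 1 : ℕ) : ℝ) ^ 1 * (t' / t) ^ (n + 1)) := by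
        rw [Nat.add_sub_cancel, div_pow]
        field_simp
        ring
      rw [e1]
      refine mul_le_mul_of_nonneg_right ?_ (by positivity)
      exact div_le_div_of_nonneg_right (hM' _) ht'0.le
  have hu : Summable (fun n : ℕ => |c n| * (n * t' ^ (n - 1))) :=
    Summable.of_nonneg_of_le (fun n => by positivity) key hsum
  have hmain := hasDerivAt_tsum_of_isPreconnected (𝕜 := 𝕜) (F := 𝕜)
    (g := fun n z => ((c n : ℝ) : 𝕜) * z ^ n)
    (g' := fun n z => ((c n : ℝ) : 𝕜) * ((n : 𝕜) * z ^ (n - 1)))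
    (u := fun n : ℕ => |c n| * (n * t' ^ (n - 1))) (t := Metric.ball (0 : 𝕜) t') (y₀ := 0)
    hu Metric.isOpen_ball (convex_ball _ _).isPreconnected
    (fun n y _ => by
      have := (hasDerivAt_pow n y).const_mul ((c n : ℝ) : 𝕜)
      simpa using this)
    (fun n y hy => by
      rw [norm_mul, norm_mul, norm_pow, RCLike.norm_ofReal, RCLike.norm_natCast]
      rw [Metric.mem_ball, dist_zero_right] at hy
      gcongr)
    (Metric.mem_ball_self ht'0)
    (by
      refine summable_ps hs 0 ?_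
      simpa using ht0.le)
    (y := z) (by rw [Metric.mem_ball, dist_zero_right]; exact ht1)
  have hsum2 : Summable (fun n : ℕ => ((c n : ℝ) : 𝕜) * ((n : 𝕜) * z ^ (n - 1))) := by
    refine Summable.of_norm_bounded hu ?_
    intro n
    rw [norm_mul, norm_mul, norm_pow, RCLike.norm_ofReal, RCLike.norm_natCast]
    gcongr
  have hval : (∑' n : ℕ, ((c n : ℝ) : 𝕜) * ((n : 𝕜) * z ^ (n - 1))) =
      ps 𝕜 (fun n => ((n : ℝ) + 1) * c (n + 1)) z := by
    rw [hsum2.tsum_eq_zero_add]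
    simp only [Nat.cast_zero, zero_mul, mul_zero, zero_add, ps]
    refine tsum_congr ?_
    intro n
    rw [Nat.add_sub_cancel]
    push_cast
    ring
  rw [← hval]
  exact hmain

/-- product of power series -/
theorem ps_mul {b c : ℕ → ℝ} {t : ℝ} (hb : Summable fun n => |b n| * t ^ n)
    (hc : Summable fun n => |c n| * t ^ n) (z : 𝕜) (hz : ‖z‖ ≤ t) :
    ps 𝕜 b z * ps 𝕜 c z = ps 𝕜 (fun n => ∑ i ∈ range (n + 1), b i * c (n - i)) z := by
  unfold ps
  rw [tsum_mul_tsum_eq_tsum_sum_range_of_summable_norm (summable_norm_ps hb z hz)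
    (summable_norm_ps hc z hz)]
  refine tsum_congr ?_
  intro n
  rw [RCLike.ofReal_sum, Finset.sum_mul]
  refine Finset.sum_congr rfl ?_
  intro i hi
  rw [Finset.mem_range] at hi
  have : z ^ n = z ^ i * z ^ (n - i) := by rw [← pow_add]; congr 1; omega
  rw [this]
  push_cast
  ring

theorem ps_add {b c : ℕ → ℝ} {t : ℝ} (hb : Summable fun n => |b n| * t ^ n)
    (hc : Summable fun n => |c n| * t ^ n) (z : 𝕜) (hz : ‖z‖ ≤ t) :
    ps 𝕜 b z + ps 𝕜 c z = ps 𝕜 (fun n => b n + c n) z := by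
  unfold ps
  rw [← (summable_ps hb z hz).tsum_add (summable_ps hc z hz)]
  refine tsum_congr ?_
  intro n
  push_cast
  ring

theorem ps_sub {b c : ℕ → ℝ} {t : ℝ} (hb : Summable fun n => |b n| * t ^ n)
    (hc : Summable fun n => |c n| * t ^ n) (z : 𝕜) (hz : ‖z‖ ≤ t) :
    ps 𝕜 b z - ps 𝕜 c z = ps 𝕜 (fun n => b n - c n) z := by
  unfold ps
  rw [← (summable_ps hb z hz).tsum_sub (summable_ps hc z hz)]
  refine tsum_congr ?_
  intro n
  push_cast
  ring

/-- Cauchy products of nonnegative sequences -/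
theorem summable_conv {b c : ℕ → ℝ} {t : ℝ} (hb : Summable fun n => b n * t ^ n)
    (hc : Summable fun n => c n * t ^ n) :
    Summable fun n => (∑ i ∈ range (n + 1), b i * c (n - i)) * t ^ n := by
  have h := summable_norm_sum_mul_range_of_summable_norm
    (f := fun n => b n * t ^ n) (g := fun n => c n * t ^ n) hb.norm hc.norm
  refine h.of_norm.congr ?_
  intro n
  rw [Finset.sum_mul]
  refine Finset.sum_congr rfl ?_
  intro i hi
  rw [Finset.mem_range] at hi
  have : t ^ n = t ^ i * t ^ (n - i) := by rw [← pow_add]; congr 1; omega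
  rw [this]
  ring

end Pool.Agent.Sorted94
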