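import Pool.Agent.Sorted94.Disc

/-! Path estimates near the dominant singularity. -/

namespace Pool.Agent.Sorted94

open Set

/-- integrate a derivative bound radially, then along a chord -/
theorem path_bound {F F' : ℂ → ℂ} {B b : ℝ → ℝ} {z : ℂ} {δ : ℝ}
    (hF : ∀ p : ℂ, ‖p‖ < Rad → HasDerivAt F (F' p) p) (hz : ‖z‖ < Rad)
    (hδ : ‖(Rad : ℂ) - z‖ = δ) (hδ2 : δ < Rad)
    (hb : ∀ p : ℂ, ∀ s, ‖p‖ ≤ s → Rad - δ ≤ s → s < Rad → ‖(Rad : ℂ) - p‖ ≤ 2 * δ → ‖F' p‖ ≤ b s)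
    (hB : ∀ s, Rad - δ ≤ s → s < Rad → HasDerivAt B (b s) s) :
    ‖F z - F ((Rad - δ : ℝ) : ℂ)‖ ≤ 3 * δ * b (Rad - δ) + (B ‖z‖ - B (Rad - δ)) := by
  have hR := Rad_pos
  have hδ0 : 0 < δ := by
    rw [← hδ, norm_pos_iff, sub_ne_zero]
    intro h
    rw [← h, Complex.norm_real, Real.norm_of_nonneg hR.le] at hz
    exact lt_irrefl _ hz
  have hzge : Rad - δ ≤ ‖z‖ := by
    have h1 : ‖(Rad : ℂ)‖ ≤ ‖(Rad : ℂ) - z‖ + ‖z‖ := by
      have := norm_add_le ((Rad : ℂ) - z) z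
      simpa using this
    rw [Complex.norm_real, Real.norm_of_nonneg hR.le, hδ] at h1
    linarith
  set ρ := Rad - δ with hρ
  have hρ0 : 0 < ρ := by rw [hρ]; linarith
  have hz0 : 0 < ‖z‖ := lt_of_lt_of_le hρ0 hzge
  set e : ℂ := z / (‖z‖ : ℂ) with he
  have hzc : (‖z‖ : ℂ) ≠ 0 := by exact_mod_cast hz0.ne'
  have hen : ‖e‖ = 1 := by
    rw [he, norm_div, Complex.norm_real, norm_norm, div_self hz0.ne']
  have hze : ((‖z‖ : ℝ) : ℂ) * e = z := by rw [he]; field_simp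
  have hnorm : ∀ s : ℝ, 0 ≤ s → ‖(s : ℂ) * e‖ = s := by
    intro s hs
    rw [norm_mul, hen, mul_one, Complex.norm_real, Real.norm_of_nonneg hs]
  have hdist : ∀ s : ℝ, ρ ≤ s → s ≤ ‖z‖ → ‖(Rad : ℂ) - (s : ℂ) * e‖ ≤ 2 * δ := by
    intro s hs1 hs2
    have h1 : (Rad : ℂ) - (s : ℂ) * e = ((Rad : ℂ) - z) + ((‖z‖ - s : ℝ) : ℂ) * e := by
      push_cast
      rw [sub_mul, hze]
      ring
    rw [h1]
    refine (norm_add_le _ _).trans ?_
    rw [hδ, hnorm _ (by linarith)]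
    rw [hρ] at hs1
    linarith
  -- radial part
  have hrad : ‖F z - F ((ρ : ℂ) * e)‖ ≤ B ‖z‖ - B ρ := by
    have hg : ∀ s : ℝ, 0 ≤ s → s < Rad → HasDerivAt (fun s : ℝ => F ((s : ℂ) * e) - F ((ρ : ℂ) * e))
        (F' ((s : ℂ) * e) * e) s := by
      intro s hs1 hs2
      have h1 : HasDerivAt F (F' ((s : ℂ) * e)) ((s : ℂ) * e) := hF _ (by rw [hnorm s hs1]; exact hs2)
      have h2 : HasDerivAt (fun s : ℝ => (s : ℂ) * e) e s := by
        have := (Complex.ofRealCLM.hasDerivAt (x := s)).mul_const e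
        simpa using this
      exact (h1.comp s h2).sub_const _
    have h1 := image_norm_le_of_norm_deriv_right_le_deriv_boundary'
      (f := fun s : ℝ => F ((s : ℂ) * e) - F ((ρ : ℂ) * e)) (f' := fun s => F' ((s : ℂ) * e) * e)
      (a := ρ) (b := ‖z‖) (B := fun s => B s - B ρ) (B' := b)
      (fun s hs => (hg s (hρ0.le.trans hs.1) (lt_of_le_of_lt hs.2 hz)).continuousAt.continuousWithinAt)
      (fun s hs => (hg s (hρ0.le.trans hs.1) (hs.2.trans hz)).hasDerivWithinAt)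
      (by simp)
      (fun s hs => ((hB s hs.1 (lt_of_le_of_lt hs.2 hz)).sub_const _).continuousAt.continuousWithinAt)
      (fun s hs => ((hB s hs.1 (hs.2.trans hz)).sub_const _).hasDerivWithinAt)
      (fun s hs => by
        rw [norm_mul, hen, mul_one]
        exact hb _ s (le_of_eq (hnorm s (hρ0.le.trans hs.1))) hs.1 (hs.2.trans hz)
          (hdist s hs.1 hs.2.le))
      (right_mem_Icc.mpr hzge)
    simp only [hze] at h1
    exact h1
  -- chord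
  have hch : ‖F ((ρ : ℂ) * e) - F ((ρ : ℝ) : ℂ)‖ ≤ b ρ * ‖(ρ : ℂ) * e - ((ρ : ℝ) : ℂ)‖ := by
    have hconv : Convex ℝ (Metric.closedBall (0 : ℂ) ρ ∩ Metric.closedBall (Rad : ℂ) (2 * δ)) :=
      (convex_closedBall _ _).inter (convex_closedBall _ _)
    refine hconv.norm_image_sub_le_of_norm_hasDerivWithin_le (f' := F') (C := b ρ) ?_ ?_ ?_ ?_
    · intro p hp
      have h1 : ‖p‖ ≤ ρ := by simpa using hp.1
      exact (hF p (lt_of_le_of_lt h1 (by rw [hρ]; linarith))).hasDerivWithinAt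
    · intro p hp
      have h1 : ‖p‖ ≤ ρ := by simpa using hp.1
      have h2 : ‖(Rad : ℂ) - p‖ ≤ 2 * δ := by
        have := hp.2
        rw [Metric.mem_closedBall, dist_comm, dist_eq_norm] at this
        exact this
      exact hb p ρ h1 le_rfl (by rw [hρ]; linarith) h2
    · constructor
      · simp [abs_of_pos hρ0]
      · rw [Metric.mem_closedBall, dist_comm, dist_eq_norm]
        have : (Rad : ℂ) - ((ρ : ℝ) : ℂ) = ((δ : ℝ) : ℂ) := by rw [hρ]; push_cast; ring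
        rw [this, Complex.norm_real, Real.norm_of_nonneg hδ0.le]
        linarith
    · constructor
      · rw [mem_closedBall_zero_iff, hnorm ρ hρ0.le]
      · rw [Metric.mem_closedBall, dist_comm, dist_eq_norm]
        exact hdist ρ le_rfl hzge
  have hbnn : 0 ≤ b ρ := (norm_nonneg _).trans (hb ((ρ : ℂ) * e) ρ (le_of_eq (hnorm ρ hρ0.le)) le_rfl
    (by rw [hρ]; linarith) (hdist ρ le_rfl hzge))
  have hlen : ‖(ρ : ℂ) * e - ((ρ : ℝ) : ℂ)‖ ≤ 3 * δ := by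
    have h1 : (ρ : ℂ) * e - ((ρ : ℝ) : ℂ) = -((Rad : ℂ) - (ρ : ℂ) * e) + ((δ : ℝ) : ℂ) := by
      rw [hρ]; push_cast; ring
    rw [h1]
    refine (norm_add_le _ _).trans ?_
    rw [norm_neg, Complex.norm_real, Real.norm_of_nonneg hδ0.le]
    have := hdist ρ le_rfl hzge
    linarith
  have e1 : F z - F ((ρ : ℝ) : ℂ) = (F z - F ((ρ : ℂ) * e)) + (F ((ρ : ℂ) * e) - F ((ρ : ℝ) : ℂ)) := by
    ring
  rw [e1]
  refine (norm_add_le _ _).trans ?_
  have h1 : b ρ * ‖(ρ : ℂ) * e - ((ρ : ℝ) : ℂ)‖ ≤ b ρ * (3 * δ) :=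
    mul_le_mul_of_nonneg_left hlen hbnn
  linarith

end Pool.Agent.Sorted94
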