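import Pool.Agent.Sorted94.Series
import Pool.Agent.Sorted94.PS
import Pool.Agent.Sorted94.ODE

/-! The generating functions as power series and the radius of convergence. -/

namespace Pool.Agent.Sorted94

open Finset

/-- the series converges at `t` -/
def Sm (t : ℝ) : Prop := 0 ≤ t ∧ Summable fun n => V 0 n * t ^ n

theorem Sm.mono {s t : ℝ} (h : Sm t) (hs : 0 ≤ s) (hst : s ≤ t) : Sm s := by
  refine ⟨hs, Summable.of_nonneg_of_le (fun n => ?_) (fun n => ?_) h.2⟩
  · exact mul_nonneg (V_nonneg 0 n) (pow_nonneg hs n)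
  · exact mul_le_mul_of_nonneg_left (pow_le_pow_left₀ hs hst n) (V_nonneg 0 n)

theorem D_le_conv (k n : ℕ) : D (k + 1) n ≤ ∑ i ∈ range (n + 1), V 0 i * V k (n - i) := by
  have h := D_rec k n
  have h1 := D_nonneg k (n + 1)
  have h2 : 0 ≤ ((n : ℝ) + 1) * D k (n + 1) := by positivity
  linarith

theorem Sm.sV {t : ℝ} (h : Sm t) (k : ℕ) : Summable fun n => V k n * t ^ n := by
  induction k with
  | zero => exact h.2
  | succ k ih =>
    have h1 := summable_conv h.2 ih
    refine Summable.of_nonneg_of_le (fun n => ?_) (fun n => ?_) (ih.add h1)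
    · exact mul_nonneg (V_nonneg _ n) (pow_nonneg h.1 n)
    · rw [V_succ, ← add_mul]
      exact mul_le_mul_of_nonneg_right (by have := D_le_conv k n; linarith) (pow_nonneg h.1 n)

theorem D_le_V (k n : ℕ) : D k n ≤ V k n := by
  cases k with
  | zero => exact le_of_eq (D_zero n)
  | succ k => rw [V_succ]; have := V_nonneg k n; linarith

theorem Sm.sD {t : ℝ} (h : Sm t) (k : ℕ) : Summable fun n => D k n * t ^ n := by
  refine Summable.of_nonneg_of_le (fun n => ?_) (fun n => ?_) (h.sV k)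
  · exact mul_nonneg (D_nonneg k n) (pow_nonneg h.1 n)
  · exact mul_le_mul_of_nonneg_right (D_le_V k n) (pow_nonneg h.1 n)

theorem Sm.sV' {t : ℝ} (h : Sm t) (k : ℕ) : Summable fun n => |V k n| * t ^ n := by
  refine (h.sV k).congr (fun n => ?_)
  rw [abs_of_nonneg (V_nonneg k n)]

theorem Sm.sD' {t : ℝ} (h : Sm t) (k : ℕ) : Summable fun n => |D k n| * t ^ n := by
  refine (h.sD k).congr (fun n => ?_)
  rw [abs_of_nonneg (D_nonneg k n)]

/-- derivative of the level functions -/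
theorem Sm.hasDerivAt_D {𝕜 : Type*} [RCLike 𝕜] {t : ℝ} (h : Sm t) (k : ℕ) (z : 𝕜)
    (hz : ‖z‖ < t) :
    HasDerivAt (ps 𝕜 (D k)) (ps 𝕜 (V 0) z * ps 𝕜 (V k) z - ps 𝕜 (D (k + 1)) z) z := by
  have h1 := hasDerivAt_ps (𝕜 := 𝕜) (h.sD' k) z hz
  refine h1.congr_deriv ?_
  rw [ps_mul (h.sV' 0) (h.sV' k) z hz.le]
  have h2 : Summable fun n => |∑ i ∈ range (n + 1), V 0 i * V k (n - i)| * t ^ n := by
    refine (summable_conv h.2 (h.sV k)).congr (fun n => ?_)
    rw [abs_of_nonneg (Finset.sum_nonneg fun i _ => mul_nonneg (V_nonneg _ _) (V_nonneg _ _))]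
  rw [ps_sub h2 (h.sD' (k + 1)) z hz.le]
  congr 1
  funext n
  exact D_rec k n

theorem Sm.ps_V_succ {𝕜 : Type*} [RCLike 𝕜] {t : ℝ} (h : Sm t) (k : ℕ) (z : 𝕜) (hz : ‖z‖ ≤ t) :
    ps 𝕜 (V (k + 1)) z = ps 𝕜 (V k) z + ps 𝕜 (D (k + 1)) z := by
  rw [ps_add (h.sV' k) (h.sD' (k + 1)) z hz]
  congr 1
  funext n
  exact V_succ k n

theorem ps_D_zero {𝕜 : Type*} [RCLike 𝕜] (z : 𝕜) : ps 𝕜 (D 0) z = ps 𝕜 (V 0) z := rfl

/-- coefficients of `θ = ∫ w` -/
noncomputable def thc : ℕ → ℝ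
  | 0 => 0
  | n + 1 => V 0 n / ((n : ℝ) + 1)

theorem thc_nonneg (n : ℕ) : 0 ≤ thc n := by
  cases n with
  | zero => exact le_rfl
  | succ n => exact div_nonneg (V_nonneg 0 n) (by positivity)

theorem Sm.sth {t : ℝ} (h : Sm t) : Summable fun n => |thc n| * t ^ n := by
  rw [← summable_nat_add_iff 1]
  refine Summable.of_nonneg_of_le (fun n => ?_) (fun n => ?_) (h.2.mul_left t)
  · exact mul_nonneg (abs_nonneg _) (pow_nonneg h.1 _)
  · rw [abs_of_nonneg (thc_nonneg _)]
    have h1 : thc (n + 1) ≤ V 0 n := by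
      simp only [thc]
      exact div_le_self (V_nonneg 0 n) (by have : (0 : ℝ) ≤ n := by positivity
                                           linarith)
    calc thc (n + 1) * t ^ (n + 1) ≤ V 0 n * t ^ (n + 1) :=
          mul_le_mul_of_nonneg_right h1 (pow_nonneg h.1 _)
      _ = t * (V 0 n * t ^ n) := by rw [pow_succ]; ring

theorem Sm.hasDerivAt_th {𝕜 : Type*} [RCLike 𝕜] {t : ℝ} (h : Sm t) (z : 𝕜) (hz : ‖z‖ < t) :
    HasDerivAt (ps 𝕜 thc) (ps 𝕜 (V 0) z) z := by
  have h1 := hasDerivAt_ps (𝕜 := 𝕜) h.sth z hz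
  refine h1.congr_deriv ?_
  congr 1
  funext n
  simp only [thc]
  field_simp

theorem ps_real_nonneg {c : ℕ → ℝ} (hc : ∀ n, 0 ≤ c n) {z : ℝ} (hz : 0 ≤ z) : 0 ≤ ps ℝ c z := by
  unfold ps
  exact tsum_nonneg (fun n => mul_nonneg (hc n) (pow_nonneg hz n))

theorem ps_real_le {b c : ℕ → ℝ} {z : ℝ} (hz : 0 ≤ z) (hbc : ∀ n, b n ≤ c n)
    (hb : Summable fun n => b n * z ^ n) (hc : Summable fun n => c n * z ^ n) :
    ps ℝ b z ≤ ps ℝ c z := by
  unfold ps
  exact hb.tsum_le_tsum (fun n => mul_le_mul_of_nonneg_right (hbc n) (pow_nonneg hz n)) hc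

theorem ps_real_mono {c : ℕ → ℝ} (hc : ∀ n, 0 ≤ c n) {x z : ℝ} (hx : 0 ≤ x) (hxz : x ≤ z)
    (h : Summable fun n => c n * z ^ n) : ps ℝ c x ≤ ps ℝ c z := by
  unfold ps
  have hs : Summable fun n => c n * x ^ n := by
    refine Summable.of_nonneg_of_le (fun n => ?_) (fun n => ?_) h
    · exact mul_nonneg (hc n) (pow_nonneg hx n)
    · exact mul_le_mul_of_nonneg_left (pow_le_pow_left₀ hx hxz n) (hc n)
  exact hs.tsum_le_tsum (fun n => mul_le_mul_of_nonneg_left (pow_le_pow_left₀ hx hxz n) (hc n)) h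

theorem ps_sum_le {c : ℕ → ℝ} (hc : ∀ n, 0 ≤ c n) {z : ℝ} (hz : 0 ≤ z)
    (h : Summable fun n => c n * z ^ n) (N : ℕ) : ∑ n ∈ range N, c n * z ^ n ≤ ps ℝ c z := by
  unfold ps
  exact h.sum_le_tsum (range N) (fun n _ => mul_nonneg (hc n) (pow_nonneg hz n))

theorem one_le_w {t z : ℝ} (h : Sm t) (hz : 0 ≤ z) (hzt : z ≤ t) : 1 ≤ ps ℝ (V 0) z := by
  have h1 := ps_sum_le (V_nonneg 0) hz (h.mono hz hzt).2 1
  simpa [V_k_zero] using h1

/-- the differential system -/
theorem Sm.sys {t z₀ : ℝ} (h : Sm t) (hz₀ : 0 ≤ z₀) :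
    Sys2 (ps ℝ (V 0)) (ps ℝ (D 1)) (ps ℝ (D 2)) (ps ℝ (D 3)) (ps ℝ thc) z₀ t where
  hw := by
    intro z h1 h2
    have hz : ‖z‖ < t := by rw [Real.norm_of_nonneg (hz₀.trans h1)]; exact h2
    have := h.hasDerivAt_D 0 z hz
    refine this.congr_deriv ?_
    ring
  hd := by
    intro z h1 h2
    have hz : ‖z‖ < t := by rw [Real.norm_of_nonneg (hz₀.trans h1)]; exact h2
    have := h.hasDerivAt_D 1 z hz
    refine this.congr_deriv ?_
    rw [h.ps_V_succ 0 z hz.le]
    ring
  he := by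
    intro z h1 h2
    have hz : ‖z‖ < t := by rw [Real.norm_of_nonneg (hz₀.trans h1)]; exact h2
    have := h.hasDerivAt_D 2 z hz
    refine this.congr_deriv ?_
    rw [h.ps_V_succ 1 z hz.le, h.ps_V_succ 0 z hz.le]
  hθ := by
    intro z h1 h2
    have hz : ‖z‖ < t := by rw [Real.norm_of_nonneg (hz₀.trans h1)]; exact h2
    exact h.hasDerivAt_th z hz
  w_pos := by
    intro z h1 h2
    have := one_le_w h (hz₀.trans h1) h2.le
    linarith
  d_nn := fun z h1 _ => ps_real_nonneg (D_nonneg 1) (hz₀.trans h1)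
  e_nn := fun z h1 _ => ps_real_nonneg (D_nonneg 2) (hz₀.trans h1)
  g_nn := fun z h1 _ => ps_real_nonneg (D_nonneg 3) (hz₀.trans h1)
  de := fun z h1 h2 => ps_real_le (hz₀.trans h1) (D_mono 0)
    ((h.mono (hz₀.trans h1) h2.le).sD 1) ((h.mono (hz₀.trans h1) h2.le).sD 2)
  w_mono := fun z h1 h2 => ps_real_mono (V_nonneg 0) hz₀ h1 (h.mono (hz₀.trans h1) h2.le).2

theorem sum_conv_le (f : ℕ → ℝ) (hf : ∀ n, 0 ≤ f n) (M : ℕ) :
    ∑ n ∈ range M, ∑ i ∈ range (n + 1), f i * f (n - i) ≤ (∑ n ∈ range M, f n) ^ 2 := by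
  have h1 : ∑ n ∈ range M, ∑ i ∈ range (n + 1), f i * f (n - i) =
      ∑ p ∈ (range M).sigma (fun n => range (n + 1)), f p.2 * f (p.1 - p.2) := by
    rw [Finset.sum_sigma]
  have h2 : (∑ n ∈ range M, f n) ^ 2 = ∑ q ∈ range M ×ˢ range M, f q.1 * f q.2 := by
    rw [sq, Finset.sum_mul_sum, Finset.sum_product]
  rw [h1, h2]
  have h3 : ∑ p ∈ (range M).sigma (fun n => range (n + 1)), f p.2 * f (p.1 - p.2) =
      ∑ q ∈ ((range M).sigma (fun n => range (n + 1))).image
        (fun p : (_ : ℕ) × ℕ => (p.2, p.1 - p.2)), f q.1 * f q.2 := by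
    rw [Finset.sum_image]
    rintro ⟨a, b⟩ hab ⟨c, d⟩ hcd h
    simp only [Finset.coe_sigma, Set.mem_sigma_iff, Finset.mem_coe, Finset.mem_range] at hab hcd
    simp only [Prod.mk.injEq] at h
    obtain ⟨h4, h5⟩ := h
    subst h4
    have : a = c := by omega
    subst this
    rfl
  rw [h3]
  refine Finset.sum_le_sum_of_subset_of_nonneg ?_ ?_
  · intro q hq
    rw [Finset.mem_image] at hq
    obtain ⟨⟨a, b⟩, hab, rfl⟩ := hq
    rw [Finset.mem_sigma, Finset.mem_range, Finset.mem_range] at hab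
    simp only at hab
    rw [Finset.mem_product, Finset.mem_range, Finset.mem_range]
    simp only
    omega
  · intro q _ _
    exact mul_nonneg (hf _) (hf _)

/-- the series extends beyond `z` by at least `1/w(z)` -/
theorem Sm.extend {t z z' : ℝ} (h : Sm t) (hz : 0 ≤ z) (hzt : z ≤ t) (hzz : z ≤ z')
    (hz' : z' < z + 1 / ps ℝ (V 0) z) : Sm z' := by
  have hz'0 : 0 ≤ z' := hz.trans hzz
  refine ⟨hz'0, ?_⟩
  set ω := ps ℝ (V 0) z with hω
  have hω1 : 1 ≤ ω := one_le_w h hz hzt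
  have hωpos : 0 < ω := by linarith
  set κ := 1 / ω - (z' - z) with hκ
  have hκpos : 0 < κ := by rw [hκ]; linarith
  refine summable_of_sum_range_le (c := 1 / κ) (fun n => mul_nonneg (V_nonneg 0 n)
    (pow_nonneg hz'0 n)) ?_
  intro N
  cases N with
  | zero => simp; positivity
  | succ N =>
    -- polynomial truncation
    set p : ℝ → ℝ := fun x => ∑ n ∈ range (N + 1), V 0 n * x ^ n with hp
    set p' : ℝ → ℝ := fun x => ∑ n ∈ range (N + 1), V 0 n * (n * x ^ (n - 1)) with hp'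
    have hder : ∀ x, HasDerivAt p (p' x) x := by
      intro x
      have := HasDerivAt.fun_sum (u := range (N + 1)) (A := fun n x => V 0 n * x ^ n)
        (A' := fun n => V 0 n * (n * x ^ (n - 1))) (x := x)
        (fun n _ => (hasDerivAt_pow n x).const_mul (V 0 n))
      exact this
    have hp1 : ∀ x, 0 ≤ x → 1 ≤ p x := by
      intro x hx
      have h1 : V 0 0 * x ^ 0 ≤ p x :=
        Finset.single_le_sum (f := fun n => V 0 n * x ^ n)
          (fun n _ => mul_nonneg (V_nonneg 0 n) (pow_nonneg hx n)) (by simp)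
      simpa [V_k_zero] using h1
    have hineq : ∀ x, 0 ≤ x → p' x ≤ p x ^ 2 := by
      intro x hx
      have e1 : p' x = ∑ n ∈ range N, (((n : ℝ) + 1) * V 0 (n + 1)) * x ^ n := by
        rw [hp']
        simp only
        rw [Finset.sum_range_succ']
        simp only [Nat.cast_zero, zero_mul, mul_zero, add_zero, Nat.add_sub_cancel]
        refine Finset.sum_congr rfl (fun n _ => ?_)
        push_cast
        ring
      have e2 : p' x ≤ ∑ n ∈ range N, ∑ i ∈ range (n + 1),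
          (fun j => V 0 j * x ^ j) i * (fun j => V 0 j * x ^ j) (n - i) := by
        rw [e1]
        refine Finset.sum_le_sum (fun n _ => ?_)
        have h1 := D_rec 0 n
        have h2 := D_nonneg 1 n
        have h3 : ((n : ℝ) + 1) * V 0 (n + 1) ≤ ∑ i ∈ range (n + 1), V 0 i * V 0 (n - i) := by
          rw [D_zero] at h1; linarith
        calc ((n : ℝ) + 1) * V 0 (n + 1) * x ^ n
            ≤ (∑ i ∈ range (n + 1), V 0 i * V 0 (n - i)) * x ^ n :=
              mul_le_mul_of_nonneg_right h3 (pow_nonneg hx n)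
          _ = _ := by
              rw [Finset.sum_mul]
              refine Finset.sum_congr rfl (fun i hi => ?_)
              rw [Finset.mem_range] at hi
              have : x ^ n = x ^ i * x ^ (n - i) := by rw [← pow_add]; congr 1; omega
              rw [this]; ring
      refine e2.trans ((sum_conv_le _ (fun n => mul_nonneg (V_nonneg 0 n) (pow_nonneg hx n)) N).trans ?_)
      have h4 : ∑ n ∈ range N, V 0 n * x ^ n ≤ p x := by
        rw [hp]
        exact Finset.sum_le_sum_of_subset_of_nonneg (Finset.range_subset_range.mpr (by omega))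
          (fun n _ _ => mul_nonneg (V_nonneg 0 n) (pow_nonneg hx n))
      have h5 : 0 ≤ ∑ n ∈ range N, V 0 n * x ^ n :=
        Finset.sum_nonneg (fun n _ => mul_nonneg (V_nonneg 0 n) (pow_nonneg hx n))
      nlinarith
    have hmono := mono_of_hasDerivAt (f := fun x => (p x)⁻¹ + x)
      (f' := fun x => -(p' x) / (p x) ^ 2 + 1) hzz
      (fun x hx => by
        have hx0 : 0 ≤ x := hz.trans hx.1
        have := hp1 x hx0
        exact ((hder x).inv (by linarith)).add (hasDerivAt_id x))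
      (fun x hx => by
        have hx0 : 0 ≤ x := hz.trans hx.1
        have h1 := hp1 x hx0
        have h2 := hineq x hx0
        have h3 : (0 : ℝ) < p x ^ 2 := by positivity
        have : -1 ≤ -(p' x) / (p x) ^ 2 := by
          rw [le_div_iff₀ h3]; linarith
        linarith)

    have hpz : p z ≤ ω := ps_sum_le (V_nonneg 0) hz (h.mono hz hzt).2 (N + 1)
    have hpz1 := hp1 z hz
    have h6 : 1 / ω ≤ (p z)⁻¹ := by
      rw [one_div]
      exact inv_anti₀ (by linarith) hpz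
    have h7 : κ ≤ (p z')⁻¹ := by rw [hκ]; linarith
    have hpz'1 := hp1 z' hz'0
    have h8 : p z' ≤ 1 / κ := by
      rw [le_div_iff₀ hκpos]
      have := mul_le_mul_of_nonneg_left h7 (show (0 : ℝ) ≤ p z' by linarith)
      rw [mul_inv_cancel₀ (by linarith)] at this
      exact this
    exact h8

end Pool.Agent.Sorted94
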