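import Pool.Agent.Sorted94.Bounds

/-! Real-variable facts near the radius of convergence. -/

namespace Pool.Agent.Sorted94

open Set

/-- `y = exp(-θ)` on the real line -/
noncomputable def yr (z : ℝ) : ℝ := Real.exp (-(ps ℝ thc z))

theorem ps_zero (c : ℕ → ℝ) : ps ℝ c 0 = c 0 := by
  unfold ps
  rw [tsum_eq_single 0]
  · simp
  · intro n hn
    simp [hn]

theorem th_zero : ps ℝ thc 0 = 0 := by rw [ps_zero]; rfl

theorem yy_zero (z : ℝ) : yy (ps ℝ thc) 0 z = yr z := by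
  unfold yy yr
  rw [th_zero, sub_zero]

theorem yr_pos (z : ℝ) : 0 < yr z := Real.exp_pos _

theorem yr_zero : yr 0 = 1 := by unfold yr; rw [th_zero]; simp

theorem Rad_pos : 0 < Rad := by have := Rad_ge; linarith

theorem hasDerivAt_yr {z : ℝ} (h0 : 0 ≤ z) (h : z < Rad) :
    HasDerivAt yr (-(ps ℝ (V 0) z * yr z)) z := by
  have := (sysR (z₀ := 0) le_rfl).hy z h0 h
  simp only [yy_zero] at this
  refine this.congr_of_eventuallyEq ?_
  exact Filter.Eventually.of_forall (fun x => (yy_zero x).symm)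

theorem hasDerivAt_q {z : ℝ} (h0 : 0 ≤ z) (h : z < Rad) :
    HasDerivAt (fun z => ps ℝ (V 0) z * yr z) (-(ps ℝ (D 1) z * yr z)) z := by
  have := (sysR (z₀ := 0) le_rfl).hq z h0 h
  simp only [yy_zero] at this
  exact this

theorem q_anti {x z : ℝ} (h0 : 0 ≤ x) (hxz : x ≤ z) (h : z < Rad) :
    ps ℝ (V 0) z * yr z ≤ ps ℝ (V 0) x * yr x := by
  have hd := (sysR (z₀ := 0) le_rfl).d_nn
  exact anti_of_hasDerivAt (f := fun z => ps ℝ (V 0) z * yr z)
    (f' := fun z => -(ps ℝ (D 1) z * yr z)) hxz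
    (fun u hu => hasDerivAt_q (h0.trans hu.1) (lt_of_le_of_lt hu.2 h))
    (fun u hu => by
      have h1 := hd u (h0.trans hu.1) (lt_of_le_of_lt hu.2 h)
      have h2 := yr_pos u
      have : 0 ≤ ps ℝ (D 1) u * yr u := by positivity
      linarith)

theorem q_le_one {z : ℝ} (h0 : 0 ≤ z) (h : z < Rad) : ps ℝ (V 0) z * yr z ≤ 1 := by
  have := q_anti le_rfl h0 h
  rw [ps_zero, yr_zero, V_k_zero] at this
  simpa using this

/-- a positive lower bound for `q` -/
noncomputable def qs : ℝ := yr (7 / 5) * 26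

theorem qs_pos : 0 < qs := by unfold qs; have := yr_pos (7 / 5); positivity

theorem qs_le {z : ℝ} (h0 : 0 ≤ z) (h : z < Rad) : qs ≤ ps ℝ (V 0) z * yr z := by
  have h75 : (7 / 5 : ℝ) < Rad := lt_of_lt_of_le (by norm_num) Rad_ge
  have key : ∀ z, 7 / 5 ≤ z → z < Rad → qs ≤ ps ℝ (V 0) z * yr z := by
    intro z h1 h2
    have hS := (sysR (z₀ := 7 / 5) (by norm_num)).toSys
    have h3 := hS.q_sq_ge z h1 h2
    have hJ := J_ge
    unfold w0 d0 at hJ
    have h4 := yy_pos (θ := ps ℝ thc) (z₀ := 7 / 5) z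
    have h5 := hS.w_pos z h1 h2
    have h6 := hS.w_pos (7 / 5) le_rfl h75
    have h7 := hS.d_nn (7 / 5) le_rfl h75
    have h8 : (26 : ℝ) ^ 2 ≤ (ps ℝ (V 0) z * yy (ps ℝ thc) (7 / 5) z) ^ 2 := by
      have : 0 ≤ 2 * (ps ℝ (D 1) (7 / 5) + ps ℝ (V 0) (7 / 5)) * yy (ps ℝ thc) (7 / 5) z := by
        positivity
      linarith
    have h9 : 26 ≤ ps ℝ (V 0) z * yy (ps ℝ thc) (7 / 5) z :=
      le_of_sq_le_sq h8 (by positivity)
    have h10 : yr z = yr (7 / 5) * yy (ps ℝ thc) (7 / 5) z := by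
      unfold yr yy
      rw [← Real.exp_add]
      congr 1
      ring
    rw [h10, qs]
    have := yr_pos (7 / 5)
    nlinarith
  rcases le_total (7 / 5) z with h1 | h1
  · exact key z h1 h
  · exact (key (7 / 5) le_rfl h75).trans (q_anti h0 h1 h75)

theorem yr_ge {z : ℝ} (h0 : 0 ≤ z) (h : z < Rad) : qs * (Rad - z) ≤ yr z := by
  by_contra hcon
  push Not at hcon
  have hq := qs_pos
  have h1 : z + yr z / qs < Rad := by
    have : yr z / qs < Rad - z := by rw [div_lt_iff₀ hq]; linarith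
    linarith
  obtain ⟨z', hz1, hz2⟩ := exists_between h1
  have hzz : z ≤ z' := by
    have : 0 < yr z / qs := div_pos (yr_pos z) hq
    linarith
  have h2 := anti_of_hasDerivAt (f := fun z => yr z + qs * z)
    (f' := fun z => -(ps ℝ (V 0) z * yr z) + qs * 1) hzz
    (fun u hu => (hasDerivAt_yr (h0.trans hu.1) (lt_of_le_of_lt hu.2 hz2)).add
      ((hasDerivAt_id u).const_mul qs))
    (fun u hu => by
      have := qs_le (h0.trans hu.1) (lt_of_le_of_lt hu.2 hz2)
      linarith)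
  have h3 := yr_pos z'
  have h4 : yr z / qs < z' - z := by linarith
  rw [div_lt_iff₀ hq] at h4
  linarith

theorem yr_le {z : ℝ} (h0 : 0 ≤ z) (h : z < Rad) : yr z ≤ (Rad - z) / Rad := by
  have h2 := anti_of_hasDerivAt (f := fun z => yr z / (Rad - z))
    (f' := fun z => ((-(ps ℝ (V 0) z * yr z)) * (Rad - z) - yr z * (-1)) / (Rad - z) ^ 2) h0
    (fun u hu => by
      have hu2 := lt_of_le_of_lt hu.2 h
      exact (hasDerivAt_yr hu.1 hu2).div ((hasDerivAt_id u).const_sub Rad)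
        (by have : 0 < Rad - u := by linarith
            exact this.ne'))
    (fun u hu => by
      have hu2 := lt_of_le_of_lt hu.2 h
      have h1 := w_ge_inv hu.1 hu2
      have h3 : 0 < Rad - u := by linarith
      rw [div_le_iff₀ h3] at h1
      apply div_nonpos_of_nonpos_of_nonneg _ (by positivity)
      have := yr_pos u
      nlinarith)
  simp only [yr_zero, sub_zero] at h2
  have h3 : 0 < Rad - z := by linarith
  rw [div_le_iff₀ h3] at h2
  calc yr z ≤ 1 / Rad * (Rad - z) := h2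
    _ = _ := by ring

theorem kap_le {z : ℝ} (h0 : 0 ≤ z) (h : z < Rad) : ps ℝ (D 1) z * yr z ≤ ps ℝ thc z := by
  have := (sysR (z₀ := 0) le_rfl).toSys.k_le z h0 h
  rw [yy_zero, ps_zero, ps_zero, th_zero, D_k_zero, V_k_zero] at this
  simpa using this

theorem th_eq (z : ℝ) : ps ℝ thc z = - Real.log (yr z) := by
  unfold yr; rw [Real.log_exp]; ring

theorem th_nonneg {z : ℝ} (h0 : 0 ≤ z) : 0 ≤ ps ℝ thc z := ps_real_nonneg thc_nonneg h0

theorem th_le {z ε : ℝ} (hε : 0 < ε) (h0 : 0 ≤ z) (h : z < Rad) :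
    ps ℝ thc z ≤ (qs * (Rad - z)) ^ (-ε) / ε := by
  rw [th_eq, ← Real.log_inv]
  have h1 : 0 < Rad - z := by linarith
  have h2 : 0 < qs * (Rad - z) := mul_pos qs_pos h1
  have h3 : Real.log (yr z)⁻¹ ≤ Real.log (qs * (Rad - z))⁻¹ := by
    apply Real.log_le_log (inv_pos.mpr (yr_pos z))
    exact inv_anti₀ h2 (yr_ge h0 h)
  refine h3.trans ((Real.log_le_rpow_div (inv_pos.mpr h2).le hε).trans (le_of_eq ?_))
  rw [Real.inv_rpow h2.le, Real.rpow_neg h2.le]

theorem dr_le {ε : ℝ} (hε : 0 < ε) : ∃ C : ℝ, 0 < C ∧ ∀ z, 0 ≤ z → z < Rad →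
    ps ℝ (D 1) z ≤ C * (Rad - z) ^ (-1 - ε) := by
  refine ⟨qs ^ (-1 - ε) / ε, by have := qs_pos; positivity, ?_⟩
  intro z h0 h
  have h1 : 0 < Rad - z := by linarith
  have hq := qs_pos
  have h2 : 0 < qs * (Rad - z) := mul_pos hq h1
  have h3 := kap_le h0 h
  have h4 := th_le hε h0 h
  have h5 := yr_ge h0 h
  have h6 := yr_pos z
  have h7 : ps ℝ (D 1) z ≤ ps ℝ thc z / yr z := by rw [le_div_iff₀ h6]; exact h3
  have h8 : ps ℝ thc z / yr z ≤ ((qs * (Rad - z)) ^ (-ε) / ε) / (qs * (Rad - z)) := by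
    have h9 : 0 ≤ (qs * (Rad - z)) ^ (-ε) / ε := by positivity
    exact div_le_div₀ h9 h4 h2 h5
  refine h7.trans (h8.trans (le_of_eq ?_))
  have e1 : (-1 - ε) = (-ε) - 1 := by ring
  rw [e1, Real.rpow_sub_one hq.ne', Real.rpow_sub_one h1.ne', Real.mul_rpow hq.le h1.le]
  field_simp

end Pool.Agent.Sorted94
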