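import Pool.Agent.Sorted94.Numbers

/-! Normalised numbers and their recurrences. -/

namespace Pool.Agent.Sorted94

open T Finset

/-- second differences are nonnegative -/
theorem cnt_convex (m n : ℕ) : 2 * cnt (m + 1) n ≤ cnt (m + 2) n + cnt m n := by
  have h1 := card_vF_succ_succ m (Finset.range n)
  have h2 := card_vF_succ m (Finset.range n)
  have h3 : (hF m (Finset.range n)).card ≤ (kF m (Finset.range n)).card := by
    refine Finset.card_le_card_of_injOn (fun L => nil :: L) ?_ ?_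
    · intro L hL
      simp only [Finset.mem_coe, hF, kF, Finset.mem_filter, mem_vF] at hL ⊢
      obtain ⟨⟨h1, h2, h3⟩, h4⟩ := hL
      refine ⟨⟨by simp [h1], ⟨trivial, h2, by simp, ?_⟩, by simp [h3]⟩, by simpa using h4⟩
      intro a _
      exact WithTop.coe_lt_top a
    · intro L _ L' _ h
      simpa using h
  simp only [cnt]
  omega

/-- normalised values: `D 0 n = a n / n!` and the normalised increments -/
noncomputable def D : ℕ → ℕ → ℝ
  | 0, n => (cnt 1 n : ℝ) / (n.factorial : ℝ)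
  | k + 1, n => ((cnt (k + 2) n : ℝ) - (cnt (k + 1) n : ℝ)) / (n.factorial : ℝ)

/-- partial sums over the level -/
noncomputable def V (k n : ℕ) : ℝ := (cnt (k + 1) n : ℝ) / (n.factorial : ℝ)

theorem D_zero (n : ℕ) : D 0 n = V 0 n := rfl

theorem V_succ (k n : ℕ) : V (k + 1) n = V k n + D (k + 1) n := by
  simp only [V, D]; ring

theorem V_eq_sum (k n : ℕ) : V k n = ∑ j ∈ range (k + 1), D j n := by
  induction k with
  | zero => simp [D_zero]
  | succ k ih => rw [V_succ, ih, Finset.sum_range_succ _ (k + 1)]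

theorem D_nonneg (k n : ℕ) : 0 ≤ D k n := by
  cases k with
  | zero => simp only [D]; positivity
  | succ k =>
    simp only [D]
    apply div_nonneg _ (by positivity)
    have := cnt_mono k n
    have h : (cnt (k + 1) n : ℝ) ≤ (cnt (k + 2) n : ℝ) := by exact_mod_cast this
    linarith

theorem V_nonneg (k n : ℕ) : 0 ≤ V k n := by
  simp only [V]; positivity

theorem D_mono (k n : ℕ) : D (k + 1) n ≤ D (k + 2) n := by
  simp only [D]
  apply div_le_div_of_nonneg_right _ (by positivity)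
  have := cnt_convex (k + 1) n
  have h : (2 * cnt (k + 2) n : ℝ) ≤ (cnt (k + 3) n : ℝ) + (cnt (k + 1) n : ℝ) := by
    exact_mod_cast this
  linarith

theorem D_zero_le (n : ℕ) : D 0 (n + 1) ≤ D 1 (n + 1) := by
  simp only [D]
  apply div_le_div_of_nonneg_right _ (by positivity)
  have := cnt_convex 0 (n + 1)
  rw [cnt_zero_succ] at this
  have h : (2 * cnt 1 (n + 1) : ℝ) ≤ (cnt 2 (n + 1) : ℝ) := by
    exact_mod_cast this
  linarith

theorem D_k_zero (k : ℕ) : D (k + 1) 0 = 0 := by
  simp only [D, cnt_m_zero]; simp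

theorem D_zero_zero : D 0 0 = 1 := by
  simp only [D, cnt_m_zero]; simp

theorem V_k_zero (k : ℕ) : V k 0 = 1 := by
  simp only [V, cnt_m_zero]; simp

theorem conv_factorial (f g : ℕ → ℕ) (n : ℕ) :
    ((∑ i ∈ range (n + 1), n.choose i * (f i * g (n - i)) : ℕ) : ℝ) / (n.factorial : ℝ) =
      ∑ i ∈ range (n + 1), ((f i : ℝ) / (i.factorial : ℝ)) *
        ((g (n - i) : ℝ) / ((n - i).factorial : ℝ)) := by
  rw [Nat.cast_sum, Finset.sum_div]
  refine Finset.sum_congr rfl ?_
  intro i hi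
  have hi' : i ≤ n := by
    rw [Finset.mem_range] at hi; omega
  have h1 := Nat.choose_mul_factorial_mul_factorial hi'
  have h2 : ((n.choose i : ℝ)) * (i.factorial : ℝ) * ((n - i).factorial : ℝ) =
      (n.factorial : ℝ) := by exact_mod_cast h1
  have h3 : (i.factorial : ℝ) ≠ 0 := by positivity
  have h4 : ((n - i).factorial : ℝ) ≠ 0 := by positivity
  have h5 : (n.factorial : ℝ) ≠ 0 := by positivity
  push_cast
  field_simp
  rw [← h2]
  ring

/-- the fundamental recurrence, normalised -/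
theorem D_rec (k n : ℕ) : ((n : ℝ) + 1) * D k (n + 1) =
    (∑ i ∈ range (n + 1), V 0 i * V k (n - i)) - D (k + 1) n := by
  have h := cnt_rec k n
  have hc := conv_factorial (cnt 1) (cnt (k + 1)) n
  have hf : ((n + 1).factorial : ℝ) = ((n : ℝ) + 1) * (n.factorial : ℝ) := by
    rw [Nat.factorial_succ]; push_cast; ring
  have hf0 : (n.factorial : ℝ) ≠ 0 := by positivity
  have hn1 : ((n : ℝ) + 1) ≠ 0 := by positivity
  have hreal : (cnt (k + 1) (n + 1) : ℝ) + (cnt (k + 2) n : ℝ) =
      (cnt k (n + 1) : ℝ) + (cnt (k + 1) n : ℝ) +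
      ((∑ i ∈ range (n + 1), n.choose i * (cnt 1 i * cnt (k + 1) (n - i)) : ℕ) : ℝ) := by
    exact_mod_cast h
  have e1 : (∑ i ∈ range (n + 1), V 0 i * V k (n - i)) =
      ((∑ i ∈ range (n + 1), n.choose i * (cnt 1 i * cnt (k + 1) (n - i)) : ℕ) : ℝ) /
        (n.factorial : ℝ) := by
    rw [hc]
    rfl
  rw [e1]
  cases k with
  | zero =>
    rw [cnt_zero_succ] at hreal
    simp only [D]
    rw [hf]
    have e2 : ((∑ i ∈ range (n + 1), n.choose i * (cnt 1 i * cnt (0 + 1) (n - i)) : ℕ) : ℝ) =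
      (cnt (0 + 1) (n + 1) : ℝ) + (cnt (0 + 2) n : ℝ) - (cnt (0 + 1) n : ℝ) := by
      push_cast at hreal ⊢
      linarith
    rw [e2]
    field_simp
    simp only [zero_add]
    ring
  | succ k =>
    simp only [D]
    rw [hf]
    have e2 : ((∑ i ∈ range (n + 1), n.choose i * (cnt 1 i * cnt (k + 1 + 1) (n - i)) : ℕ) : ℝ) =
      (cnt (k + 1 + 1) (n + 1) : ℝ) + (cnt (k + 1 + 2) n : ℝ) - (cnt (k + 1) (n + 1) : ℝ) -
        (cnt (k + 1 + 1) n : ℝ) := by
      linarith
    rw [e2]
    field_simp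
    ring

end Pool.Agent.Sorted94
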