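import Pool.Agent.Sorted94.Check
import Pool.Agent.Sorted94.Radius

/-! Upper bounds for all coefficients and numerical enclosures at `z = 7/5`. -/

namespace Pool.Agent.Sorted94

open Finset

/-- the rate used in the crude bound -/
noncomputable def rr : ℝ := 6982 / 10000

theorem rr_pos : 0 < rr := by unfold rr; norm_num

theorem valid400 : ∀ n ≤ 400, Valid n := valid_all 400 (by norm_num) facts.1

theorem hh_ge (i : ℕ) (hi : i ≤ 400) : Ds 0 i ≤ (hh i : ℝ) := (valid400 i hi 0 (by norm_num)).1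
theorem ll_le (i : ℕ) (hi : i ≤ 400) : (ll i : ℝ) ≤ Ds 0 i := (valid400 i hi 0 (by norm_num)).2
theorem l1_le (i : ℕ) (hi : i ≤ 400) : (l1 i : ℝ) ≤ Vs 1 i :=
  (valid_V i (valid400 i hi) 1 (by norm_num)).2

theorem Ds_zero (i : ℕ) : Ds 0 i = SS * (V 0 i * (7 / 5 : ℝ) ^ i) := rfl

/-- the window bound -/
theorem win (i : ℕ) (h1 : 150 < i) (h2 : i ≤ 400) : V 0 i ≤ rr ^ (i + 1) := by
  have h := facts.2.1
  rw [Finset.sum_eq_zero_iff] at h
  have h3 := h i (by rw [Finset.mem_range]; omega)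
  unfold gwin at h3
  rw [if_neg (by omega)] at h3
  by_cases hc : (fH i).1 * 10 ^ (4 * i + 4) * 5 ^ i ≤ SS * 7 ^ i * 6982 ^ (i + 1)
  · have hc' : ((fH i).1 : ℝ) * 10 ^ (4 * i + 4) * 5 ^ i ≤ SS * 7 ^ i * 6982 ^ (i + 1) := by
      exact_mod_cast hc
    have h4 := hh_ge i h2
    have h5 : ((fH i).1 : ℝ) = (hh i : ℝ) := rfl
    rw [h5] at hc'
    rw [Ds_zero] at h4
    have h6 : SS * (V 0 i * (7 / 5 : ℝ) ^ i) * 10 ^ (4 * i + 4) * 5 ^ i ≤
        SS * 7 ^ i * 6982 ^ (i + 1) := by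
      refine le_trans ?_ hc'
      gcongr
    have h7 : SS * (V 0 i * (7 / 5 : ℝ) ^ i) * 10 ^ (4 * i + 4) * 5 ^ i =
        (SS * 7 ^ i) * (V 0 i * 10 ^ (4 * i + 4)) := by
      rw [div_pow]
      field_simp
    rw [h7] at h6
    have hpos : (0 : ℝ) < SS * 7 ^ i := by have := SS_pos; positivity
    have h8 := le_of_mul_le_mul_left h6 hpos
    unfold rr
    rw [div_pow, le_div_iff₀ (by positivity)]
    have h9 : (10000 : ℝ) ^ (i + 1) = 10 ^ (4 * i + 4) := by
      rw [show (10000 : ℝ) = 10 ^ 4 by norm_num, ← pow_mul]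
      congr 1
    rw [h9]
    exact h8
  · rw [if_neg hc] at h3
    exact absurd h3 (by norm_num)

/-- integer excess sum -/
def G150 : ℕ := ∑ i ∈ range 150, gE (i + 1) (fH (i + 1))

/-- real excess sum -/
noncomputable def X150 : ℝ := ∑ i ∈ range 150, V 0 (i + 1) / rr ^ (i + 2)

theorem G150_le : 2 * 6982 * G150 + 10000 * SS ≤ 2 * 6982 * 151 * SS := by
  have h := facts.2.2.1
  have hG : ∑ i ∈ range 401, gE i (fH i) = G150 := by
    have h1 : ∑ i ∈ range 401, gE i (fH i) = ∑ i ∈ range 151, gE i (fH i) := by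
      symm
      refine Finset.sum_subset (Finset.range_subset_range.mpr (by norm_num)) ?_
      intro i _ hi
      rw [Finset.mem_range, not_lt] at hi
      unfold gE
      rw [if_neg (by omega), if_neg (by omega)]
    rw [h1, Finset.sum_range_succ', G150]
    have h0 : gE 0 (fH 0) = 0 := by unfold gE; rw [if_pos rfl]
    rw [h0, add_zero]
  rw [hG] at h
  exact h

theorem X150_le_G150 : SS * X150 ≤ (G150 : ℝ) := by
  have hS := SS_pos
  rw [X150, G150, Finset.mul_sum, Nat.cast_sum]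
  refine Finset.sum_le_sum ?_
  intro i hi
  rw [Finset.mem_range] at hi
  have h4 := hh_ge (i + 1) (by omega)
  rw [Ds_zero] at h4
  have hE : gE (i + 1) (fH (i + 1)) = ((hh (i + 1)) * 10 ^ (4 * (i + 1) + 4) * 5 ^ (i + 1)) /
      (7 ^ (i + 1) * 6982 ^ (i + 1 + 1)) + 1 := by
    unfold gE
    rw [if_neg (by omega), if_pos (by omega)]
    rfl
  rw [hE]
  have hfl := Nat.lt_mul_div_succ ((hh (i + 1)) * 10 ^ (4 * (i + 1) + 4) * 5 ^ (i + 1))
    (show 0 < 7 ^ (i + 1) * 6982 ^ (i + 1 + 1) by positivity)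
  have hfl' : ((hh (i + 1) : ℝ)) * 10 ^ (4 * (i + 1) + 4) * 5 ^ (i + 1) ≤
      (7 ^ (i + 1) * 6982 ^ (i + 1 + 1)) *
        (((((hh (i + 1)) * 10 ^ (4 * (i + 1) + 4) * 5 ^ (i + 1)) /
      (7 ^ (i + 1) * 6982 ^ (i + 1 + 1)) + 1 : ℕ)) : ℝ) := by
    exact_mod_cast hfl.le
  have h9 : (10000 : ℝ) ^ (i + 2) = 10 ^ (4 * (i + 1) + 4) := by
    rw [show (10000 : ℝ) = 10 ^ 4 by norm_num, ← pow_mul]
    congr 1
  have h6 : SS * (V 0 (i + 1) * (7 / 5 : ℝ) ^ (i + 1)) * 10 ^ (4 * (i + 1) + 4) * 5 ^ (i + 1) ≤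
      (hh (i + 1) : ℝ) * 10 ^ (4 * (i + 1) + 4) * 5 ^ (i + 1) := by gcongr
  have h7 : SS * (V 0 (i + 1) * (7 / 5 : ℝ) ^ (i + 1)) * 10 ^ (4 * (i + 1) + 4) * 5 ^ (i + 1) =
      (SS * (V 0 (i + 1) / rr ^ (i + 2))) * (7 ^ (i + 1) * 6982 ^ (i + 1 + 1)) := by
    unfold rr
    rw [div_pow, div_pow, h9]
    field_simp
  rw [h7] at h6
  have h8 := h6.trans hfl'
  rw [mul_comm ((7 : ℝ) ^ (i + 1) * 6982 ^ (i + 1 + 1)) _] at h8
  exact le_of_mul_le_mul_right h8 (by positivity)

theorem excess : X150 ≤ 151 - 1 / (2 * rr) := by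
  have hS := SS_pos
  have h' : (2 * 6982 * (G150 : ℝ) + 10000 * SS : ℝ) ≤ 2 * 6982 * 151 * SS := by
    exact_mod_cast G150_le
  have hsum := X150_le_G150
  have h10 : SS * X150 ≤ SS * (151 - 1 / (2 * rr)) := by
    unfold rr
    generalize X150 = X at *
    generalize (G150 : ℝ) = G at *
    generalize (SS : ℝ) = S at *
    have e : (1 : ℝ) / (2 * (6982 / 10000)) = 10000 / (2 * 6982) := by norm_num
    rw [e]
    linarith
  exact le_of_mul_le_mul_left h10 hS

theorem aux1 (a b : ℝ) (ha : 0 ≤ a) (hb : b ≤ 1) : a * b ≤ 1 + (a - 1) + 0 := by nlinarith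
theorem aux2 (a b : ℝ) (ha : a ≤ 1) (hb : 0 ≤ b) : a * b ≤ 1 + 0 + (b - 1) := by nlinarith
theorem aux3 (a b : ℝ) (ha0 : 0 ≤ a) (ha : a ≤ 1) (hb : b ≤ 1) : a * b ≤ 1 + 0 + 0 := by
  nlinarith

/-- the crude bound for all large indices -/
theorem V_le_rr : ∀ n, 150 < n → V 0 n ≤ rr ^ (n + 1) := by
  have hr := rr_pos
  intro n
  induction n using Nat.strong_induction_on with
  | _ n ih =>
    intro hn
    rcases Nat.lt_or_ge 400 n with h400 | h400
    · -- n = m + 1
      obtain ⟨m, rfl⟩ : ∃ m, n = m + 1 := ⟨n - 1, by omega⟩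
      have hrec := D_rec 0 m
      have hD1 : D 0 m ≤ D 1 m := by
        obtain ⟨k, rfl⟩ : ∃ k, m = k + 1 := ⟨m - 1, by omega⟩
        exact D_zero_le k
      rw [D_zero] at hrec hD1
      -- split the convolution
      have hsplit : ∑ i ∈ range (m + 1), V 0 i * V 0 (m - i) =
          2 * V 0 m + ∑ i ∈ range (m - 1), V 0 (i + 1) * V 0 (m - (i + 1)) := by
        obtain ⟨k, rfl⟩ : ∃ k, m = k + 1 := ⟨m - 1, by omega⟩
        rw [Finset.sum_range_succ, Finset.sum_range_succ', Nat.sub_self, V_k_zero,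
          Nat.sub_zero, Nat.add_sub_cancel]
        ring
      set x : ℕ → ℝ := fun i => V 0 i / rr ^ (i + 1) with hx
      have hx0 : ∀ i, 0 ≤ x i := fun i => div_nonneg (V_nonneg 0 i) (by positivity)
      have hx1 : ∀ i, 150 < i → i < m + 1 → x i ≤ 1 := by
        intro i h1 h2
        rw [hx]
        simp only
        rw [div_le_one (by positivity)]
        exact ih i h2 h1
      have hVx : ∀ i, V 0 i = x i * rr ^ (i + 1) := by
        intro i
        rw [hx]
        field_simp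
      have hterm : ∀ i ∈ range (m - 1), V 0 (i + 1) * V 0 (m - (i + 1)) ≤
          rr ^ (m + 2) * (1 + (if i < 150 then x (i + 1) - 1 else 0) +
            (if m - 2 - i < 150 then x (m - 2 - i + 1) - 1 else 0)) := by
        intro i hi
        rw [Finset.mem_range] at hi
        have e1 : m - (i + 1) = m - 2 - i + 1 := by omega
        have e2 : rr ^ (m + 2) = rr ^ (i + 1 + 1) * rr ^ (m - 2 - i + 1 + 1) := by
          rw [← pow_add]; congr 1; omega
        rw [e1, hVx (i + 1), hVx (m - 2 - i + 1), e2]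
        have e3 : x (i + 1) * rr ^ (i + 1 + 1) * (x (m - 2 - i + 1) * rr ^ (m - 2 - i + 1 + 1)) =
            rr ^ (i + 1 + 1) * rr ^ (m - 2 - i + 1 + 1) * (x (i + 1) * x (m - 2 - i + 1)) := by
          ring
        rw [e3]
        refine mul_le_mul_of_nonneg_left ?_ (by positivity)
        have a0 := hx0 (i + 1)
        have b0 := hx0 (m - 2 - i + 1)
        by_cases c1 : i < 150
        · have c2 : ¬ (m - 2 - i < 150) := by omega
          rw [if_pos c1, if_neg c2]
          have b1 := hx1 (m - 2 - i + 1) (by omega) (by omega)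
          exact aux1 _ _ a0 b1
        · rw [if_neg c1]
          have a1 := hx1 (i + 1) (by omega) (by omega)
          by_cases c2 : m - 2 - i < 150
          · rw [if_pos c2]
            exact aux2 _ _ a1 b0
          · rw [if_neg c2]
            have b1 := hx1 (m - 2 - i + 1) (by omega) (by omega)
            exact aux3 _ _ a0 a1 b1
      have hsum := Finset.sum_le_sum hterm
      rw [← Finset.mul_sum, Finset.sum_add_distrib, Finset.sum_add_distrib, Finset.sum_const,
        Finset.card_range] at hsum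
      have hs1 : ∑ i ∈ range (m - 1), (if i < 150 then x (i + 1) - 1 else 0) = X150 - 150 := by
        rw [← Finset.sum_filter]
        have hset : (range (m - 1)).filter (fun i => i < 150) = range 150 := by
          ext i
          simp only [Finset.mem_filter, Finset.mem_range]
          omega
        rw [hset, Finset.sum_sub_distrib, Finset.sum_const, Finset.card_range, nsmul_eq_mul,
          mul_one]
        rfl
      have hs2 : ∑ i ∈ range (m - 1), (if m - 2 - i < 150 then x (m - 2 - i + 1) - 1 else 0) =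
          ∑ i ∈ range (m - 1), (if i < 150 then x (i + 1) - 1 else 0) := by
        have := Finset.sum_range_reflect (fun i => if i < 150 then x (i + 1) - 1 else 0) (m - 1)
        rw [← this]
        refine Finset.sum_congr rfl (fun i hi => ?_)
        rw [Finset.mem_range] at hi
        have : m - 1 - 1 - i = m - 2 - i := by omega
        rw [this]
      rw [hs2, hs1] at hsum
      have hE : X150 - 150 ≤ 1 - 1 / (2 * rr) := by
        have := excess
        linarith
      have hm1 : ((m - 1 : ℕ) : ℝ) = (m : ℝ) - 1 := by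
        rw [Nat.cast_sub (by omega)]; simp
      simp only [nsmul_eq_mul, mul_one, hm1] at hsum
      have hVm : V 0 m ≤ rr ^ (m + 1) := ih m (by omega) (by omega)
      have hpw : rr ^ (m + 1) = rr ^ (m + 2) * (1 / rr) := by
        rw [pow_succ rr (m + 1)]
        field_simp
      have hR : 0 < rr ^ (m + 2) := by positivity
      have hfin : ((m : ℝ) + 1) * V 0 (m + 1) ≤ rr ^ (m + 2) * ((m : ℝ) + 1) := by
        rw [hrec, hsplit]
        have h1 : rr ^ (m + 2) * ((m : ℝ) - 1 + (X150 - 150) + (X150 - 150)) ≤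
            rr ^ (m + 2) * ((m : ℝ) - 1 + (1 - 1 / (2 * rr)) + (1 - 1 / (2 * rr))) := by
          refine mul_le_mul_of_nonneg_left ?_ hR.le
          linarith
        have h2 : rr ^ (m + 2) * ((m : ℝ) - 1 + (1 - 1 / (2 * rr)) + (1 - 1 / (2 * rr))) +
            rr ^ (m + 2) * (1 / rr) = rr ^ (m + 2) * ((m : ℝ) + 1) := by
          field_simp
          ring
        rw [hpw] at hVm
        linarith
      have hm2 : (0 : ℝ) < (m : ℝ) + 1 := by positivity
      rw [mul_comm (rr ^ (m + 2))] at hfin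
      exact le_of_mul_le_mul_left hfin hm2
    · exact win n hn h400

theorem Sm_of_lt {t : ℝ} (h0 : 0 ≤ t) (h : t * rr < 1) : Sm t := by
  refine ⟨h0, ?_⟩
  rw [← summable_nat_add_iff 151]
  have hr := rr_pos
  have hg : Summable fun n : ℕ => rr * (t * rr) ^ 151 * (t * rr) ^ n :=
    (summable_geometric_of_lt_one (by positivity) h).mul_left _
  refine Summable.of_nonneg_of_le (fun n => ?_) (fun n => ?_) hg
  · exact mul_nonneg (V_nonneg _ _) (pow_nonneg h0 _)
  · have h1 := V_le_rr (n + 151) (by omega)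
    calc V 0 (n + 151) * t ^ (n + 151) ≤ rr ^ (n + 151 + 1) * t ^ (n + 151) :=
          mul_le_mul_of_nonneg_right h1 (pow_nonneg h0 _)
      _ = rr * (t * rr) ^ 151 * (t * rr) ^ n := by
          rw [mul_pow, mul_pow, pow_succ rr (n + 151), pow_add rr n, pow_add t n]
          ring

theorem Sm143 : Sm (143 / 100) := Sm_of_lt (by norm_num) (by unfold rr; norm_num)

/-- ratio `r z₀` -/
noncomputable def qq : ℝ := 24437 / 25000

theorem qq_eq : rr * (7 / 5) = qq := by unfold rr qq; norm_num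

/-- partial sum -/
noncomputable def P0 : ℝ := ∑ i ∈ range 401, V 0 i * (7 / 5 : ℝ) ^ i
/-- weighted partial sum -/
noncomputable def P1 : ℝ := ∑ i ∈ range 401, (i : ℝ) * V 0 i * (7 / 5 : ℝ) ^ i
/-- weighted partial sum of level one -/
noncomputable def P2 : ℝ := ∑ i ∈ range 401, (i : ℝ) * V 1 i * (7 / 5 : ℝ) ^ i

theorem sum_ll : 33.23376 ≤ P0 := by
  have hS := SS_pos
  have h := facts.2.2.2.2.1
  have h' : ((33233760 * (SS / 1000000) : ℕ) : ℝ) ≤ ((∑ i ∈ range 401, ll i : ℕ) : ℝ) := by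
    exact_mod_cast h
  have h1 : ((∑ i ∈ range 401, ll i : ℕ) : ℝ) ≤ SS * P0 := by
    rw [P0, Nat.cast_sum, Finset.mul_sum]
    refine Finset.sum_le_sum (fun i hi => ?_)
    rw [Finset.mem_range] at hi
    exact ll_le i (by omega)
  have h2 := h'.trans h1
  have h3 : ((33233760 * (SS / 1000000) : ℕ) : ℝ) = SS * 33.23376 := by
    unfold SS; norm_num
  rw [h3] at h2
  exact le_of_mul_le_mul_left h2 hS

theorem sum_hh : P0 ≤ 33.2346 := by
  have hS := SS_pos
  have h := facts.2.2.2.1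
  have h' : ((∑ i ∈ range 401, hh i : ℕ) : ℝ) ≤ ((33234600 * (SS / 1000000) : ℕ) : ℝ) := by
    exact_mod_cast h
  have h1 : (SS : ℝ) * P0 ≤ ((∑ i ∈ range 401, hh i : ℕ) : ℝ) := by
    rw [P0, Nat.cast_sum, Finset.mul_sum]
    refine Finset.sum_le_sum (fun i hi => ?_)
    rw [Finset.mem_range] at hi
    exact hh_ge i (by omega)
  have h2 := h1.trans h'
  have h3 : ((33234600 * (SS / 1000000) : ℕ) : ℝ) = SS * 33.2346 := by
    unfold SS; norm_num
  rw [h3] at h2
  exact le_of_mul_le_mul_left h2 hS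

theorem sum_ill : 1312.03 ≤ P1 := by
  have hS := SS_pos
  have h := facts.2.2.2.2.2.2.1
  have h' : ((1312030 * (SS / 1000) : ℕ) : ℝ) ≤ ((∑ i ∈ range 401, i * ll i : ℕ) : ℝ) := by
    exact_mod_cast h
  have h1 : ((∑ i ∈ range 401, i * ll i : ℕ) : ℝ) ≤ SS * P1 := by
    rw [P1, Nat.cast_sum, Finset.mul_sum]
    refine Finset.sum_le_sum (fun i hi => ?_)
    rw [Finset.mem_range] at hi
    have h2 := ll_le i (by omega)
    rw [Ds_zero] at h2
    push_cast
    calc (i : ℝ) * (ll i : ℝ) ≤ i * (SS * (V 0 i * (7 / 5 : ℝ) ^ i)) :=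
          mul_le_mul_of_nonneg_left h2 (Nat.cast_nonneg i)
      _ = _ := by ring
  have h2 := h'.trans h1
  have h3 : ((1312030 * (SS / 1000) : ℕ) : ℝ) = SS * 1312.03 := by
    unfold SS; norm_num
  rw [h3] at h2
  exact le_of_mul_le_mul_left h2 hS

theorem sum_ihh : P1 ≤ 1312.12 := by
  have hS := SS_pos
  have h := facts.2.2.2.2.2.1
  have h' : ((∑ i ∈ range 401, i * hh i : ℕ) : ℝ) ≤ ((1312120 * (SS / 1000) : ℕ) : ℝ) := by
    exact_mod_cast h
  have h1 : (SS : ℝ) * P1 ≤ ((∑ i ∈ range 401, i * hh i : ℕ) : ℝ) := by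
    rw [P1, Nat.cast_sum, Finset.mul_sum]
    refine Finset.sum_le_sum (fun i hi => ?_)
    rw [Finset.mem_range] at hi
    have h2 := hh_ge i (by omega)
    rw [Ds_zero] at h2
    push_cast
    calc SS * ((i : ℝ) * V 0 i * (7 / 5 : ℝ) ^ i) = i * (SS * (V 0 i * (7 / 5 : ℝ) ^ i)) := by ring
      _ ≤ _ := by gcongr
  have h2 := h1.trans h'
  have h3 : ((1312120 * (SS / 1000) : ℕ) : ℝ) = SS * 1312.12 := by
    unfold SS; norm_num
  rw [h3] at h2
  exact le_of_mul_le_mul_left h2 hS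

theorem sum_il1 : 9762.7 ≤ P2 := by
  have hS := SS_pos
  have h := facts.2.2.2.2.2.2.2
  have h' : ((9762700 * (SS / 1000) : ℕ) : ℝ) ≤ ((∑ i ∈ range 401, i * l1 i : ℕ) : ℝ) := by
    exact_mod_cast h
  have h1 : ((∑ i ∈ range 401, i * l1 i : ℕ) : ℝ) ≤ SS * P2 := by
    rw [P2, Nat.cast_sum, Finset.mul_sum]
    refine Finset.sum_le_sum (fun i hi => ?_)
    rw [Finset.mem_range] at hi
    have h2 := l1_le i (by omega)
    unfold Vs at h2
    push_cast
    calc (i : ℝ) * (l1 i : ℝ) ≤ i * (SS * (V 1 i * (7 / 5 : ℝ) ^ i)) :=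
          mul_le_mul_of_nonneg_left h2 (Nat.cast_nonneg i)
      _ = _ := by ring
  have h2 := h'.trans h1
  have h3 : ((9762700 * (SS / 1000) : ℕ) : ℝ) = SS * 9762.7 := by
    unfold SS; norm_num
  rw [h3] at h2
  exact le_of_mul_le_mul_left h2 hS

end Pool.Agent.Sorted94
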