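import Pool.Agent.Sorted94.Tree

/-! Uniqueness of the canonical tree with given postorder word. -/

namespace Pool.Agent.Sorted94

namespace T

theorem getLast_mem_of_append {ρ s t : List ℕ} (h : t = ρ ++ s) (hρ : ρ ≠ []) :
    ρ.getLast hρ ∈ t := by
  subst h
  exact List.mem_append_left _ (List.getLast_mem hρ)

/-- number of vertices -/
def size : T → ℕ
  | nil => 0
  | node l _ r => size l + size r + 1

@[simp] theorem size_nil : size nil = 0 := rfl
@[simp] theorem size_node (l x r) : size (node l x r) = size l + size r + 1 := rfl

theorem unique_aux : ∀ n : ℕ,
    (∀ t t' : T, size t + size t' ≤ n → Good t → Good t' → post t = post t' → t = t') ∧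
    (∀ b b' : T, size b + size b' ≤ n → Good b → Good b' → b' ≠ nil →
      ∀ (ρ : List ℕ) (hρ : ρ ≠ []), post b = ρ ++ post b' →
        ((ρ.getLast hρ : ℕ) : WithTop ℕ) < mu b') := by
  intro n
  induction n using Nat.strong_induction_on with
  | _ n ih =>
    have claim2 : ∀ b b' : T, size b + size b' ≤ n → Good b → Good b' → b' ≠ nil →
      ∀ (ρ : List ℕ) (hρ : ρ ≠ []), post b = ρ ++ post b' →
        ((ρ.getLast hρ : ℕ) : WithTop ℕ) < mu b' := by
      intro b b' hs hb hb' hb'n ρ hρ hpost
      cases b with
      | nil => simp at hpost; exact absurd hpost.1 hρ
      | node C y D =>
      cases b' with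
      | nil => exact absurd rfl hb'n
      | node C' y' D' =>
      simp only [size_node] at hs
      have hb0 := hb
      have hb0' := hb'
      obtain ⟨g1, g2, g3, g4, g5, g6⟩ := hb0
      obtain ⟨g1', g2', g3', g4', g5', g6'⟩ := hb0'
      simp only [post_node] at hpost
      rw [← List.append_assoc ρ] at hpost
      have hlast := List.append_inj_right' hpost rfl
      have hinit := List.append_inj_left' hpost rfl
      have hyy : y = y' := by simpa using hlast
      subst hyy
      by_cases hC' : C' = nil
      · subst hC'
        rw [mu_node_nil]
        have hmem := getLast_mem_of_append hinit hρ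
        rw [List.mem_append, mem_post, mem_post] at hmem
        have : ρ.getLast hρ < y := by
          rcases hmem with h | h
          · exact g4 _ h
          · exact g5 _ h
        exact_mod_cast this
      · rw [mu_node_of_ne _ _ _ hC']
        rw [← List.append_assoc ρ] at hinit
        have key : ∀ (X Y : T) (as : List ℕ) (has : as ≠ []), X ≠ nil → Good X →
            (∃ u, post X = u ++ as) → ((as.getLast has : ℕ)) = root X := by
          intro X Y as has hX hgX hu
          obtain ⟨u, hu⟩ := hu
          have h1 := getLast_post X (post_ne_nil X hX)
          rw [← h1]
          have h2 : (post X).getLast (post_ne_nil X hX) = (u ++ as).getLast (by simp [has]) := by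
            congr 1
          rw [h2, List.getLast_append_of_ne_nil _ has]
        rcases List.append_eq_append_iff.mp hinit with ⟨as, h1, h2⟩ | ⟨as, h1, h2⟩
        · -- ρ ++ post C' = post C ++ as, post D = as ++ post D'
          by_cases has : as = []
          · subst has
            rw [List.append_nil] at h1
            exact (ih (size C + size C') (by omega)).2 C C' le_rfl g1 g1' hC' ρ hρ h1.symm
          · exfalso
            have hD' : D' ≠ nil := ne_nil_of_good _ _ _ hb' hC'
            have h3 := (ih (size D + size D') (by omega)).2 D D' le_rfl g2 g2' hD' as has h2
            have h4 := g6' hC'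
            -- last of as is root C'
            have hCne : post C' ≠ [] := post_ne_nil _ hC'
            have h5 : as.getLast has = root C' := by
              have e1 : (ρ ++ post C').getLast (by simp [hρ]) = root C' := by
                rw [List.getLast_append_of_ne_nil _ hCne, getLast_post]
              have e2 : (ρ ++ post C').getLast (by simp [hρ]) =
                  (post C ++ as).getLast (by simp [has]) := by
                congr 1
              rw [← e1, e2, List.getLast_append_of_ne_nil _ has]
            rw [h5] at h3
            exact absurd h4 (not_lt.mpr h3.le)
        · -- post C = ρ ++ post C' ++ as, post D' = as ++ post D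
          by_cases has : as = []
          · subst has
            rw [List.append_nil] at h1
            exact (ih (size C + size C') (by omega)).2 C C' le_rfl g1 g1' hC' ρ hρ h1
          · exfalso
            have hC : C ≠ nil := by
              rintro rfl
              rw [post_nil] at h1
              have := congrArg List.length h1
              simp only [List.length_nil, List.length_append] at this
              have h9 := List.length_pos_of_ne_nil has
              omega
            have hD : D ≠ nil := ne_nil_of_good _ _ _ hb hC
            have h3 := (ih (size D' + size D) (by omega)).2 D' D le_rfl g2' g2 hD as has h2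
            have h4 := g6 hC
            have h5 : as.getLast has = root C := key C C as has hC g1 ⟨_, h1⟩
            rw [h5] at h3
            exact absurd h4 (not_lt.mpr h3.le)
    refine ⟨?_, claim2⟩
    intro t t' hs ht ht' hpost
    cases t with
    | nil =>
      cases t' with
      | nil => rfl
      | node => simp at hpost
    | node A x B =>
    cases t' with
    | nil => simp at hpost
    | node A' x' B' =>
    simp only [size_node] at hs
    have ht0 := ht
    have ht0' := ht'
    obtain ⟨g1, g2, g3, g4, g5, g6⟩ := ht0
    obtain ⟨g1', g2', g3', g4', g5', g6'⟩ := ht0'
    simp only [post_node] at hpost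
    have hlast := List.append_inj_right' hpost rfl
    have hinit := List.append_inj_left' hpost rfl
    have hyy : x = x' := by simpa using hlast
    subst hyy
    -- symmetric key step
    have key : ∀ (A B A' B' : T) (as : List ℕ), size A + size B + (size A' + size B') ≤ n →
        Good A → Good B → Good A' → Good B' → (A' ≠ nil → mu B' < (root A' : WithTop ℕ)) →
        post A' = post A ++ as → post B = as ++ post B' → as = [] := by
      intro A B A' B' as hsz hA hB hA' hB' hc h1 h2
      by_contra has
      have hA'n : A' ≠ nil := by
        rintro rfl
        rw [post_nil] at h1
        have := congrArg List.length h1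
        simp only [List.length_nil, List.length_append] at this
        have h9 := List.length_pos_of_ne_nil has
        omega
      have hmu := hc hA'n
      have hB'n : B' ≠ nil := by
        rintro rfl
        simp at hmu
      have hlt : size B + size B' ≤ n := by omega
      have h3 := claim2 B B' hlt hB hB' hB'n as has h2
      have h5 : as.getLast has = root A' := by
        rw [← getLast_post A' (post_ne_nil A' hA'n)]
        have e2 : (post A').getLast (post_ne_nil A' hA'n) =
            (post A ++ as).getLast (by simp [has]) := by
          congr 1
        rw [e2, List.getLast_append_of_ne_nil _ has]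
      rw [h5] at h3
      exact absurd hmu (not_lt.mpr h3.le)
    have hAB : post A = post A' ∧ post B = post B' := by
      rcases List.append_eq_append_iff.mp hinit with ⟨as, h1, h2⟩ | ⟨as, h1, h2⟩
      · have := key A B A' B' as (by omega) g1 g2 g1' g2' g6' h1 h2
        subst this
        simp at h1 h2
        exact ⟨h1.symm, h2⟩
      · have := key A' B' A B as (by omega) g1' g2' g1 g2 g6 h1 h2
        subst this
        simp at h1 h2
        exact ⟨h1, h2.symm⟩
    have e1 := (ih (size A + size A') (by omega)).1 A A' le_rfl g1 g1' hAB.1
    have e2 := (ih (size B + size B') (by omega)).1 B B' le_rfl g2 g2' hAB.2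
    rw [e1, e2]

theorem post_inj {t t' : T} (h : Good t) (h' : Good t') (he : post t = post t') : t = t' :=
  (unique_aux _).1 t t' le_rfl h h' he

end T

end Pool.Agent.Sorted94
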